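import Pool.Agent.U39.SZ.Y

/-!
The plane wave with a random phase: stationarity, Chebyshev polynomials (project SZ, helper39).
-/

set_option autoImplicit false

namespace Pool.Agent.U39.SZ

open Pool.Agent.Y139.SW MeasureTheory Filter Topology Set
open scoped ContDiff

variable {d : ℕ}

lemma pw_meas (i0 : Fin d) (y : E d) : Measurable fun s => pw i0 s y := by
  have h : Continuous fun s => pw i0 s y := by
    unfold pw
    refine Complex.continuous_re.comp (continuous_subtype_val.comp ?_)
    exact AddCircle.continuous_toCircle.comp (continuous_id.add continuous_const)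
  exact h.measurable

lemma pw_smooth (i0 : Fin d) (s : AddCircle (2 * Real.pi)) : ContDiff ℝ ∞ (pw i0 s) := by
  obtain ⟨a, ha⟩ := pw_ex i0 s
  rw [ha]
  have h : ContDiff ℝ ∞ (fun y : E d => y i0) :=
    (EuclideanSpace.proj i0 : E d →L[ℝ] ℝ).contDiff
  exact Real.contDiff_cos.comp (h.add contDiff_const)

lemma pw_stat (i0 : Fin d) (x : E d) :
    (AddCircle.haarAddCircle (T := 2 * Real.pi)).map (fun s y => pw i0 s (y + x)) =
      (AddCircle.haarAddCircle (T := 2 * Real.pi)).map (fun s y => pw i0 s y) := by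
  have e : (fun (s : AddCircle (2 * Real.pi)) (y : E d) => pw i0 s (y + x)) =
      (fun s y => pw i0 s y) ∘ (fun s => s + ((x i0 : ℝ) : AddCircle (2 * Real.pi))) := by
    funext s y
    simp only [Function.comp_apply]
    unfold pw
    have : (y + x) i0 = y i0 + x i0 := rfl
    rw [this, AddCircle.coe_add, add_assoc, add_comm ((x i0 : ℝ) : AddCircle (2 * Real.pi))]
  have m1 : Measurable fun (s : AddCircle (2 * Real.pi)) (y : E d) => pw i0 s y :=
    measurable_pi_iff.2 fun y => pw_meas i0 y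
  rw [e, ← Measure.map_map m1 (measurable_add_const _), map_add_right_eq_self]

lemma pw_l2 (i0 : Fin d) : Integrable (fun s => pw i0 s 0 ^ 2)
    (AddCircle.haarAddCircle (T := 2 * Real.pi)) := by
  refine (integrable_const (1 : ℝ)).mono' ((pw_meas i0 0).pow_const 2).aestronglyMeasurable
    (ae_of_all _ fun s => ?_)
  obtain ⟨a, ha⟩ := pw_ex i0 s
  rw [ha, Real.norm_eq_abs, abs_of_nonneg (sq_nonneg _)]
  exact Real.cos_sq_le_one _

/-- the Chebyshev polynomial of the field -/
noncomputable def chQ (d m : ℕ) : MvPolynomial (List (Fin d)) ℝ :=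
  Polynomial.aeval (MvPolynomial.X []) (Polynomial.Chebyshev.T ℝ m)

lemma chQ_deg (d m : ℕ) : (chQ d m).totalDegree ≤ m := by
  unfold chQ
  rw [Polynomial.aeval_eq_sum_range]
  refine (MvPolynomial.totalDegree_finsetSum_le (d := m) fun i hi => ?_)
  refine (MvPolynomial.totalDegree_smul_le _ _).trans ?_
  rw [MvPolynomial.totalDegree_X_pow]
  have := Finset.mem_range.1 hi
  rw [Polynomial.Chebyshev.natDegree_T] at this
  simp only [Int.natAbs_natCast] at this
  omega

lemma chQ_eval (m : ℕ) (f : E d → ℝ) (y : E d) :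
    po (chQ d m) f y = (Polynomial.Chebyshev.T ℝ m).eval (f y) := by
  unfold po chQ
  have h1 := Polynomial.aeval_algHom_apply (MvPolynomial.aeval (R := ℝ) fun L => jt L f y)
    (MvPolynomial.X ([] : List (Fin d))) (Polynomial.Chebyshev.T ℝ m)
  rw [MvPolynomial.aeval_X] at h1
  have h2 : (Polynomial.aeval (jt ([] : List (Fin d)) f y)) (Polynomial.Chebyshev.T ℝ (m : ℤ)) =
      (Polynomial.Chebyshev.T ℝ m).eval (f y) := by
    rw [Polynomial.coe_aeval_eq_eval]
    rfl
  rw [h2] at h1
  rw [h1]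
  rfl

/-- each sample has exactly `m` zeros on the segment of length `π` -/
lemma pw_zeros (i0 : Fin d) {m : ℕ} (hm : 1 ≤ m) (s : AddCircle (2 * Real.pi)) :
    nz (fun t : ℝ => po (chQ d m) (pw i0 s) ((0 : E d) + t • EuclideanSpace.single i0 (1 : ℝ)))
      0 Real.pi = m := by
  obtain ⟨a, ha⟩ := pw_ex i0 s
  have e : (fun t : ℝ => po (chQ d m) (pw i0 s)
      ((0 : E d) + t • EuclideanSpace.single i0 (1 : ℝ))) =
      fun t => Real.cos (m * (t + a)) := by
    funext t
    rw [chQ_eval, ha]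
    have h1 : ((0 : E d) + t • EuclideanSpace.single i0 (1 : ℝ)) i0 = t := by simp
    simp only [h1]
    rw [Polynomial.Chebyshev.T_real_cos]
    simp
  rw [e]
  exact cos_count hm a

lemma pw_nonzero (i0 : Fin d) {m : ℕ} (s : AddCircle (2 * Real.pi)) :
    ∃ t : ℝ, po (chQ d m) (pw i0 s) ((0 : E d) + t • EuclideanSpace.single i0 (1 : ℝ)) ≠ 0 := by
  obtain ⟨a, ha⟩ := pw_ex i0 s
  refine ⟨-a, ?_⟩
  rw [chQ_eval, ha]
  have h1 : ((0 : E d) + (-a) • EuclideanSpace.single i0 (1 : ℝ)) i0 = -a := by simp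
  simp only [h1]
  rw [Polynomial.Chebyshev.T_real_cos]
  simp

end Pool.Agent.U39.SZ
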