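import Pool.Agent.U39.SZ.Z

/-!
The plane wave with a random phase: the law at a point (project SZ, helper39).
-/

set_option autoImplicit false

namespace Pool.Agent.U39.SZ

open Pool.Agent.Y139.SW MeasureTheory Filter Topology Set
open scoped ContDiff

variable {d : ℕ}

lemma haar_ball {δ : ℝ} (h0 : 0 ≤ δ) (h1 : δ ≤ Real.pi) :
    (AddCircle.haarAddCircle (T := 2 * Real.pi)).real (Metric.closedBall 0 δ) = δ / Real.pi := by
  have hp := Real.pi_pos
  have h2 := AddCircle.volume_closedBall (T := 2 * Real.pi) (x := 0) δ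
  rw [AddCircle.volume_eq_smul_haarAddCircle, Measure.smul_apply, smul_eq_mul,
    min_eq_right (by linarith)] at h2
  have h3 := congrArg ENNReal.toReal h2
  rw [ENNReal.toReal_mul, ENNReal.toReal_ofReal (by positivity),
    ENNReal.toReal_ofReal (by positivity)] at h3
  rw [eq_div_iff hp.ne']
  show (AddCircle.haarAddCircle (Metric.closedBall 0 δ)).toReal * Real.pi = δ
  linarith

lemma pw_law (i0 : Fin d) {ε : ℝ} (h0 : 0 < ε) (h1 : ε ≤ 1) :
    √(2 * ε) / Real.pi ≤ (AddCircle.haarAddCircle (T := 2 * Real.pi)).real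
      {s | pw i0 s 0 ∈ Icc (1 - ε) 1} := by
  have hp := Real.pi_pos
  have hd : √(2 * ε) ≤ Real.pi := by
    refine (Real.sqrt_le_sqrt (by linarith : 2 * ε ≤ 2 ^ 2)).trans ?_
    rw [Real.sqrt_sq (by norm_num)]
    exact Real.two_le_pi
  rw [← haar_ball (Real.sqrt_nonneg _) hd]
  refine measureReal_mono fun s hs => ?_
  obtain ⟨a, ha, rfl⟩ : ∃ a ∈ Ioc (-Real.pi) (-Real.pi + 2 * Real.pi),
      ((a : ℝ) : AddCircle (2 * Real.pi)) = s := by
    have h2 := AddCircle.coe_image_Ioc_eq (2 * Real.pi) (-Real.pi)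
    have h3 : s ∈ (univ : Set (AddCircle (2 * Real.pi))) := mem_univ s
    rw [← h2] at h3
    exact h3
  rw [mem_closedBall_zero_iff] at hs
  have hn : ‖((a : ℝ) : AddCircle (2 * Real.pi))‖ = |a| := by
    rw [AddCircle.norm_coe_eq_abs_iff _ (by positivity)]
    have e2 : |2 * Real.pi| = 2 * Real.pi := abs_of_pos (by positivity)
    rw [e2, abs_le]
    constructor <;> linarith [ha.1, ha.2]
  rw [hn] at hs
  show pw i0 (a : AddCircle (2 * Real.pi)) 0 ∈ Icc (1 - ε) 1
  rw [pw_mk]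
  have e : ((0 : E d) i0 : ℝ) = 0 := rfl
  rw [e, zero_add]
  refine ⟨?_, Real.cos_le_one a⟩
  have h4 := Real.one_sub_sq_div_two_le_cos (x := a)
  have h5 : a ^ 2 ≤ 2 * ε := by
    rw [← sq_abs]
    calc |a| ^ 2 ≤ √(2 * ε) ^ 2 := by gcongr
      _ = 2 * ε := Real.sq_sqrt (by positivity)
  linarith

end Pool.Agent.U39.SZ
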