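import Pool.Agent.U39.SZ.Q

/-!
Counting zeros of random functions on the line (project SZ, helper39).
-/

set_option autoImplicit false

namespace Pool.Agent.U39.SZ

open MeasureTheory Filter Topology Set

variable {S : Type*} [MeasurableSpace S]

/-- there is a zero in `[a, b)` -/
def hz (F : S → ℝ → ℝ) (a b : ℝ) : Set S := {s | ∃ t ∈ Ico a b, F s t = 0}

lemma meas_hzc {F : S → ℝ → ℝ} (hm : ∀ t, Measurable fun s => F s t)
    (hc : ∀ s, Continuous (F s)) (a b : ℝ) : MeasurableSet {s | ∃ t ∈ Icc a b, F s t = 0} := by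
  rcases lt_or_ge b a with hab | hab
  · have : {s | ∃ t ∈ Icc a b, F s t = 0} = ∅ := by
      ext s
      simp only [mem_setOf_eq, mem_empty_iff_false, iff_false, not_exists, not_and]
      intro t ht
      exact absurd (ht.1.trans ht.2) (not_le.2 hab)
    rw [this]
    exact MeasurableSet.empty
  obtain ⟨D, hD1, hD2⟩ := TopologicalSpace.exists_countable_dense (Icc a b)
  have e : {s | ∃ t ∈ Icc a b, F s t = 0} =
      ⋂ k : ℕ, ⋃ d ∈ D, {s | |F s (d : Icc a b)| < 1 / ((k : ℝ) + 1)} := by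
    ext s
    simp only [mem_setOf_eq, mem_iInter, mem_iUnion, exists_prop]
    constructor
    · rintro ⟨t, ht, h0⟩ k
      have ho : IsOpen {x : Icc a b | |F s x| < 1 / ((k : ℝ) + 1)} :=
        isOpen_lt ((hc s).comp continuous_subtype_val).abs continuous_const
      obtain ⟨x, hx1, hx2⟩ := hD2.exists_mem_open ho ⟨⟨t, ht⟩, by
        show |F s t| < _
        rw [h0, abs_zero]; positivity⟩
      exact ⟨x, hx1, hx2⟩
    · intro h
      obtain ⟨t, ht, hmin⟩ := isCompact_Icc.exists_isMinOn (nonempty_Icc.2 hab)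
        ((hc s).abs.continuousOn (s := Icc a b))
      by_contra hcon
      have hne : 0 < |F s t| := abs_pos.2 fun h0 => hcon ⟨t, ht, h0⟩
      obtain ⟨k, hk⟩ := exists_nat_one_div_lt hne
      obtain ⟨d, _, hd⟩ := h k
      have := hmin d.2
      simp only [mem_setOf_eq] at this
      linarith
  rw [e]
  refine MeasurableSet.iInter fun k => MeasurableSet.biUnion hD1 fun d _ => ?_
  exact measurableSet_lt (hm _).abs measurable_const

lemma meas_hz {F : S → ℝ → ℝ} (hm : ∀ t, Measurable fun s => F s t)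
    (hc : ∀ s, Continuous (F s)) (a b : ℝ) : MeasurableSet (hz F a b) := by
  have e : hz F a b = ⋃ k : ℕ, {s | ∃ t ∈ Icc a (b - 1 / ((k : ℝ) + 1)), F s t = 0} := by
    ext s
    simp only [hz, mem_setOf_eq, mem_iUnion]
    constructor
    · rintro ⟨t, ht, h0⟩
      obtain ⟨k, hk⟩ := exists_nat_one_div_lt (sub_pos.2 ht.2)
      exact ⟨k, t, ⟨ht.1, by linarith⟩, h0⟩
    · rintro ⟨k, t, ht, h0⟩
      have : (0 : ℝ) < 1 / ((k : ℝ) + 1) := by positivity
      exact ⟨t, ⟨ht.1, by linarith [ht.2]⟩, h0⟩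
  rw [e]
  exact MeasurableSet.iUnion fun k => meas_hzc hm hc _ _

/-- the number of cells `[i / M, (i + 1) / M)`, `i < M`, which contain a zero -/
noncomputable def cn (M : ℕ) (F : S → ℝ → ℝ) (s : S) : ℝ :=
  ∑ i ∈ Finset.range M, (hz F ((i : ℝ) / M) (((i : ℝ) + 1) / M)).indicator (fun _ => (1 : ℝ)) s

lemma cn_meas {F : S → ℝ → ℝ} (hm : ∀ t, Measurable fun s => F s t)
    (hc : ∀ s, Continuous (F s)) (M : ℕ) : Measurable (cn M F) := by
  unfold cn
  refine Finset.measurable_fun_sum _ fun i _ => ?_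
  exact measurable_const.indicator (meas_hz hm hc _ _)

lemma cn_nonneg (M : ℕ) (F : S → ℝ → ℝ) (s : S) : 0 ≤ cn M F s :=
  Finset.sum_nonneg fun _ _ => indicator_nonneg (fun _ _ => zero_le_one) _

lemma cn_le (M : ℕ) (F : S → ℝ → ℝ) (s : S) : cn M F s ≤ M := by
  unfold cn
  refine (Finset.sum_le_sum (g := fun _ => (1 : ℝ)) fun i _ => ?_).trans (by simp)
  exact indicator_le_self' (fun _ _ => zero_le_one) s

/-- the zeros in `[0, 1)` -/
def zs (f : ℝ → ℝ) : Set ℝ := {t | t ∈ Ico (0 : ℝ) 1 ∧ f t = 0}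

lemma encard_le_of_finset {α : Type*} {N : Set α} {c : ENNReal}
    (h : ∀ F : Finset α, (F : Set α) ⊆ N → (F.card : ENNReal) ≤ c) : (N.encard : ENNReal) ≤ c := by
  rcases N.finite_or_infinite with hN | hN
  · have h1 := h hN.toFinset (by simp)
    rw [hN.encard_eq_coe_toFinset_card]
    simpa using h1
  · rw [hN.encard_eq]
    simp only [ENat.toENNReal_top, top_le_iff]
    by_contra hc
    obtain ⟨n, hn⟩ := ENNReal.exists_nat_gt hc
    obtain ⟨F, hF1, hF2⟩ := hN.exists_subset_card_eq n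
    have := h F hF1
    rw [hF2] at this
    exact absurd (lt_of_lt_of_le hn this) (lt_irrefl _)

lemma cn_card (M : ℕ) (F : S → ℝ → ℝ) (s : S) : ∃ J : Finset ℕ, J ⊆ Finset.range M ∧
    (∀ i, i ∈ J ↔ i < M ∧ s ∈ hz F ((i : ℝ) / M) (((i : ℝ) + 1) / M)) ∧ cn M F s = J.card := by
  classical
  refine ⟨(Finset.range M).filter fun i : ℕ => s ∈ hz F ((i : ℝ) / M) (((i : ℝ) + 1) / M),
    Finset.filter_subset _ _, fun i => by simp, ?_⟩
  unfold cn
  rw [Finset.card_filter]
  push_cast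
  refine Finset.sum_congr rfl fun i _ => ?_
  simp [indicator_apply]

lemma cell_iff {M : ℕ} (hM : 0 < M) {t : ℝ} (ht : 0 ≤ t) (i : ℕ) :
    t ∈ Ico ((i : ℝ) / M) (((i : ℝ) + 1) / M) ↔ ⌊(M : ℝ) * t⌋₊ = i := by
  have hp : (0 : ℝ) < M := by exact_mod_cast hM
  rw [Nat.floor_eq_iff (by positivity), mem_Ico, div_le_iff₀ hp, lt_div_iff₀ hp, mul_comm t]

/-- the number of cells is at most the number of zeros -/
lemma cn_le_encard {M : ℕ} (hM : 0 < M) (F : S → ℝ → ℝ) (s : S) :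
    ENNReal.ofReal (cn M F s) ≤ ((zs (F s)).encard : ENNReal) := by
  obtain ⟨J, hJ1, hJ2, hJ3⟩ := cn_card M F s
  have hp : (0 : ℝ) < M := by exact_mod_cast hM
  have hch : ∀ i : ℕ, ∃ t : ℝ, i ∈ J → t ∈ Ico ((i : ℝ) / M) (((i : ℝ) + 1) / M) ∧ F s t = 0 := by
    intro i
    by_cases hi : i ∈ J
    · obtain ⟨t, ht, h0⟩ := ((hJ2 i).1 hi).2
      exact ⟨t, fun _ => ⟨ht, h0⟩⟩
    · exact ⟨0, fun h => absurd h hi⟩
  choose t ht using hch
  have t0 : ∀ i ∈ J, 0 ≤ t i := fun i hi => le_trans (by positivity) (ht i hi).1.1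
  have inj : Set.InjOn t (J : Set ℕ) := by
    intro i hi j hj hij
    have h1 := (cell_iff hM (t0 i hi) i).1 (ht i hi).1
    have h2 := (cell_iff hM (t0 j hj) j).1 (ht j hj).1
    rw [← h1, ← h2, hij]
  have h1 : (J.card : ℕ∞) ≤ (zs (F s)).encard := by
    rw [← Set.encard_coe_eq_coe_finsetCard, ← inj.encard_image]
    refine Set.encard_le_encard ?_
    rintro _ ⟨i, hi, rfl⟩
    refine ⟨⟨t0 i hi, (ht i hi).1.2.trans_le ?_⟩, (ht i hi).2⟩
    rw [div_le_one hp]
    have := ((hJ2 i).1 hi).1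
    exact_mod_cast this
  rw [hJ3, ENNReal.ofReal_natCast]
  exact_mod_cast h1

/-- the number of zeros is at most the lower limit of the numbers of cells -/
lemma encard_le (F : S → ℝ → ℝ) (s : S) :
    ((zs (F s)).encard : ENNReal) ≤
      liminf (fun M : ℕ => ENNReal.ofReal (cn (M + 1) F s)) atTop := by
  refine encard_le_of_finset fun T hT => ?_
  refine le_liminf_of_le (by isBoundedDefault) ?_
  obtain ⟨δ, hδ, hsep⟩ : ∃ δ : ℝ, 0 < δ ∧ ∀ x ∈ T, ∀ y ∈ T, x ≠ y → δ ≤ |x - y| := by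
    rcases (T.offDiag).eq_empty_or_nonempty with h | h
    · refine ⟨1, one_pos, fun x hx y hy hxy => ?_⟩
      have : (x, y) ∈ T.offDiag := Finset.mem_offDiag.2 ⟨hx, hy, hxy⟩
      rw [h] at this
      simp at this
    · obtain ⟨p, hp, hmin⟩ := T.offDiag.exists_min_image (fun p => |p.1 - p.2|) h
      have := Finset.mem_offDiag.1 hp
      exact ⟨|p.1 - p.2|, abs_pos.2 (sub_ne_zero.2 this.2.2), fun x hx y hy hxy =>
        hmin (x, y) (Finset.mem_offDiag.2 ⟨hx, hy, hxy⟩)⟩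
  obtain ⟨M0, hM0⟩ := exists_nat_gt (1 / δ)
  filter_upwards [eventually_ge_atTop M0] with M hM
  obtain ⟨J, hJ1, hJ2, hJ3⟩ := cn_card (M + 1) F s
  have hp : (0 : ℝ) < ((M + 1 : ℕ) : ℝ) := by exact_mod_cast Nat.succ_pos M
  have hMd : 1 < δ * ((M + 1 : ℕ) : ℝ) := by
    have h1 : 1 / δ < ((M + 1 : ℕ) : ℝ) := by
      have : (M0 : ℝ) ≤ M := by exact_mod_cast hM
      push_cast
      linarith
    rw [div_lt_iff₀ hδ] at h1
    linarith
  rw [hJ3, ENNReal.ofReal_natCast]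
  have h2 : T.card ≤ J.card := by
    refine Finset.card_le_card_of_injOn (fun t => ⌊((M + 1 : ℕ) : ℝ) * t⌋₊) (fun t ht => ?_) ?_
    · have h3 := hT ht
      have h4 := (cell_iff (Nat.succ_pos M) h3.1.1 _).2 rfl
      refine (hJ2 _).2 ⟨?_, t, h4, h3.2⟩
      rw [Nat.floor_lt (mul_nonneg hp.le h3.1.1)]
      have := mul_lt_mul_of_pos_left h3.1.2 hp
      linarith
    · intro x hx y hy hxy
      simp only at hxy
      by_contra hne
      have h5 := hsep x hx y hy hne
      have hx' := (cell_iff (Nat.succ_pos M) (hT hx).1.1 _).2 rfl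
      have hy' := (cell_iff (Nat.succ_pos M) (hT hy).1.1 _).2 hxy.symm
      have h6 : |x - y| < 1 / ((M + 1 : ℕ) : ℝ) := by
        rw [abs_lt]
        have e : ∀ n : ℕ, ((n : ℝ) + 1) / ((M + 1 : ℕ) : ℝ) =
            (n : ℝ) / ((M + 1 : ℕ) : ℝ) + 1 / ((M + 1 : ℕ) : ℝ) := fun n => by rw [add_div]
        rw [e] at hx' hy'
        constructor <;> linarith [hx'.1, hx'.2, hy'.1, hy'.2]
      rw [lt_div_iff₀ hp] at h6
      nlinarith
  exact_mod_cast h2

lemma zs_meas {F : S → ℝ → ℝ} (hm : ∀ t, Measurable fun s => F s t)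
    (hc : ∀ s, Continuous (F s)) : Measurable fun s => ((zs (F s)).encard : ENNReal) := by
  have e : (fun s => ((zs (F s)).encard : ENNReal)) = fun s =>
      liminf (fun M : ℕ => ENNReal.ofReal (cn (M + 1) F s)) atTop := by
    funext s
    refine le_antisymm (encard_le F s) ?_
    refine liminf_le_of_le (by isBoundedDefault) fun b hb => ?_
    obtain ⟨M, hM⟩ := hb.exists
    exact hM.trans (cn_le_encard (Nat.succ_pos M) F s)
  rw [e]
  exact Measurable.liminf fun M => (cn_meas hm hc _).ennreal_ofReal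

end Pool.Agent.U39.SZ
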