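import Pool.Agent.U39.SZ.K

/-!
Derivatives of polynomials in a stationary system (project SZ, helper39).
-/

set_option autoImplicit false

namespace Pool.Agent.U39.SZ

open Pool.Agent.H159R3.NV MeasureTheory Filter Topology Set

lemma deg_pderiv {σ : Type*} (p : MvPolynomial σ ℝ) (i : σ) :
    (MvPolynomial.pderiv i p).totalDegree ≤ p.totalDegree - 1 := by
  classical
  conv_lhs => rw [p.as_sum, map_sum]
  refine MvPolynomial.totalDegree_finsetSum_le fun c hc => ?_
  rw [MvPolynomial.pderiv_monomial]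
  by_cases h0 : c i = 0
  · rw [h0]
    simp
  · refine (MvPolynomial.totalDegree_monomial_le _ _).trans ?_
    have h1 : (c.sum fun _ e => e) ≤ p.totalDegree := MvPolynomial.le_totalDegree hc
    have h2 : c = (c - Finsupp.single i 1) + Finsupp.single i 1 := by
      ext j
      simp only [Finsupp.add_apply, Finsupp.tsub_apply, Finsupp.single_apply]
      split_ifs with h
      · subst h; omega
      · omega
    have h3 : (c.sum fun _ e => e) = ((c - Finsupp.single i 1).sum fun _ e => e) + 1 := by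
      conv_lhs => rw [h2]
      rw [Finsupp.sum_add_index' (fun _ => rfl) (fun _ _ _ => rfl), Finsupp.sum_single_index rfl]
    have h4 : ((c - Finsupp.single i 1).sum fun _ e => e) ≤ p.totalDegree - 1 := by omega
    exact h4

variable {S : Type*} [MeasurableSpace S] {P : Measure S} {ι : Type*} [Fintype ι]
variable {θ : ℝ → S → S} {u : ι → ℕ → S → ℝ → ℝ} {b : ℝ}

/-- the system with the derivatives -/
def up (u : ι → ℕ → S → ℝ → ℝ) (p : ι × Bool) (n : ℕ) : S → ℝ → ℝ :=
  u p.1 (n + if p.2 then 1 else 0)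

lemma Sys.up (h : Sys P θ u b) : Sys P θ (up u) (2 * b) := by
  refine ⟨h.mp, fun j n t => h.meas _ _ t, fun j n s t => ?_, fun j n a s t => h.cov _ _ a s t,
    by linarith [h.b0], fun n t => ?_⟩
  · have h1 := h.der j.1 (n + if j.2 then 1 else 0) s t
    unfold Pool.Agent.U39.SZ.up
    have e : n + 1 + (if j.2 then 1 else 0) = n + (if j.2 then 1 else 0) + 1 := by omega
    rw [e]
    exact h1
  · have e : ∀ s, ∑ j, ENNReal.ofReal (Pool.Agent.U39.SZ.up u j n s t ^ 2) =
        (∑ j, ENNReal.ofReal (u j (n + 1) s t ^ 2)) + ∑ j, ENNReal.ofReal (u j n s t ^ 2) := by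
      intro s
      rw [Fintype.sum_prod_type]
      simp only [Fintype.sum_bool]
      rw [Finset.sum_add_distrib]
      rfl
    simp only [e]
    rw [lintegral_add_right _ (Finset.measurable_fun_sum _ fun j _ =>
      ((h.meas j n t).pow_const 2).ennreal_ofReal), two_mul, ENNReal.ofReal_add h.b0 h.b0]
    exact add_le_add (h.bd (n + 1) t) (h.bd n t)

/-- the derivative of a polynomial -/
noncomputable def dQ (Q : MvPolynomial ι ℝ) : MvPolynomial (ι × Bool) ℝ :=
  ∑ j, MvPolynomial.X (j, true) *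
    MvPolynomial.rename (fun i => (i, false)) (MvPolynomial.pderiv j Q)

lemma dQ_deg {Q : MvPolynomial ι ℝ} {m : ℕ} (hm : 1 ≤ m) (hQ : Q.totalDegree ≤ m) :
    (dQ Q).totalDegree ≤ m := by
  unfold dQ
  refine MvPolynomial.totalDegree_finsetSum_le fun j _ => ?_
  refine (MvPolynomial.totalDegree_mul _ _).trans ?_
  have h1 : (MvPolynomial.rename (fun i => (i, false)) (MvPolynomial.pderiv j Q) :
      MvPolynomial (ι × Bool) ℝ).totalDegree ≤ Q.totalDegree - 1 :=
    (MvPolynomial.totalDegree_rename_le _ _).trans (deg_pderiv Q j)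
  rw [MvPolynomial.totalDegree_X]
  omega

lemma dQ_eval (Q : MvPolynomial ι ℝ) (s : S) (t : ℝ) : hF (up u) (dQ Q) s t =
    ∑ j, u j 1 s t * MvPolynomial.eval (fun i => u i 0 s t) (MvPolynomial.pderiv j Q) := by
  unfold hF dQ
  rw [map_sum]
  refine Finset.sum_congr rfl fun j _ => ?_
  rw [map_mul, MvPolynomial.eval_X, MvPolynomial.eval_rename]
  rfl

lemma dQ_der (h : Sys P θ u b) (Q : MvPolynomial ι ℝ) (s : S) (t : ℝ) :
    HasDerivAt (hF u Q s) (hF (up u) (dQ Q) s t) t := by
  classical
  rw [dQ_eval]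
  induction Q using MvPolynomial.induction_on with
  | C a =>
    have e : hF u (MvPolynomial.C a) s = fun _ => a := by
      funext t
      unfold hF
      simp
    rw [e]
    simp only [MvPolynomial.pderiv_C, map_zero, mul_zero, Finset.sum_const_zero]
    exact hasDerivAt_const t a
  | add p q hp hq =>
    have e : hF u (p + q) s = fun t => hF u p s t + hF u q s t := by
      funext t
      unfold hF
      simp
    rw [e]
    have h1 := hp.add hq
    refine h1.congr_deriv ?_
    simp only [map_add, mul_add]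
    rw [Finset.sum_add_distrib]
  | mul_X p i hp =>
    have e : hF u (p * MvPolynomial.X i) s = fun t => hF u p s t * u i 0 s t := by
      funext t
      unfold hF
      simp
    rw [e]
    have h1 := hp.mul (h.der i 0 s t)
    refine h1.congr_deriv ?_
    simp only [MvPolynomial.pderiv_mul, map_add, map_mul, MvPolynomial.eval_X, mul_add]
    rw [Finset.sum_add_distrib, Finset.sum_mul]
    congr 1
    · exact Finset.sum_congr rfl fun j _ => by ring
    · have h2 : ∀ j, u j 1 s t * ((MvPolynomial.eval fun i => u i 0 s t) p *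
          (MvPolynomial.eval fun i => u i 0 s t) ((MvPolynomial.pderiv j) (MvPolynomial.X i))) =
          if j = i then hF u p s t * u i 1 s t else 0 := by
        intro j
        rw [MvPolynomial.pderiv_X]
        by_cases hji : j = i
        · subst hji
          simp only [Pi.single_eq_same, map_one, mul_one, if_true]
          unfold hF
          ring
        · have : (Pi.single j 1 : ι → MvPolynomial ι ℝ) i = 0 :=
            Pi.single_eq_of_ne (fun h => hji h.symm) _
          rw [this]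
          simp [hji]
      simp only [h2]
      simp

lemma deriv_hF (h : Sys P θ u b) (Q : MvPolynomial ι ℝ) (s : S) :
    deriv (hF u Q s) = hF (up u) (dQ Q) s := funext fun t => (dQ_der h Q s t).deriv

/-- the first derivative -/
lemma poly1 [IsProbabilityMeasure P] (h : Sys P θ u b) {Q : MvPolynomial ι ℝ} {m : ℕ}
    (hm : 1 ≤ m) (hQ : Q.totalDegree ≤ m) {A : Set ℝ} (mA : MeasurableSet A) :
    ∫⁻ s in {s | hF u Q s 0 ∈ A}, ENNReal.ofReal |deriv (hF u Q s) 0| ∂P ≤
      ENNReal.ofReal (m / Real.pi) * volume A := by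
  refine jet_bound h hm hQ ?_ (fun s => ?_) mA
  · simp only [deriv_hF h]
    exact hF_meas h.up _ _
  · rw [deriv_hF h]
    exact dQ_der h Q s 0

/-- the second derivative -/
lemma poly2 [IsProbabilityMeasure P] (h : Sys P θ u b) {Q : MvPolynomial ι ℝ} {m : ℕ}
    (hm : 1 ≤ m) (hQ : Q.totalDegree ≤ m) {A : Set ℝ} (mA : MeasurableSet A) :
    ∫⁻ s in {s | deriv (hF u Q s) 0 ∈ A}, ENNReal.ofReal |deriv (deriv (hF u Q s)) 0| ∂P ≤
      ENNReal.ofReal (m / Real.pi) * volume A := by
  simp only [deriv_hF h]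
  exact poly1 h.up hm (dQ_deg hm hQ) mA

/-- the probabilistic argument -/
lemma gen_law [IsProbabilityMeasure P] {κ : Type*} [Fintype κ] {H : S → ℝ} {D1 D2 : κ → S → ℝ}
    (mH : Measurable H) (m1 : ∀ k, Measurable (D1 k)) (m2 : ∀ k, Measurable (D2 k)) {C : ℝ}
    (hC : 0 ≤ C) (h1 : ∀ k (A : Set ℝ), MeasurableSet A →
      ∫⁻ s in {s | H s ∈ A}, ENNReal.ofReal |D1 k s| ∂P ≤ ENNReal.ofReal (C / Real.pi) * volume A)
    (h2 : ∀ k (A : Set ℝ), MeasurableSet A →
      ∫⁻ s in {s | D1 k s ∈ A}, ENNReal.ofReal |D2 k s| ∂P ≤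
        ENNReal.ofReal (C / Real.pi) * volume A)
    {A : Set ℝ} (mA : MeasurableSet A) (fA : volume A ≠ ⊤) {c η : ℝ} (hc : 0 < c) (hη : 0 < η) :
    P.real {s | H s ∈ A ∧ c ≤ ∑ k, |D2 k s|} ≤
      C * Fintype.card κ * volume.real A / (Real.pi * η) +
        2 * (C * Fintype.card κ) * η / (Real.pi * c) := by
  have hp := Real.pi_pos
  -- the first part
  have p1 : ∀ k, P.real {s | H s ∈ A ∧ η ≤ |D1 k s|} ≤ C * volume.real A / (Real.pi * η) := by
    intro k
    have mE : MeasurableSet {s | η ≤ |D1 k s|} := measurableSet_le measurable_const (m1 k).abs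
    have h3 : ENNReal.ofReal η * P {s | H s ∈ A ∧ η ≤ |D1 k s|} ≤
        ENNReal.ofReal (C / Real.pi) * volume A := by
      calc _ = ∫⁻ s in {s | H s ∈ A} ∩ {s | η ≤ |D1 k s|}, ENNReal.ofReal η ∂P := by
            rw [lintegral_const, Measure.restrict_apply_univ]
            rfl
        _ ≤ ∫⁻ s in {s | H s ∈ A} ∩ {s | η ≤ |D1 k s|}, ENNReal.ofReal |D1 k s| ∂P := by
            refine setLIntegral_mono' ((mH mA).inter mE) fun s hs => ?_
            exact ENNReal.ofReal_le_ofReal hs.2
        _ ≤ ∫⁻ s in {s | H s ∈ A}, ENNReal.ofReal |D1 k s| ∂P :=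
            lintegral_mono_set inter_subset_left
        _ ≤ _ := h1 k A mA
    have h4 := ENNReal.toReal_mono (ENNReal.mul_ne_top ENNReal.ofReal_ne_top fA) h3
    rw [ENNReal.toReal_mul, ENNReal.toReal_mul, ENNReal.toReal_ofReal hη.le,
      ENNReal.toReal_ofReal (by positivity)] at h4
    rw [le_div_iff₀ (by positivity)]
    have h5 : P.real {s | H s ∈ A ∧ η ≤ |D1 k s|} * (Real.pi * η) =
        Real.pi * (η * (P {s | H s ∈ A ∧ η ≤ |D1 k s|}).toReal) := by
      show (P {s | H s ∈ A ∧ η ≤ |D1 k s|}).toReal * (Real.pi * η) = _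
      ring
    rw [h5]
    calc _ ≤ Real.pi * (C / Real.pi * (volume A).toReal) := by gcongr
      _ = _ := by
        show _ = C * (volume A).toReal
        field_simp
  -- the second part
  have p2 : P.real {s | (∀ k, |D1 k s| < η) ∧ c ≤ ∑ k, |D2 k s|} ≤
      2 * (C * Fintype.card κ) * η / (Real.pi * c) := by
    obtain ⟨B, hB⟩ : ∃ B, B = {s | (∀ k, |D1 k s| < η) ∧ c ≤ ∑ k, |D2 k s|} := ⟨_, rfl⟩
    have mB : MeasurableSet B := by
      have e1 : B = (⋂ k, {s | |D1 k s| < η}) ∩ {s | c ≤ ∑ k, |D2 k s|} := by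
        rw [hB]
        ext s
        simp
      rw [e1]
      refine MeasurableSet.inter ?_ ?_
      · exact MeasurableSet.iInter fun k => measurableSet_lt (m1 k).abs measurable_const
      · exact measurableSet_le measurable_const
          (Finset.measurable_fun_sum _ fun k _ => (m2 k).abs)
    have h3 : ∀ k, ∫⁻ s in B, ENNReal.ofReal |D2 k s| ∂P ≤
        ENNReal.ofReal (C * (2 * η) / Real.pi) := by
      intro k
      have h4 := h2 k (Ioo (-η) η) measurableSet_Ioo
      refine (lintegral_mono_set (fun s hs => ?_)).trans (h4.trans (le_of_eq ?_))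
      · rw [hB] at hs
        exact abs_lt.1 (hs.1 k)
      · rw [Real.volume_Ioo, ← ENNReal.ofReal_mul (by positivity)]
        congr 1
        ring
    have h4 : ENNReal.ofReal c * P B ≤
        ENNReal.ofReal (Fintype.card κ * (C * (2 * η) / Real.pi)) := by
      calc _ = ∫⁻ s in B, ENNReal.ofReal c ∂P := by
            rw [lintegral_const, Measure.restrict_apply_univ]
        _ ≤ ∫⁻ s in B, ∑ k, ENNReal.ofReal |D2 k s| ∂P := by
            refine setLIntegral_mono' mB fun s hs => ?_
            rw [← ENNReal.ofReal_sum_of_nonneg fun i _ => abs_nonneg _]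
            rw [hB] at hs
            exact ENNReal.ofReal_le_ofReal hs.2
        _ = ∑ k, ∫⁻ s in B, ENNReal.ofReal |D2 k s| ∂P :=
            lintegral_finsetSum _ fun k _ => (m2 k).abs.ennreal_ofReal
        _ ≤ ∑ _k : κ, ENNReal.ofReal (C * (2 * η) / Real.pi) := Finset.sum_le_sum fun k _ => h3 k
        _ = _ := by
            rw [Finset.sum_const, Finset.card_univ, nsmul_eq_mul,
              ENNReal.ofReal_mul (Nat.cast_nonneg _), ENNReal.ofReal_natCast]
    have h5 := ENNReal.toReal_mono ENNReal.ofReal_ne_top h4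
    rw [ENNReal.toReal_mul, ENNReal.toReal_ofReal hc.le,
      ENNReal.toReal_ofReal (by positivity)] at h5
    rw [← hB, le_div_iff₀ (by positivity)]
    show (P B).toReal * (Real.pi * c) ≤ _
    calc (P B).toReal * (Real.pi * c) = Real.pi * (c * (P B).toReal) := by ring
      _ ≤ Real.pi * (Fintype.card κ * (C * (2 * η) / Real.pi)) := by gcongr
      _ = _ := by field_simp
  have sub : {s | H s ∈ A ∧ c ≤ ∑ k, |D2 k s|} ⊆
      (⋃ k ∈ (Finset.univ : Finset κ), {s | H s ∈ A ∧ η ≤ |D1 k s|}) ∪
        {s | (∀ k, |D1 k s| < η) ∧ c ≤ ∑ k, |D2 k s|} := by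
    rintro s ⟨h3, h4⟩
    by_cases h : ∃ k, η ≤ |D1 k s|
    · obtain ⟨k, hk⟩ := h
      left
      simp only [mem_iUnion]
      exact ⟨k, Finset.mem_univ k, h3, hk⟩
    · right
      push Not at h
      exact ⟨h, h4⟩
  calc _ ≤ P.real ((⋃ k ∈ (Finset.univ : Finset κ), {s | H s ∈ A ∧ η ≤ |D1 k s|}) ∪
        {s | (∀ k, |D1 k s| < η) ∧ c ≤ ∑ k, |D2 k s|}) := measureReal_mono sub
    _ ≤ P.real (⋃ k ∈ (Finset.univ : Finset κ), {s | H s ∈ A ∧ η ≤ |D1 k s|}) +
        P.real {s | (∀ k, |D1 k s| < η) ∧ c ≤ ∑ k, |D2 k s|} := measureReal_union_le _ _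
    _ ≤ ∑ k, P.real {s | H s ∈ A ∧ η ≤ |D1 k s|} +
          2 * (C * Fintype.card κ) * η / (Real.pi * c) :=
        add_le_add (measureReal_biUnion_finset_le _ _) p2
    _ ≤ ∑ _k : κ, C * volume.real A / (Real.pi * η) +
          2 * (C * Fintype.card κ) * η / (Real.pi * c) := by
        gcongr with k _
        exact p1 k
    _ = _ := by
        rw [Finset.sum_const, Finset.card_univ, nsmul_eq_mul]
        ring

end Pool.Agent.U39.SZ
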