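import Mathlib

/-!
Entire extensions of smooth functions on the line with small derivatives (project SZ, helper39).
-/

set_option autoImplicit false

namespace Pool.Agent.U39.SZ

open Filter Topology Set Nat

/-- `a n` is the `n`-th derivative of `a 0`, and on every interval the derivatives grow slowly -/
structure Good (a : ℕ → ℝ → ℝ) : Prop where
  der : ∀ n x, HasDerivAt (a n) (a (n + 1) x) x
  bd : ∀ r k : ℕ, ∃ M : ℕ → ℝ, (∀ n x, |x| ≤ (r : ℝ) → |a (n + k) x| ≤ M n) ∧
    Summable fun n => M n * (r : ℝ) ^ n / n !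

lemma Good.shift {a : ℕ → ℝ → ℝ} (h : Good a) (k : ℕ) : Good fun n => a (n + k) := by
  refine ⟨fun n x => ?_, fun r l => ?_⟩
  · have := h.der (n + k) x
    rwa [show n + k + 1 = n + 1 + k by ring] at this
  · obtain ⟨M, h1, h2⟩ := h.bd r (l + k)
    exact ⟨M, fun n x hx => by
      have := h1 n x hx
      rwa [show n + (l + k) = n + l + k by ring] at this, h2⟩

/-- Taylor estimate on the right -/
lemma tay_fin (K : ℕ) {e : ℕ → ℝ → ℝ} (h : ∀ n x, HasDerivAt (e n) (e (n + 1) x) x)
    (h0 : ∀ n < K, e n 0 = 0) {r C : ℝ} (hM : ∀ x, 0 ≤ x → x ≤ r → |e K x| ≤ C) :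
    ∀ k ≤ K, ∀ x, 0 ≤ x → x ≤ r → |e (K - k) x| ≤ C * (x ^ k / k !) := by
  intro k
  induction k with
  | zero => intro _ x h1 h2; simpa using hM x h1 h2
  | succ k ih =>
    intro hk x hx hxr
    obtain ⟨n, hn⟩ : ∃ n, K = n + (k + 1) := ⟨K - (k + 1), by omega⟩
    have hn1 : K - (k + 1) = n := by omega
    have hn2 : K - k = n + 1 := by omega
    have key := image_norm_le_of_norm_deriv_right_le_deriv_boundary (a := 0) (b := x)
      (f := e n) (f' := fun t => e (n + 1) t)
      (B := fun t => C * (t ^ (k + 1) / (k + 1) !))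
      (B' := fun t => C * (t ^ k / k !))
      (fun t _ => (h n t).continuousAt.continuousWithinAt)
      (fun t _ => (h n t).hasDerivWithinAt)
      (by simp [h0 n (by omega)])
      (fun t => by
        have h3 : HasDerivAt (fun t : ℝ => t ^ (k + 1)) (((k + 1 : ℕ) : ℝ) * t ^ k) t := by
          simpa using hasDerivAt_pow (k + 1) t
        have h4 := (h3.div_const ((k + 1) ! : ℝ)).const_mul C
        refine h4.congr_deriv ?_
        rw [Nat.factorial_succ]
        push_cast
        field_simp)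
      (fun t ht => by
        rw [Real.norm_eq_abs]
        have := ih (by omega) t ht.1 (ht.2.le.trans hxr)
        rwa [hn2] at this)
    have := key ⟨hx, le_refl x⟩
    rw [hn1]
    rwa [Real.norm_eq_abs] at this

/-- Taylor's theorem with the Lagrange bound -/
lemma taylor_bd {a : ℕ → ℝ → ℝ} (h : ∀ n x, HasDerivAt (a n) (a (n + 1) x) x) (K : ℕ) {r C : ℝ}
    (hM : ∀ x, |x| ≤ r → |a K x| ≤ C) {x : ℝ} (hx : |x| ≤ r) :
    |a 0 x - ∑ k ∈ Finset.range K, a k 0 * x ^ k / k !| ≤ C * (|x| ^ K / K !) := by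
  set p : ℕ → ℝ → ℝ := fun m y => ∑ k ∈ Finset.range (K - m), a (k + m) 0 * y ^ k / k ! with hp
  have hpd : ∀ m y, HasDerivAt (p m) (p (m + 1) y) y := by
    intro m y
    rcases Nat.lt_or_ge m K with hm | hm
    · obtain ⟨l, hl⟩ : ∃ l, K - m = l + 1 := ⟨K - m - 1, by omega⟩
      have hl' : K - (m + 1) = l := by omega
      have e1 : p m = fun y => ∑ k ∈ Finset.range l, a (k + 1 + m) 0 * y ^ (k + 1) / (k + 1) ! +
          a m 0 := by
        funext y
        simp only [hp, hl]
        rw [Finset.sum_range_succ']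
        simp
      rw [e1]
      have e2 : p (m + 1) y = ∑ k ∈ Finset.range l, a (k + 1 + m) 0 * y ^ k / k ! := by
        simp only [hp, hl']
        refine Finset.sum_congr rfl fun k _ => ?_
        rw [show k + (m + 1) = k + 1 + m by ring]
      rw [e2]
      refine HasDerivAt.add_const _ ?_
      refine HasDerivAt.fun_sum fun k _ => ?_
      have h3 : HasDerivAt (fun t : ℝ => t ^ (k + 1)) (((k + 1 : ℕ) : ℝ) * y ^ k) y := by
        simpa using hasDerivAt_pow (k + 1) y
      have h4 := (h3.const_mul (a (k + 1 + m) 0)).div_const ((k + 1) ! : ℝ)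
      refine h4.congr_deriv ?_
      rw [Nat.factorial_succ]
      push_cast
      field_simp
    · have e1 : p m = fun _ => 0 := by
        funext y
        simp [hp, Nat.sub_eq_zero_of_le hm]
      have e2 : p (m + 1) y = 0 := by
        simp [hp, Nat.sub_eq_zero_of_le (show K ≤ m + 1 by omega)]
      rw [e1, e2]
      exact hasDerivAt_const _ _
  have hpK : ∀ y, p K y = 0 := fun y => by simp [hp]
  have hp0 : ∀ m < K, p m 0 = a m 0 := by
    intro m hm
    obtain ⟨l, hl⟩ : ∃ l, K - m = l + 1 := ⟨K - m - 1, by omega⟩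
    simp only [hp, hl]
    rw [Finset.sum_range_succ']
    simp
  have hed : ∀ n x, HasDerivAt (fun y => a n y - p n y) (a (n + 1) x - p (n + 1) x) x :=
    fun n x => (h n x).sub (hpd n x)
  have pe : p 0 x = ∑ k ∈ Finset.range K, a k 0 * x ^ k / k ! := by simp [hp]
  rcases le_total 0 x with hx0 | hx0
  · rw [abs_of_nonneg hx0] at hx ⊢
    have := tay_fin K (e := fun n y => a n y - p n y) hed
      (fun n hn => by simp [hp0 n hn]) (r := r) (C := C)
      (fun y h1 h2 => by
        simp only [hpK, sub_zero]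
        exact hM y (by rwa [abs_of_nonneg h1])) K le_rfl x hx0 hx
    simp only [Nat.sub_self] at this
    rwa [pe] at this
  · rw [abs_of_nonpos hx0] at hx ⊢
    have h' : ∀ n y, HasDerivAt (fun t => (-1 : ℝ) ^ n * (a n (-t) - p n (-t)))
        ((-1 : ℝ) ^ (n + 1) * (a (n + 1) (-y) - p (n + 1) (-y))) y := by
      intro n y
      have h1 := ((hed n (-y)).comp y (hasDerivAt_neg y)).const_mul ((-1 : ℝ) ^ n)
      refine h1.congr_deriv ?_
      ring
    have := tay_fin K (e := fun n t => (-1 : ℝ) ^ n * (a n (-t) - p n (-t))) h'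
      (fun n hn => by simp [hp0 n hn]) (r := r) (C := C)
      (fun y h1 h2 => by
        simp only [hpK, sub_zero]
        rw [abs_mul, abs_pow, abs_neg, abs_one, one_pow, one_mul]
        exact hM (-y) (by rwa [abs_neg, abs_of_nonneg h1])) K le_rfl (-x) (by linarith) hx
    simp only [Nat.sub_self, pow_zero, one_mul, neg_neg] at this
    rwa [pe] at this

/-- the power series at `0` -/
noncomputable def ser (b : ℕ → ℝ) (z : ℂ) : ℂ := ∑' n, (b n : ℂ) * z ^ n / (n ! : ℂ)

lemma ser_deriv {b : ℕ → ℝ} (hb : ∀ r : ℕ, Summable fun n => |b n| * (r : ℝ) ^ n / n !)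
    (hb1 : ∀ r : ℕ, Summable fun n => |b (n + 1)| * (r : ℝ) ^ n / n !)
    (z : ℂ) : HasDerivAt (ser b) (ser (fun n => b (n + 1)) z) z := by
  obtain ⟨r, hr⟩ := exists_nat_gt ‖z‖
  have hr0 : (0 : ℝ) < r := (norm_nonneg z).trans_lt hr
  set g : ℕ → ℂ → ℂ := fun n w => (b n : ℂ) * w ^ n / (n ! : ℂ) with hg
  set g' : ℕ → ℂ → ℂ := fun n w => (b n : ℂ) * ((n : ℂ) * w ^ (n - 1)) / (n ! : ℂ) with hg'
  set u : ℕ → ℝ := fun n => |b n| * ((n : ℝ) * (r : ℝ) ^ (n - 1)) / n ! with hu
  have e1 : ∀ n (w : ℂ), g' (n + 1) w = (b (n + 1) : ℂ) * w ^ n / (n ! : ℂ) := by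
    intro n w
    simp only [hg', Nat.add_sub_cancel]
    rw [Nat.factorial_succ]
    have h1 : ((n : ℂ) + 1) ≠ 0 := by exact_mod_cast Nat.succ_ne_zero n
    have h2 : (n ! : ℂ) ≠ 0 := by exact_mod_cast Nat.factorial_ne_zero n
    push_cast
    field_simp
  have e2 : ∀ n, u (n + 1) = |b (n + 1)| * (r : ℝ) ^ n / n ! := by
    intro n
    simp only [hu, Nat.add_sub_cancel]
    rw [Nat.factorial_succ]
    push_cast
    field_simp
  have su : Summable u := by
    rw [← summable_nat_add_iff 1]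
    simp only [e2]
    exact hb1 r
  have key := hasDerivAt_tsum_of_isPreconnected (u := u) (g := g) (g' := g')
    (t := Metric.ball (0 : ℂ) r) (y₀ := 0) (y := z) su Metric.isOpen_ball
    (convex_ball (0 : ℂ) r).isPreconnected
    (fun n w _ => by
      have h3 := (((hasDerivAt_pow n w).const_mul (b n : ℂ)).div_const (n ! : ℂ))
      exact h3)
    (fun n w hw => by
      have hw' : ‖w‖ ≤ r := (mem_ball_zero_iff.1 hw).le
      simp only [hg', hu, norm_div, norm_mul, norm_pow, Complex.norm_real, Real.norm_eq_abs,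
        Complex.norm_natCast]
      gcongr)
    (Metric.mem_ball_self hr0)
    (by
      refine summable_of_ne_finset_zero (s := {0}) fun n hn => ?_
      have : n ≠ 0 := by simpa using hn
      simp [hg, this])
    (mem_ball_zero_iff.2 hr)
  have e3 : ∑' n, g' n z = ser (fun n => b (n + 1)) z := by
    have sg : Summable fun n => g' n z := by
      refine Summable.of_norm_bounded su fun n => ?_
      simp only [hg', hu, norm_div, norm_mul, norm_pow, Complex.norm_real, Real.norm_eq_abs,
        Complex.norm_natCast]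
      gcongr
    rw [sg.tsum_eq_zero_add]
    simp only [e1]
    simp [hg', ser]
  rw [e3] at key
  exact key

/-- the entire extension of `a n` -/
noncomputable def ext (a : ℕ → ℝ → ℝ) (n : ℕ) (z : ℂ) : ℂ := ser (fun k => a (k + n) 0) z

lemma Good.summ {a : ℕ → ℝ → ℝ} (h : Good a) (n r : ℕ) :
    Summable fun k => |a (k + n) 0| * (r : ℝ) ^ k / k ! := by
  obtain ⟨M, h1, h2⟩ := h.bd r n
  refine Summable.of_nonneg_of_le (fun k => by positivity) (fun k => ?_) h2
  have := h1 k 0 (by simp)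
  gcongr

lemma Good.ext_der {a : ℕ → ℝ → ℝ} (h : Good a) (n : ℕ) (z : ℂ) :
    HasDerivAt (ext a n) (ext a (n + 1) z) z := by
  have := ser_deriv (b := fun k => a (k + n) 0) (h.summ n) (fun r => by
    have := h.summ (n + 1) r
    refine this.congr fun k => ?_
    rw [show k + 1 + n = k + (n + 1) by ring]) z
  unfold ext
  refine this.congr_deriv ?_
  congr 1
  funext k
  rw [show k + 1 + n = k + (n + 1) by ring]

lemma ext_zero (a : ℕ → ℝ → ℝ) (n : ℕ) : ext a n 0 = (a n 0 : ℂ) := by
  unfold ext ser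
  rw [tsum_eq_single 0 (fun k hk => by simp [hk])]
  simp

lemma ext_real_re (a : ℕ → ℝ → ℝ) (n : ℕ) (x : ℝ) :
    ext a n x = ((∑' k, a (k + n) 0 * x ^ k / k ! : ℝ) : ℂ) := by
  unfold ext ser
  push_cast
  rfl

/-- the extension agrees with the function on the real line -/
lemma Good.ext_real {a : ℕ → ℝ → ℝ} (h : Good a) (n : ℕ) (x : ℝ) : ext a n x = (a n x : ℂ) := by
  obtain ⟨r, hr⟩ := exists_nat_ge |x|
  obtain ⟨M, hM1, hM2⟩ := h.bd r n
  have hs : Summable fun k => a (k + n) 0 * x ^ k / k ! := by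
    refine Summable.of_norm_bounded (h.summ n r) fun k => ?_
    simp only [Real.norm_eq_abs, abs_div, abs_mul, abs_pow, Nat.abs_cast]
    gcongr
  have hM0 : ∀ K, 0 ≤ M K := fun K => (abs_nonneg _).trans (hM1 K 0 (by simp))
  have hd : ∀ m y, HasDerivAt (a (m + n)) (a (m + 1 + n) y) y := fun m y => by
    have := h.der (m + n) y
    rwa [show m + n + 1 = m + 1 + n by ring] at this
  have b1 : ∀ K, |a n x - ∑ k ∈ Finset.range K, a (k + n) 0 * x ^ k / k !| ≤
      M K * (r : ℝ) ^ K / K ! := by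
    intro K
    have := taylor_bd (a := fun m => a (m + n)) hd K (r := r) (C := M K) (fun y hy => hM1 K y hy)
      (x := x) hr
    simp only [zero_add] at this
    refine this.trans ?_
    rw [mul_div_assoc]
    refine mul_le_mul_of_nonneg_left ?_ (hM0 K)
    gcongr
  have t1 : Tendsto (fun K => a n x - ∑ k ∈ Finset.range K, a (k + n) 0 * x ^ k / k !) atTop
      (𝓝 0) := squeeze_zero_norm b1 hM2.tendsto_atTop_zero
  have t2 := hs.hasSum.tendsto_sum_nat
  have t3 := tendsto_nhds_unique t1 (tendsto_const_nhds.sub t2)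
  rw [ext_real_re]
  congr 1
  linarith

lemma Good.iter {a : ℕ → ℝ → ℝ} (h : Good a) (n : ℕ) : iteratedDeriv n (ext a 0) = ext a n := by
  induction n with
  | zero => simp
  | succ n ih =>
    rw [iteratedDeriv_succ, ih]
    funext z
    exact (h.ext_der n z).deriv

lemma Good.diff {a : ℕ → ℝ → ℝ} (h : Good a) : Differentiable ℂ (ext a 0) :=
  fun z => (h.ext_der 0 z).differentiableAt

/-- growth of the extension -/
lemma Good.growth {a : ℕ → ℝ → ℝ} (h : Good a) (z : ℂ) :
    ENNReal.ofReal (‖ext a 0 z‖ ^ 2) ≤ ENNReal.ofReal (Real.exp |z.im|) *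
      ∑' n, ENNReal.ofReal (|z.im| ^ n / n ! * a n z.re ^ 2) := by
  obtain ⟨x, y, hz⟩ : ∃ x y : ℝ, z = x + y * Complex.I := ⟨z.re, z.im, (Complex.re_add_im z).symm⟩
  have hx : z.re = x := by simp [hz]
  have hy : z.im = y := by simp [hz]
  rw [hx, hy]
  have hse := Complex.hasSum_taylorSeries_of_entire h.diff (x : ℂ) z
  simp only [h.iter, h.ext_real] at hse
  have e1 : z - (x : ℂ) = y * Complex.I := by rw [hz]; ring
  rw [e1] at hse
  obtain ⟨r, hr⟩ := exists_nat_ge (max |x| |y|)
  have hrx : |x| ≤ r := (le_max_left _ _).trans hr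
  have hry : |y| ≤ r := (le_max_right _ _).trans hr
  obtain ⟨M, hM1, hM2⟩ := h.bd r 0
  simp only [add_zero] at hM1
  set c : ℕ → ℝ := fun n => |y| ^ n / n ! with hc
  have c0 : ∀ n, 0 ≤ c n := fun n => by positivity
  have hcs : Summable c := Real.summable_pow_div_factorial |y|
  have s1 : Summable fun n => c n * |a n x| := by
    refine Summable.of_nonneg_of_le (fun n => mul_nonneg (c0 n) (abs_nonneg _)) (fun n => ?_) hM2
    have h1 := hM1 n x hrx
    have h2 : c n ≤ (r : ℝ) ^ n / n ! := by simp only [hc]; gcongr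
    calc c n * |a n x| ≤ (r : ℝ) ^ n / n ! * M n :=
          mul_le_mul h2 h1 (abs_nonneg _) (by positivity)
      _ = M n * (r : ℝ) ^ n / n ! := by ring
  have b1 : ‖ext a 0 z‖ ≤ ∑' n, c n * |a n x| := by
    rw [← hse.tsum_eq]
    refine tsum_of_norm_bounded s1.hasSum fun n => le_of_eq ?_
    simp only [smul_eq_mul, norm_mul, norm_inv, norm_pow, Complex.norm_real, Complex.norm_I,
      Complex.norm_natCast, mul_one, Real.norm_eq_abs, hc]
    ring
  have hexp : ∑' n, c n = Real.exp |y| := by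
    rw [Real.exp_eq_exp_ℝ, NormedSpace.exp_eq_tsum_div]
  by_cases hs2 : Summable fun n => c n * a n x ^ 2
  · have cs : ∀ N, (∑ n ∈ Finset.range N, c n * |a n x|) ^ 2 ≤
        Real.exp |y| * ∑' n, c n * a n x ^ 2 := by
      intro N
      have h1 := Finset.sum_mul_sq_le_sq_mul_sq (Finset.range N) (fun n => Real.sqrt (c n))
        (fun n => Real.sqrt (c n) * |a n x|)
      have e2 : ∀ n, Real.sqrt (c n) * (Real.sqrt (c n) * |a n x|) = c n * |a n x| := fun n => by
        rw [← mul_assoc, Real.mul_self_sqrt (c0 n)]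
      have e3 : ∀ n, (Real.sqrt (c n) * |a n x|) ^ 2 = c n * a n x ^ 2 := fun n => by
        rw [mul_pow, Real.sq_sqrt (c0 n), sq_abs]
      have e4 : ∀ n, Real.sqrt (c n) ^ 2 = c n := fun n => Real.sq_sqrt (c0 n)
      simp only [e2, e3, e4] at h1
      refine h1.trans ?_
      refine mul_le_mul ?_ ?_ (Finset.sum_nonneg fun n _ => mul_nonneg (c0 n) (sq_nonneg _))
        (Real.exp_nonneg _)
      · rw [← hexp]
        exact hcs.sum_le_tsum _ fun n _ => c0 n
      · exact hs2.sum_le_tsum _ fun n _ => mul_nonneg (c0 n) (sq_nonneg _)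
    have lim := (s1.hasSum.tendsto_sum_nat).pow 2
    have b2 := le_of_tendsto' lim cs
    have b3 : ‖ext a 0 z‖ ^ 2 ≤ Real.exp |y| * ∑' n, c n * a n x ^ 2 :=
      (pow_le_pow_left₀ (norm_nonneg _) b1 2).trans b2
    rw [← ENNReal.ofReal_tsum_of_nonneg (fun n => mul_nonneg (c0 n) (sq_nonneg _)) hs2,
      ← ENNReal.ofReal_mul (Real.exp_nonneg _)]
    exact ENNReal.ofReal_le_ofReal b3
  · have ht : ∑' n, ENNReal.ofReal (c n * a n x ^ 2) = ⊤ := by
      by_contra hne
      apply hs2
      have := ENNReal.summable_toReal hne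
      refine this.congr fun n => ?_
      rw [ENNReal.toReal_ofReal (mul_nonneg (c0 n) (sq_nonneg _))]
    rw [ht, ENNReal.mul_top]
    · exact le_top
    · rw [Ne, ENNReal.ofReal_eq_zero, not_le]
      exact Real.exp_pos _

end Pool.Agent.U39.SZ
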