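import Pool.Agent.H159R3.NV.Factor

/-!
Jensen's inequality for finitely many zeros, and circle averages (project SZ, helper39).
-/

set_option autoImplicit false

namespace Pool.Agent.U39.SZ

open Pool.Agent.H159R3.NV Finset Real

theorem jensen_finset (Z : Finset ℂ) {R : ℝ} (hR : 0 < R) :
    ∀ {f : ℂ → ℂ}, Differentiable ℂ f → f 0 ≠ 0 → (∀ z ∈ Z, f z = 0) → (∀ z ∈ Z, ‖z‖ ≤ R) →
    ∑ z ∈ Z, Real.log (R / ‖z‖) ≤ L f R - Real.log ‖f 0‖ := by
  induction Z using Finset.induction_on with
  | empty =>
    intro f hf h0 _ _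
    have := jensen_entire hR hf h0
    simp only [sum_empty]
    linarith
  | insert a Z ha ih =>
    intro f hf h0 hZ hZR
    have hfa : f a = 0 := hZ a (mem_insert_self _ _)
    have hfac := dslope_fac hfa
    have hg := dslope_diff hf a
    have ha0 : a ≠ 0 := by
      rintro rfl
      exact h0 hfa
    have hg0 : dslope f a 0 ≠ 0 := by
      intro h
      apply h0
      rw [hfac 0, h, mul_zero]
    have hgZ : ∀ z ∈ Z, dslope f a z = 0 := by
      intro z hz
      have h1 := hZ z (mem_insert_of_mem hz)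
      rw [hfac z] at h1
      rcases mul_eq_zero.1 h1 with h2 | h2
      · exact absurd (sub_eq_zero.1 h2 ▸ hz) ha
      · exact h2
    have hI := ih hg hg0 hgZ fun z hz => hZR z (mem_insert_of_mem hz)
    rw [sum_insert ha]
    have hL : L f R = Real.log R + L (dslope f a) R := by
      have h1 : f = fun z => (z - a) * dslope f a z := funext hfac
      have h2 := L_mul (f := fun z => z - a) (g := dslope f a)
        (differentiable_id.sub_const a) hg (x := 0) (y := 0)
        (by simpa using ha0) hg0 hR.ne'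
      rw [← h1] at h2
      rw [h2, L_lin hR (hZR a (mem_insert_self _ _))]
    have hn : Real.log ‖f 0‖ = Real.log ‖a‖ + Real.log ‖dslope f a 0‖ := by
      rw [hfac 0, norm_mul, zero_sub, norm_neg,
        Real.log_mul (norm_ne_zero_iff.2 ha0) (norm_ne_zero_iff.2 hg0)]
    have hd : Real.log (R / ‖a‖) = Real.log R - Real.log ‖a‖ :=
      Real.log_div hR.ne' (norm_ne_zero_iff.2 ha0)
    rw [hL, hn, hd]
    linarith

/-- the mean of `|Im z|` over the circle of radius `R` -/
theorem avg_im (R : ℝ) (hR : 0 ≤ R) : Real.circleAverage (fun z : ℂ => |z.im|) 0 R = 2 * R / π := by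
  have h1 : ∀ θ : ℝ, |(circleMap 0 R θ).im| = R * |Real.sin θ| := by
    intro θ
    rw [circleMap_zero, Complex.mul_im]
    simp only [Complex.ofReal_re, Complex.ofReal_im, zero_mul, add_zero]
    rw [show (Complex.exp (θ * Complex.I)).im = Real.sin θ by
      rw [Complex.exp_ofReal_mul_I_im], abs_mul, abs_of_nonneg hR]
  rw [Real.circleAverage_def]
  simp only [h1, smul_eq_mul]
  rw [intervalIntegral.integral_const_mul]
  have h2 : ∫ θ in (0:ℝ)..(2 * π), |Real.sin θ| = 4 := by
    have c : Continuous fun θ : ℝ => |Real.sin θ| := Real.continuous_sin.abs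
    rw [← intervalIntegral.integral_add_adjacent_intervals (b := π) (c.intervalIntegrable _ _)
      (c.intervalIntegrable _ _)]
    have e1 : ∫ θ in (0:ℝ)..π, |Real.sin θ| = ∫ θ in (0:ℝ)..π, Real.sin θ := by
      apply intervalIntegral.integral_congr
      intro θ hθ
      rw [Set.uIcc_of_le Real.pi_pos.le] at hθ
      exact abs_of_nonneg (Real.sin_nonneg_of_nonneg_of_le_pi hθ.1 hθ.2)
    have e2 : ∫ θ in π..(2 * π), |Real.sin θ| = ∫ θ in π..(2 * π), -Real.sin θ := by
      apply intervalIntegral.integral_congr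
      intro θ hθ
      rw [Set.uIcc_of_le (by linarith [Real.pi_pos])] at hθ
      have h3 : 0 ≤ Real.sin (θ - π) :=
        Real.sin_nonneg_of_nonneg_of_le_pi (by linarith [hθ.1]) (by linarith [hθ.2])
      rw [Real.sin_sub_pi] at h3
      exact abs_of_nonpos (by linarith)
    rw [e1, e2, intervalIntegral.integral_neg, integral_sin, integral_sin]
    simp [Real.cos_two_pi]
    norm_num
  rw [h2]
  have := Real.pi_ne_zero
  field_simp
  ring

/-- the sum of `log (N / k)`, `1 ≤ k ≤ N` -/
noncomputable def WW (N : ℕ) : ℝ := ∑ k ∈ range N, Real.log (N / (k + 1))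

theorem sum_log_le (N : ℕ) (hN : 1 ≤ N) :
    ∑ k ∈ range N, Real.log ((k : ℝ) + 1) ≤ N * Real.log N - N + 1 + Real.log N := by
  induction N, hN using Nat.le_induction with
  | base => simp
  | succ N hN ih =>
    rw [sum_range_succ]
    have hp : (0 : ℝ) < N := by exact_mod_cast hN
    have h1 := Real.one_sub_inv_le_log_of_pos (x := ((N : ℝ) + 1) / N) (by positivity)
    rw [Real.log_div (by positivity) hp.ne', inv_div] at h1
    have h2 : (1 : ℝ) - N / (N + 1) = 1 / (N + 1) := by field_simp; ring
    rw [h2] at h1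
    have h3 : (1 : ℝ) ≤ (N + 1) * (Real.log (N + 1) - Real.log N) := by
      have := mul_le_mul_of_nonneg_left h1 (by positivity : (0 : ℝ) ≤ N + 1)
      rwa [mul_one_div_cancel (by positivity)] at this
    push_cast
    nlinarith [ih, h3]

theorem WW_ge (N : ℕ) (hN : 1 ≤ N) : (N : ℝ) - 1 - Real.log N ≤ WW N := by
  have hp : (0 : ℝ) < N := by exact_mod_cast hN
  have h1 : WW N = N * Real.log N - ∑ k ∈ range N, Real.log ((k : ℝ) + 1) := by
    have h0 : ∀ k : ℕ, Real.log ((N : ℝ) / (k + 1)) = Real.log N - Real.log ((k : ℝ) + 1) :=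
      fun k => Real.log_div hp.ne' (by positivity)
    unfold WW
    simp only [h0]
    rw [sum_sub_distrib]
    simp
  have := sum_log_le N hN
  rw [h1]
  linarith

theorem WW_nonneg (N : ℕ) : 0 ≤ WW N := by
  unfold WW
  refine sum_nonneg fun k hk => Real.log_nonneg ?_
  rw [le_div_iff₀ (by positivity), one_mul]
  have := mem_range.1 hk
  exact_mod_cast this

end Pool.Agent.U39.SZ
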