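import Pool.Agent.U39.SZ.V

/-!
The law of the first jet of a stationary system (project SZ, helper39).
-/

set_option autoImplicit false

namespace Pool.Agent.U39.SZ

open Pool.Agent.H159R3.NV MeasureTheory Filter Topology Set

/-- measures on the line which are bounded on intervals -/
lemma meas_le1 {μ : Measure ℝ} (h : ∀ a c : ℝ, a ≤ c → μ (Ioo a c) ≤ ENNReal.ofReal (c - a)) :
    μ ≤ volume := by
  have h1 : ∀ a c : ℝ, μ (Ioc a c) ≤ ENNReal.ofReal (c - a) := by
    intro a c
    rcases lt_or_ge c a with hac | hac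
    · rw [Ioc_eq_empty (by linarith), measure_empty]
      exact bot_le
    have h2 : ∀ n : ℕ, μ (Ioc a c) ≤ ENNReal.ofReal (c - a + 1 / (n + 1)) := by
      intro n
      have hp : (0 : ℝ) < 1 / ((n : ℝ) + 1) := by positivity
      refine (measure_mono (fun x hx => ⟨hx.1, ?_⟩ : Ioc a c ⊆ Ioo a (c + 1 / (n + 1)))).trans
        ((h a _ (by linarith)).trans (le_of_eq ?_))
      · linarith [hx.2]
      · congr 1
        ring
    have t : Tendsto (fun n : ℕ => ENNReal.ofReal (c - a + 1 / (n + 1))) atTop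
        (𝓝 (ENNReal.ofReal (c - a + 0))) :=
      ENNReal.tendsto_ofReal (tendsto_one_div_add_atTop_nhds_zero_nat.const_add _)
    rw [add_zero] at t
    exact ge_of_tendsto' t h2
  have h2 : μ.toOuterMeasure ≤ StieltjesFunction.id.outer := by
    rw [StieltjesFunction.outer, OuterMeasure.le_ofFunction]
    intro s
    unfold StieltjesFunction.length
    rw [if_neg (by simp)]
    refine le_iInf fun a => le_iInf fun c => le_iInf fun hs => ?_
    have hb : (botSet : Set ℝ) = ∅ := by
      ext x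
      simp [botSet]
    rw [hb, diff_empty] at hs
    exact (measure_mono hs).trans (h1 a c)
  rw [Real.volume_eq_stieltjes_id]
  refine Measure.le_iff'.2 fun s => ?_
  have h3 : StieltjesFunction.id.measure s = StieltjesFunction.id.outer s := by
    rw [StieltjesFunction.measure]
    rfl
  rw [h3]
  exact h2 s

lemma meas_le {ν : Measure ℝ} {C : ENNReal} (C0 : C ≠ 0) (C1 : C ≠ ⊤)
    (h : ∀ a c : ℝ, a ≤ c → ν (Ioo a c) ≤ C * ENNReal.ofReal (c - a)) (A : Set ℝ) :
    ν A ≤ C * volume A := by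
  have h1 : C⁻¹ • ν ≤ volume := by
    refine meas_le1 fun a c hac => ?_
    rw [Measure.smul_apply, smul_eq_mul]
    calc C⁻¹ * ν (Ioo a c) ≤ C⁻¹ * (C * ENNReal.ofReal (c - a)) := by gcongr; exact h a c hac
      _ = _ := by rw [← mul_assoc, ENNReal.inv_mul_cancel C0 C1, one_mul]
  have h2 := Measure.le_iff'.1 h1 A
  rw [Measure.smul_apply, smul_eq_mul] at h2
  calc ν A = C * (C⁻¹ * ν A) := by rw [← mul_assoc, ENNReal.mul_inv_cancel C0 C1, one_mul]
    _ ≤ C * volume A := by gcongr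

/-- clipping -/
noncomputable def clip (a c x : ℝ) : ℝ := max a (min x c)

lemma clip_eq {a c x : ℝ} (h : x ∈ Ioo a c) : clip a c x = x := by
  unfold clip
  rw [min_eq_left h.2.le, max_eq_right h.1.le]

lemma clip_sub {a c x y : ℝ} (hac : a ≤ c) :
    ENNReal.ofReal |clip a c x - clip a c y| ≤
      volume (Ioo a c ∩ Ioo (min x y) (max x y)) := by
  rw [Ioo_inter_Ioo, Real.volume_Ioo]
  refine ENNReal.ofReal_le_ofReal_iff'.2 ?_
  unfold clip
  simp only [max_def, min_def]
  split_ifs <;> simp only [abs_le] <;> first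
    | (left; constructor <;> linarith)
    | (right; constructor <;> linarith)

variable {S : Type*} [MeasurableSpace S] {P : Measure S} {ι : Type*} [Fintype ι]
variable {θ : ℝ → S → S} {u : ι → ℕ → S → ℝ → ℝ} {b : ℝ}

/-- the probability that a value is attained between two times -/
lemma between_bound [IsProbabilityMeasure P] (h : Sys P θ u b) {Q : MvPolynomial ι ℝ} {m : ℕ}
    (hQ : Q.totalDegree ≤ m) {r : ℝ} (hr : 0 < r) (c : ℝ) :
    P {s | c ∈ Ioo (min (hF u Q s r) (hF u Q s 0)) (max (hF u Q s r) (hF u Q s 0))} ≤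
      ENNReal.ofReal (m * r / Real.pi) := by
  obtain ⟨Q', hQ'⟩ : ∃ Q' : MvPolynomial ι ℝ, Q' = Q - MvPolynomial.C c := ⟨_, rfl⟩
  have hd : Q'.totalDegree ≤ m := by
    rw [hQ']
    exact (MvPolynomial.totalDegree_sub_C_le _ _).trans hQ
  have he : ∀ s t, hF u Q' s t = hF u Q s t - c := by
    intro s t
    unfold hF
    rw [hQ']
    simp
  have hb := seg_bound h hd MeasurableSet.univ (fun _ _ => Iff.rfl) hr
  obtain ⟨E, hE⟩ : ∃ E, E = {s | c ∈ Ioo (min (hF u Q s r) (hF u Q s 0))
    (max (hF u Q s r) (hF u Q s 0))} := ⟨_, rfl⟩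
  have m1 := hF_meas h Q r
  have m2 := hF_meas h Q 0
  have mE : MeasurableSet E := by
    rw [hE]
    exact (measurableSet_lt (m1.min m2) measurable_const).inter
      (measurableSet_lt measurable_const (m1.max m2))
  rw [← hE]
  have sub : E ⊆ univ ∩ AA u Q' := by
    intro s hs
    rw [hE] at hs
    refine ⟨mem_univ _, 0, ?_⟩
    rw [he]
    intro h0
    have h1 : hF u Q s 0 = c := by linarith
    have h2 := hs.1
    have h3 := hs.2
    rw [h1] at h2 h3
    rcases le_total (hF u Q s r) c with h4 | h4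
    · rw [max_eq_right h4] at h3
      exact lt_irrefl _ h3
    · rw [min_eq_right h4] at h2
      exact lt_irrefl _ h2
  have one : ∀ s ∈ E, 1 ≤ nz (hF u Q' s) 0 r := by
    intro s hs
    rw [hE] at hs
    have cont := (hF_cont h Q s).continuousOn (s := Icc 0 r)
    obtain ⟨t, ht, hc⟩ : ∃ t ∈ Ioo 0 r, hF u Q s t = c := by
      rcases le_total (hF u Q s r) (hF u Q s 0) with h4 | h4
      · rw [mem_setOf_eq, min_eq_left h4, max_eq_right h4] at hs
        exact intermediate_value_Ioo' hr.le cont hs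
      · rw [mem_setOf_eq, min_eq_right h4, max_eq_left h4] at hs
        exact intermediate_value_Ioo hr.le cont hs
    unfold nz
    have h5 : (1 : ℕ∞) ≤ ({t | t ∈ Ico 0 r ∧ hF u Q' s t = 0} : Set ℝ).encard := by
      rw [Set.one_le_encard_iff_nonempty]
      exact ⟨t, ⟨ht.1.le, ht.2⟩, by rw [he, hc, sub_self]⟩
    exact_mod_cast h5
  calc P E = ∫⁻ s in E, 1 ∂P := by rw [setLIntegral_one]
    _ ≤ ∫⁻ s in E, nz (hF u Q' s) 0 r ∂P := setLIntegral_mono' mE one
    _ ≤ ∫⁻ s in univ ∩ AA u Q', nz (hF u Q' s) 0 r ∂P := lintegral_mono_set sub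
    _ ≤ ENNReal.ofReal (m * r / Real.pi) * P (univ ∩ AA u Q') := hb
    _ ≤ ENNReal.ofReal (m * r / Real.pi) * 1 := by gcongr; exact prob_le_one
    _ = _ := mul_one _

/-- the variation of the clipped function -/
lemma clip_bound [IsProbabilityMeasure P] (h : Sys P θ u b) {Q : MvPolynomial ι ℝ} {m : ℕ}
    (hQ : Q.totalDegree ≤ m) {r : ℝ} (hr : 0 < r) {a c : ℝ} (hac : a ≤ c) :
    ∫⁻ s, ENNReal.ofReal |clip a c (hF u Q s r) - clip a c (hF u Q s 0)| ∂P ≤
      ENNReal.ofReal (m * r / Real.pi) * ENNReal.ofReal (c - a) := by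
  have m1 := hF_meas h Q r
  have m2 := hF_meas h Q 0
  have mE : MeasurableSet {p : S × ℝ | p.2 ∈ Ioo (min (hF u Q p.1 r) (hF u Q p.1 0))
      (max (hF u Q p.1 r) (hF u Q p.1 0))} :=
    (measurableSet_lt ((m1.comp measurable_fst).min (m2.comp measurable_fst))
      measurable_snd).inter (measurableSet_lt measurable_snd
        ((m1.comp measurable_fst).max (m2.comp measurable_fst)))
  have e1 : ∀ s, volume (Ioo a c ∩ Ioo (min (hF u Q s r) (hF u Q s 0))
      (max (hF u Q s r) (hF u Q s 0))) = (volume.restrict (Ioo a c)) (Prod.mk s ⁻¹'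
        {p : S × ℝ | p.2 ∈ Ioo (min (hF u Q p.1 r) (hF u Q p.1 0))
          (max (hF u Q p.1 r) (hF u Q p.1 0))}) := by
    intro s
    rw [Measure.restrict_apply (measurable_prodMk_left mE), inter_comm]
    rfl
  calc _ ≤ ∫⁻ s, volume (Ioo a c ∩ Ioo (min (hF u Q s r) (hF u Q s 0))
        (max (hF u Q s r) (hF u Q s 0))) ∂P := lintegral_mono fun s => clip_sub hac
    _ = (P.prod (volume.restrict (Ioo a c))) {p : S × ℝ | p.2 ∈ Ioo (min (hF u Q p.1 r)
          (hF u Q p.1 0)) (max (hF u Q p.1 r) (hF u Q p.1 0))} := by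
        rw [Measure.prod_apply mE]
        simp only [e1]
    _ = ∫⁻ x in Ioo a c, P ((fun s => (s, x)) ⁻¹' {p : S × ℝ | p.2 ∈ Ioo (min (hF u Q p.1 r)
          (hF u Q p.1 0)) (max (hF u Q p.1 r) (hF u Q p.1 0))}) := by
        rw [Measure.prod_apply_symm mE]
    _ ≤ ∫⁻ x in Ioo a c, ENNReal.ofReal (m * r / Real.pi) :=
        lintegral_mono fun x => between_bound h hQ hr x
    _ = _ := by
        rw [lintegral_const, Measure.restrict_apply_univ, Real.volume_Ioo]

/-- the derivative at zero -/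
lemma jet_interval [IsProbabilityMeasure P] (h : Sys P θ u b) {Q : MvPolynomial ι ℝ} {m : ℕ}
    (hQ : Q.totalDegree ≤ m) {D : S → ℝ} (mD : Measurable D)
    (hD : ∀ s, HasDerivAt (hF u Q s) (D s) 0) {a c : ℝ} (hac : a ≤ c) :
    ∫⁻ s in {s | hF u Q s 0 ∈ Ioo a c}, ENNReal.ofReal |D s| ∂P ≤
      ENNReal.ofReal (m / Real.pi) * ENNReal.ofReal (c - a) := by
  have m0 := hF_meas h Q 0
  have mA : MeasurableSet {s | hF u Q s 0 ∈ Ioo a c} := m0 measurableSet_Ioo
  obtain ⟨g, hg⟩ : ∃ g : ℕ → S → ENNReal, g = fun (n : ℕ) s => ENNReal.ofReal ((n : ℝ) + 1) *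
      ENNReal.ofReal |clip a c (hF u Q s (1 / ((n : ℝ) + 1))) - clip a c (hF u Q s 0)| := ⟨_, rfl⟩
  have mclip : ∀ t, Measurable fun s => clip a c (hF u Q s t) := fun t =>
    measurable_const.max ((hF_meas h Q t).min measurable_const)
  have mg : ∀ n, Measurable (g n) := by
    intro n
    rw [hg]
    exact (((mclip _).sub (mclip 0)).abs.ennreal_ofReal).const_mul _
  have hgi : ∀ n, ∫⁻ s, g n s ∂P ≤ ENNReal.ofReal (m / Real.pi) * ENNReal.ofReal (c - a) := by
    intro n
    have hr : (0 : ℝ) < 1 / ((n : ℝ) + 1) := by positivity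
    rw [hg]
    simp only
    have mm : Measurable fun s => ENNReal.ofReal |clip a c (hF u Q s (1 / ((n : ℝ) + 1))) -
        clip a c (hF u Q s 0)| := ((mclip _).sub (mclip 0)).abs.ennreal_ofReal
    rw [lintegral_const_mul _ mm]
    calc _ ≤ ENNReal.ofReal ((n : ℝ) + 1) * (ENNReal.ofReal (m * (1 / ((n : ℝ) + 1)) / Real.pi) *
          ENNReal.ofReal (c - a)) := by gcongr; exact clip_bound h hQ hr hac
      _ = _ := by
          rw [← mul_assoc, ← ENNReal.ofReal_mul (by positivity)]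
          congr 2
          field_simp
  have hlim : ∀ s, {s | hF u Q s 0 ∈ Ioo a c}.indicator (fun s => ENNReal.ofReal |D s|) s ≤
      liminf (fun n => g n s) atTop := by
    intro s
    by_cases hs : hF u Q s 0 ∈ Ioo a c
    · rw [indicator_of_mem (show s ∈ {s | hF u Q s 0 ∈ Ioo a c} from hs)]
      have t0 : Tendsto (fun n : ℕ => (1 : ℝ) / ((n : ℝ) + 1)) atTop (𝓝 0) :=
        tendsto_one_div_add_atTop_nhds_zero_nat
      have hev : ∀ᶠ n : ℕ in atTop, hF u Q s (1 / ((n : ℝ) + 1)) ∈ Ioo a c := by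
        have hc : Tendsto (fun n : ℕ => hF u Q s (1 / ((n : ℝ) + 1))) atTop (𝓝 (hF u Q s 0)) :=
          ((hF_cont h Q s).tendsto 0).comp t0
        exact hc (isOpen_Ioo.mem_nhds hs)
      have ht : Tendsto (fun n => g n s) atTop (𝓝 (ENNReal.ofReal |D s|)) := by
        have h1 : Tendsto (fun n : ℕ => ((n : ℝ) + 1) * (hF u Q s (1 / ((n : ℝ) + 1)) -
            hF u Q s 0)) atTop (𝓝 (D s)) := by
          have h2 := (hD s).tendsto_slope_zero
          have h3 : Tendsto (fun n : ℕ => (1 : ℝ) / ((n : ℝ) + 1)) atTop (𝓝[≠] 0) :=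
            tendsto_nhdsWithin_iff.2 ⟨t0, Eventually.of_forall fun n => by
              have : (0 : ℝ) < 1 / ((n : ℝ) + 1) := by positivity
              exact this.ne'⟩
          have h4 := h2.comp h3
          refine h4.congr fun n => ?_
          simp only [Function.comp_apply, zero_add, smul_eq_mul, one_div, inv_inv]
        have h5 := ENNReal.tendsto_ofReal h1.abs
        refine h5.congr' ?_
        filter_upwards [hev] with n hn
        rw [hg]
        simp only
        rw [clip_eq hn, clip_eq hs, abs_mul, ENNReal.ofReal_mul (abs_nonneg _),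
          abs_of_nonneg (by positivity : (0 : ℝ) ≤ (n : ℝ) + 1)]
      exact ht.liminf_eq.ge
    · rw [indicator_of_notMem (show s ∉ {s | hF u Q s 0 ∈ Ioo a c} from hs)]
      exact bot_le
  rw [← lintegral_indicator mA]
  calc _ ≤ ∫⁻ s, liminf (fun n => g n s) atTop ∂P := lintegral_mono hlim
    _ ≤ liminf (fun n => ∫⁻ s, g n s ∂P) atTop := lintegral_liminf_le mg
    _ ≤ _ := by
        refine liminf_le_of_le (by isBoundedDefault) fun e he => ?_
        obtain ⟨n, hn⟩ := he.exists
        exact hn.trans (hgi n)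

/-- the derivative at zero, for all measurable sets -/
theorem jet_bound [IsProbabilityMeasure P] (h : Sys P θ u b) {Q : MvPolynomial ι ℝ} {m : ℕ}
    (hm : 1 ≤ m) (hQ : Q.totalDegree ≤ m) {D : S → ℝ} (mD : Measurable D)
    (hD : ∀ s, HasDerivAt (hF u Q s) (D s) 0) {A : Set ℝ} (mA : MeasurableSet A) :
    ∫⁻ s in {s | hF u Q s 0 ∈ A}, ENNReal.ofReal |D s| ∂P ≤
      ENNReal.ofReal (m / Real.pi) * volume A := by
  have m0 := hF_meas h Q 0
  obtain ⟨ν, hν⟩ : ∃ ν : Measure ℝ, ν = (P.withDensity fun s => ENNReal.ofReal |D s|).map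
    (fun s => hF u Q s 0) := ⟨_, rfl⟩
  have hap : ∀ {B : Set ℝ}, MeasurableSet B →
      ν B = ∫⁻ s in {s | hF u Q s 0 ∈ B}, ENNReal.ofReal |D s| ∂P := by
    intro B mB
    rw [hν, Measure.map_apply m0 mB, withDensity_apply _ (m0 mB)]
    rfl
  have hp := Real.pi_pos
  have hmp : (0 : ℝ) < m := by exact_mod_cast hm
  rw [← hap mA]
  refine meas_le (ENNReal.ofReal_pos.2 (by positivity)).ne' ENNReal.ofReal_ne_top
    (fun a c hac => ?_) A
  rw [hap measurableSet_Ioo]
  exact jet_interval h hQ mD hD hac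

end Pool.Agent.U39.SZ
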