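import Pool.Agent.U39.SZ.W

/-!
Stationary waves: passage to the canonical space (project SZ, helper39).
-/

set_option autoImplicit false

namespace Pool.Agent.U39.SZ

open Pool.Agent.Y139.SW MeasureTheory Filter Topology Set
open scoped ContDiff

variable (d : ℕ)

/-- the space of smooth solutions -/
abbrev Sp : Type := {f : E d → ℝ // ContDiff ℝ ∞ f ∧ ∀ y, Lap f y = -f y}

variable {d}

lemma D_tr (f : E d → ℝ) (x : E d) (i : Fin d) :
    D i (fun y => f (y + x)) = fun y => D i f (y + x) := by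
  funext y
  show fderiv ℝ (fun y => f (y + x)) y _ = fderiv ℝ f (y + x) _
  rw [fderiv_comp_add_right]

lemma Lap_tr (f : E d → ℝ) (x y : E d) : Lap (fun y => f (y + x)) y = Lap f (y + x) := by
  unfold Lap
  refine Finset.sum_congr rfl fun i _ => ?_
  rw [D_tr, D_tr]

/-- the shift -/
def sh (x : E d) (f : Sp d) : Sp d :=
  ⟨fun y => f.1 (y + x), f.2.1.comp (contDiff_id.add contDiff_const), fun y => by
    rw [Lap_tr]; exact f.2.2 _⟩

lemma sh_me (x : E d) : Measurable (sh x) := by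
  refine Measurable.subtype_mk (measurable_pi_iff.2 fun y => ?_)
  exact (measurable_pi_apply (y + x)).comp measurable_subtype_coe

variable {S : Type*} [MeasurableSpace S] {P : Measure S}

theorem main2 [IsProbabilityMeasure P] {F : S → E d → ℝ} (mF : ∀ y, Measurable fun s => F s y)
    (sF : ∀ s, ContDiff ℝ ∞ (F s)) (eF : ∀ s y, Lap (F s) y + F s y = 0)
    (st : ∀ x : E d, P.map (fun s y => F s (y + x)) = P.map (fun s y => F s y))
    (l2 : Integrable (fun s => F s 0 ^ 2) P) (Q : MvPolynomial (List (Fin d)) ℝ) (x : E d)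
    {v : E d} (hv : ‖v‖ ≤ 1) {r : ℝ} (hr : 0 < r) {I : Set (E d → ℝ)} (mI : MeasurableSet I)
    (hI : ∀ (t : ℝ) (f : E d → ℝ), (fun y => f (y + t • v)) ∈ I ↔ f ∈ I) :
    Measurable (fun s => nz (fun t => po Q (F s) (x + t • v)) 0 r) ∧
    MeasurableSet {s | ∃ t : ℝ, po Q (F s) (x + t • v) ≠ 0} ∧
    ∫⁻ s in {s | F s ∈ I ∧ ∃ t : ℝ, po Q (F s) (x + t • v) ≠ 0},
      nz (fun t => po Q (F s) (x + t • v)) 0 r ∂P ≤
      ENNReal.ofReal (Q.totalDegree * r / Real.pi) *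
        P {s | F s ∈ I ∧ ∃ t : ℝ, po Q (F s) (x + t • v) ≠ 0} := by
  obtain ⟨Φ, hΦ⟩ : ∃ Φ : S → Sp d, Φ = fun s => ⟨F s, sF s, fun y => by
    have := eF s y; linarith⟩ := ⟨_, rfl⟩
  have v1 : ∀ s, (Φ s).1 = F s := fun s => by rw [hΦ]
  have mΦ : Measurable Φ := by
    rw [hΦ]
    exact Measurable.subtype_mk (measurable_pi_iff.2 mF)
  have hQ : IsProbabilityMeasure (P.map Φ) := Measure.isProbabilityMeasure_map mΦ.aemeasurable
  have hτ : ∀ x : E d, MeasurePreserving (sh x) (P.map Φ) (P.map Φ) := by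
    intro x
    refine ⟨sh_me x, ?_⟩
    rw [Measure.map_map (sh_me x) mΦ]
    ext A mA
    obtain ⟨B, mB, rfl⟩ := mA
    have e1 : ((sh x ∘ Φ) ⁻¹' (Subtype.val ⁻¹' B)) = (fun s y => F s (y + x)) ⁻¹' B := by
      ext s
      show (fun y => (Φ s).1 (y + x)) ∈ B ↔ (fun y => F s (y + x)) ∈ B
      rw [v1]
    have e2 : (Φ ⁻¹' (Subtype.val ⁻¹' B)) = (fun s y => F s y) ⁻¹' B := by
      ext s
      show (Φ s).1 ∈ B ↔ (fun y => F s y) ∈ B
      rw [v1]
    have mV : MeasurableSet (Subtype.val ⁻¹' B : Set (Sp d)) := ⟨B, mB, rfl⟩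
    rw [Measure.map_apply ((sh_me x).comp mΦ) mV, Measure.map_apply mΦ mV, e1, e2,
      ← Measure.map_apply (measurable_pi_iff.2 fun y => mF (y + x)) mB,
      ← Measure.map_apply (measurable_pi_iff.2 fun y => mF y) mB, st x]
  have W : Wave (P.map Φ) sh (fun f : Sp d => f.1) := by
    refine ⟨⟨fun y => (measurable_pi_apply y).comp measurable_subtype_coe, fun f => f.2.1,
      fun x f y => rfl⟩, fun f y => f.2.2 y, ?_⟩
    have m0 : Measurable fun f : Sp d => f.1 0 :=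
      (measurable_pi_apply 0).comp measurable_subtype_coe
    refine (integrable_map_measure (m0.pow_const 2).aestronglyMeasurable mΦ.aemeasurable).2 ?_
    refine l2.congr (ae_of_all _ fun s => ?_)
    show F s 0 ^ 2 = (Φ s).1 0 ^ 2
    rw [v1]
  have mI' : MeasurableSet {f : Sp d | f.1 ∈ I} := measurable_subtype_coe mI
  have hI' : ∀ (a : ℝ) (f : Sp d), sh (a • v) f ∈ {f : Sp d | f.1 ∈ I} ↔
      f ∈ {f : Sp d | f.1 ∈ I} := fun a f => hI a f.1
  obtain ⟨h1, h2, h3⟩ := main1 hτ W Q x hv hr mI' hI'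
  have e0 : ∀ s, po Q (Φ s).1 = po Q (F s) := fun s => by rw [v1]
  have g1 := h1.comp mΦ
  have g2 := mΦ h2
  rw [setLIntegral_map (mI'.inter h2) h1 mΦ, Measure.map_apply mΦ (mI'.inter h2)] at h3
  have eA : Φ ⁻¹' ({f : Sp d | f.1 ∈ I} ∩ {f : Sp d | ∃ t : ℝ, po Q f.1 (x + t • v) ≠ 0}) =
      {s | F s ∈ I ∧ ∃ t : ℝ, po Q (F s) (x + t • v) ≠ 0} := by
    ext s
    simp only [mem_preimage, mem_inter_iff, mem_setOf_eq, v1]
  rw [eA] at h3
  have e1 : ((fun f : Sp d => nz (fun t => po Q f.1 (x + t • v)) 0 r) ∘ Φ) =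
      fun s => nz (fun t => po Q (F s) (x + t • v)) 0 r := by
    funext s
    simp only [Function.comp_apply, v1]
  rw [e1] at g1
  have e2 : Φ ⁻¹' {f : Sp d | ∃ t : ℝ, po Q f.1 (x + t • v) ≠ 0} =
      {s | ∃ t : ℝ, po Q (F s) (x + t • v) ≠ 0} := by
    ext s
    simp only [mem_preimage, mem_setOf_eq, v1]
  rw [e2] at g2
  simp only [v1] at h3
  exact ⟨g1, g2, h3⟩

end Pool.Agent.U39.SZ
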