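import Pool.Agent.U39.SZ.K
import Pool.Agent.U39.SZ.X

/-!
The law of a stationary wave at a point: universal bounds (project SZ, helper39).
-/

set_option autoImplicit false

namespace Pool.Agent.U39.SZ

open Pool.Agent.Y139.SW MeasureTheory Filter Topology Set
open scoped ContDiff

section

variable {d : ℕ} {S : Type*} [MeasurableSpace S] {P : Measure S} {τ : E d → S → S}

/-- the first jet of a wave in a direction -/
lemma wave_jet [IsProbabilityMeasure P] (hτ : ∀ x, MeasurePreserving (τ x) P P)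
    {G : S → E d → ℝ} (W : Wave P τ G) (x : E d) {v : E d} (hv : ‖v‖ ≤ 1) {A : Set ℝ}
    (mA : MeasurableSet A) :
    ∫⁻ s in {s | G s x ∈ A}, ENNReal.ofReal |Dv v (G s) x| ∂P ≤
      ENNReal.ofReal (1 / Real.pi) * volume A := by
  have hs := sys hτ (U := fun (_ : Unit) => G) (fun _ => W) x hv
  have e : ∀ s t, hF (ln (fun (_ : Unit) => G) x v) (MvPolynomial.X ()) s t =
      G s (x + t • v) := by
    intro s t
    unfold hF
    rw [MvPolynomial.eval_X]
    rfl
  have hdeg : (MvPolynomial.X () : MvPolynomial Unit ℝ).totalDegree ≤ 1 := by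
    rw [MvPolynomial.totalDegree_X]
  have e0 : ∀ s, ln (fun (_ : Unit) => G) x v () 1 s 0 = Dv v (G s) x := by
    intro s
    show Dv v (G s) (x + (0 : ℝ) • v) = _
    rw [zero_smul, add_zero]
  have hD : ∀ s, HasDerivAt (hF (ln (fun (_ : Unit) => G) x v) (MvPolynomial.X ()) s)
      (Dv v (G s) x) 0 := by
    intro s
    have h1 := hs.der () 0 s 0
    rw [← e0]
    have h2 : hF (ln (fun (_ : Unit) => G) x v) (MvPolynomial.X ()) s =
        ln (fun (_ : Unit) => G) x v () 0 s := by
      funext t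
      rw [e]
      rfl
    rw [h2]
    exact h1
  have mD : Measurable fun s => Dv v (G s) x := by
    have := hs.meas () 1 0
    simpa only [e0] using this
  have h1 := jet_bound hs le_rfl hdeg mD hD mA
  simp only [e, zero_smul, add_zero, Nat.cast_one] at h1
  exact h1

/-- the basic bound for the law at a point -/
lemma wave_law1 [IsProbabilityMeasure P] (hτ : ∀ x, MeasurePreserving (τ x) P P)
    {G : S → E d → ℝ} (W : Wave P τ G) (x : E d) {A : Set ℝ} (mA : MeasurableSet A)
    (fA : volume A ≠ ⊤) {c η : ℝ} (hc : 0 < c) (hη : 0 < η) :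
    P.real {s | G s x ∈ A ∧ c ≤ |G s x|} ≤
      d * volume.real A / (Real.pi * η) + 2 * d * η / (Real.pi * c) := by
  have hp := Real.pi_pos
  have nv : ∀ i : Fin d, ‖(EuclideanSpace.single i (1 : ℝ) : E d)‖ ≤ 1 := fun i => by simp
  have W1 := fun i => W.der hτ i
  have W2 := fun i => (W1 i).der hτ i
  have mG := W.sf.meas x
  have m1 := fun i => (W1 i).sf.meas x
  have m2 := fun i => (W2 i).sf.meas x
  -- the first part
  have p1 : ∀ i, P.real {s | G s x ∈ A ∧ η ≤ |D i (G s) x|} ≤ volume.real A / (Real.pi * η) := by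
    intro i
    have h1 := wave_jet hτ W x (nv i) mA
    have mE : MeasurableSet {s | η ≤ |D i (G s) x|} := measurableSet_le measurable_const (m1 i).abs
    have h2 : ENNReal.ofReal η * P {s | G s x ∈ A ∧ η ≤ |D i (G s) x|} ≤
        ENNReal.ofReal (1 / Real.pi) * volume A := by
      calc _ = ∫⁻ s in {s | G s x ∈ A} ∩ {s | η ≤ |D i (G s) x|}, ENNReal.ofReal η ∂P := by
            rw [lintegral_const, Measure.restrict_apply_univ]
            rfl
        _ ≤ ∫⁻ s in {s | G s x ∈ A} ∩ {s | η ≤ |D i (G s) x|},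
              ENNReal.ofReal |D i (G s) x| ∂P := by
            refine setLIntegral_mono' ((mG mA).inter mE) fun s hs => ?_
            exact ENNReal.ofReal_le_ofReal hs.2
        _ ≤ ∫⁻ s in {s | G s x ∈ A}, ENNReal.ofReal |D i (G s) x| ∂P :=
            lintegral_mono_set inter_subset_left
        _ ≤ _ := h1
    have h3 := ENNReal.toReal_mono (ENNReal.mul_ne_top ENNReal.ofReal_ne_top fA) h2
    rw [ENNReal.toReal_mul, ENNReal.toReal_mul, ENNReal.toReal_ofReal hη.le,
      ENNReal.toReal_ofReal (by positivity)] at h3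
    rw [le_div_iff₀ (by positivity)]
    have h4 : P.real {s | G s x ∈ A ∧ η ≤ |D i (G s) x|} * (Real.pi * η) =
        Real.pi * (η * (P {s | G s x ∈ A ∧ η ≤ |D i (G s) x|}).toReal) := by
      show (P {s | G s x ∈ A ∧ η ≤ |D i (G s) x|}).toReal * (Real.pi * η) = _
      ring
    rw [h4]
    calc _ ≤ Real.pi * (1 / Real.pi * (volume A).toReal) := by gcongr
      _ = _ := by
        show _ = (volume A).toReal
        field_simp
  -- the second part
  have p2 : P.real {s | (∀ i, |D i (G s) x| < η) ∧ c ≤ ∑ i, |D i (D i (G s)) x|} ≤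
      2 * d * η / (Real.pi * c) := by
    obtain ⟨B, hB⟩ : ∃ B, B = {s | (∀ i, |D i (G s) x| < η) ∧ c ≤ ∑ i, |D i (D i (G s)) x|} :=
      ⟨_, rfl⟩
    have mB : MeasurableSet B := by
      have e1 : B = (⋂ i, {s | |D i (G s) x| < η}) ∩
          {s | c ≤ ∑ i, |D i (D i (G s)) x|} := by
        rw [hB]
        ext s
        simp
      rw [e1]
      refine MeasurableSet.inter ?_ ?_
      · exact MeasurableSet.iInter fun i => measurableSet_lt (m1 i).abs measurable_const
      · exact measurableSet_le measurable_const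
          (Finset.measurable_fun_sum _ fun i _ => (m2 i).abs)
    have h1 : ∀ i, ∫⁻ s in B, ENNReal.ofReal |D i (D i (G s)) x| ∂P ≤
        ENNReal.ofReal (2 * η / Real.pi) := by
      intro i
      have h2 := wave_jet hτ (W1 i) x (nv i) (A := Ioo (-η) η) measurableSet_Ioo
      refine (lintegral_mono_set (fun s hs => ?_)).trans (h2.trans (le_of_eq ?_))
      · rw [hB] at hs
        exact abs_lt.1 (hs.1 i)
      · rw [Real.volume_Ioo, ← ENNReal.ofReal_mul (by positivity)]
        congr 1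
        ring
    have h2 : ENNReal.ofReal c * P B ≤ ENNReal.ofReal (d * (2 * η / Real.pi)) := by
      calc _ = ∫⁻ s in B, ENNReal.ofReal c ∂P := by
            rw [lintegral_const, Measure.restrict_apply_univ]
        _ ≤ ∫⁻ s in B, ∑ i, ENNReal.ofReal |D i (D i (G s)) x| ∂P := by
            refine setLIntegral_mono' mB fun s hs => ?_
            rw [← ENNReal.ofReal_sum_of_nonneg fun i _ => abs_nonneg _]
            rw [hB] at hs
            exact ENNReal.ofReal_le_ofReal hs.2
        _ = ∑ i, ∫⁻ s in B, ENNReal.ofReal |D i (D i (G s)) x| ∂P :=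
            lintegral_finsetSum _ fun i _ => (m2 i).abs.ennreal_ofReal
        _ ≤ ∑ _i : Fin d, ENNReal.ofReal (2 * η / Real.pi) := Finset.sum_le_sum fun i _ => h1 i
        _ = _ := by
            rw [Finset.sum_const, Finset.card_univ, Fintype.card_fin, nsmul_eq_mul,
              ENNReal.ofReal_mul (Nat.cast_nonneg _), ENNReal.ofReal_natCast]
    have h3 := ENNReal.toReal_mono ENNReal.ofReal_ne_top h2
    rw [ENNReal.toReal_mul, ENNReal.toReal_ofReal hc.le,
      ENNReal.toReal_ofReal (by positivity)] at h3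
    rw [← hB, le_div_iff₀ (by positivity)]
    show (P B).toReal * (Real.pi * c) ≤ _
    calc (P B).toReal * (Real.pi * c) = Real.pi * (c * (P B).toReal) := by ring
      _ ≤ Real.pi * (d * (2 * η / Real.pi)) := by gcongr
      _ = _ := by field_simp
  have sub : {s | G s x ∈ A ∧ c ≤ |G s x|} ⊆
      (⋃ i ∈ (Finset.univ : Finset (Fin d)), {s | G s x ∈ A ∧ η ≤ |D i (G s) x|}) ∪
        {s | (∀ i, |D i (G s) x| < η) ∧ c ≤ ∑ i, |D i (D i (G s)) x|} := by
    rintro s ⟨h1, h2⟩
    by_cases h : ∃ i, η ≤ |D i (G s) x|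
    · obtain ⟨i, hi⟩ := h
      left
      simp only [mem_iUnion]
      exact ⟨i, Finset.mem_univ i, h1, hi⟩
    · right
      push Not at h
      refine ⟨h, h2.trans ?_⟩
      have h3 := W.eq s x
      unfold Lap at h3
      have h4 : G s x = -∑ i, D i (D i (G s)) x := by rw [h3]; ring
      rw [h4, abs_neg]
      exact Finset.abs_sum_le_sum_abs _ _
  calc _ ≤ P.real ((⋃ i ∈ (Finset.univ : Finset (Fin d)), {s | G s x ∈ A ∧ η ≤ |D i (G s) x|}) ∪
        {s | (∀ i, |D i (G s) x| < η) ∧ c ≤ ∑ i, |D i (D i (G s)) x|}) := measureReal_mono sub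
    _ ≤ P.real (⋃ i ∈ (Finset.univ : Finset (Fin d)), {s | G s x ∈ A ∧ η ≤ |D i (G s) x|}) +
        P.real {s | (∀ i, |D i (G s) x| < η) ∧ c ≤ ∑ i, |D i (D i (G s)) x|} :=
        measureReal_union_le _ _
    _ ≤ ∑ i, P.real {s | G s x ∈ A ∧ η ≤ |D i (G s) x|} + 2 * d * η / (Real.pi * c) :=
        add_le_add (measureReal_biUnion_finset_le _ _) p2
    _ ≤ ∑ _i : Fin d, volume.real A / (Real.pi * η) + 2 * d * η / (Real.pi * c) := by
        gcongr with i _
        exact p1 i
    _ = _ := by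
        rw [Finset.sum_const, Finset.card_univ, Fintype.card_fin, nsmul_eq_mul]
        ring

lemma opt {p α c K : ℝ} (hα : 0 ≤ α) (hc : 0 < c) (hK : 0 ≤ K)
    (h : ∀ η : ℝ, 0 < η → p ≤ K * α / (Real.pi * η) + 2 * K * η / (Real.pi * c)) :
    p ≤ 2 * √2 * K / Real.pi * √(α / c) := by
  have hp := Real.pi_pos
  rcases hα.eq_or_lt with h0 | h0
  · rw [← h0, zero_div, Real.sqrt_zero, mul_zero]
    have h1 : ∀ n : ℕ, p ≤ 2 * K / (Real.pi * c) * (1 / ((n : ℝ) + 1)) := by
      intro n
      have := h (1 / ((n : ℝ) + 1)) (by positivity)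
      rw [← h0, mul_zero, zero_div, zero_add] at this
      refine this.trans (le_of_eq ?_)
      ring
    have t : Tendsto (fun n : ℕ => 2 * K / (Real.pi * c) * (1 / ((n : ℝ) + 1))) atTop
        (𝓝 (2 * K / (Real.pi * c) * 0)) := tendsto_one_div_add_atTop_nhds_zero_nat.const_mul _
    rw [mul_zero] at t
    exact ge_of_tendsto' t h1
  · obtain ⟨q, hq⟩ : ∃ q, q = √(α / c) := ⟨_, rfl⟩
    have q0 : 0 < q := by rw [hq]; positivity
    have q2 : q ^ 2 = α / c := by rw [hq]; exact Real.sq_sqrt (by positivity)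
    have hα' : α = q ^ 2 * c := by rw [q2]; field_simp
    have s0 : 0 < √2 := by positivity
    have s2 : √2 ^ 2 = 2 := Real.sq_sqrt (by norm_num)
    have h1 := h (q * c / √2) (by positivity)
    rw [← hq]
    refine h1.trans (le_of_eq ?_)
    rw [hα']
    have e1 : K * (q ^ 2 * c) / (Real.pi * (q * c / √2)) = √2 * K / Real.pi * q := by
      field_simp
    have e2 : 2 * K * (q * c / √2) / (Real.pi * c) = √2 * K / Real.pi * q := by
      have : 2 * K * (q * c / √2) / (Real.pi * c) = 2 / √2 * (K / Real.pi * q) := by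
        field_simp
      rw [this]
      have h3 : 2 / √2 = √2 := by
        rw [div_eq_iff s0.ne', ← sq, s2]
      rw [h3]
      ring
    rw [e1, e2]
    ring

/-- the law of a wave at a point -/
theorem wave_law [IsProbabilityMeasure P] (hτ : ∀ x, MeasurePreserving (τ x) P P)
    {G : S → E d → ℝ} (W : Wave P τ G) (x : E d) {A : Set ℝ} (mA : MeasurableSet A)
    (fA : volume A ≠ ⊤) {c : ℝ} (hc : 0 < c) :
    P.real {s | G s x ∈ A ∧ c ≤ |G s x|} ≤
      2 * √2 * d / Real.pi * √(volume.real A / c) :=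
  opt measureReal_nonneg hc (Nat.cast_nonneg d) fun _ hη => wave_law1 hτ W x mA fA hc hη

end

section

variable {d : ℕ} {S : Type*} [MeasurableSpace S] {P : Measure S}

/-- the canonical representation of a stationary wave -/
theorem canon [IsProbabilityMeasure P] {F : S → E d → ℝ} (mF : ∀ y, Measurable fun s => F s y)
    (sF : ∀ s, ContDiff ℝ ∞ (F s)) (eF : ∀ s y, Lap (F s) y + F s y = 0)
    (st : ∀ x : E d, P.map (fun s y => F s (y + x)) = P.map (fun s y => F s y))
    (l2 : Integrable (fun s => F s 0 ^ 2) P) :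
    ∃ Φ : S → Sp d, Measurable Φ ∧ (∀ s, (Φ s).1 = F s) ∧
      (∀ x : E d, MeasurePreserving (sh x) (P.map Φ) (P.map Φ)) ∧
      Wave (P.map Φ) sh (fun f : Sp d => f.1) := by
  obtain ⟨Φ, hΦ⟩ : ∃ Φ : S → Sp d, Φ = fun s => ⟨F s, sF s, fun y => by
    have := eF s y; linarith⟩ := ⟨_, rfl⟩
  have v1 : ∀ s, (Φ s).1 = F s := fun s => by rw [hΦ]
  have mΦ : Measurable Φ := by
    rw [hΦ]
    exact Measurable.subtype_mk (measurable_pi_iff.2 mF)
  have hQ : IsProbabilityMeasure (P.map Φ) := Measure.isProbabilityMeasure_map mΦ.aemeasurable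
  refine ⟨Φ, mΦ, v1, fun x => ?_, ?_⟩
  · refine ⟨sh_me x, ?_⟩
    rw [Measure.map_map (sh_me x) mΦ]
    ext A mA
    obtain ⟨B, mB, rfl⟩ := mA
    have e1 : ((sh x ∘ Φ) ⁻¹' (Subtype.val ⁻¹' B)) = (fun s y => F s (y + x)) ⁻¹' B := by
      ext s
      show (fun y => (Φ s).1 (y + x)) ∈ B ↔ (fun y => F s (y + x)) ∈ B
      rw [v1]
    have e2 : (Φ ⁻¹' (Subtype.val ⁻¹' B)) = (fun s y => F s y) ⁻¹' B := by
      ext s
      show (Φ s).1 ∈ B ↔ (fun y => F s y) ∈ B
      rw [v1]
    have mV : MeasurableSet (Subtype.val ⁻¹' B : Set (Sp d)) := ⟨B, mB, rfl⟩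
    rw [Measure.map_apply ((sh_me x).comp mΦ) mV, Measure.map_apply mΦ mV, e1, e2,
      ← Measure.map_apply (measurable_pi_iff.2 fun y => mF (y + x)) mB,
      ← Measure.map_apply (measurable_pi_iff.2 fun y => mF y) mB, st x]
  · refine ⟨⟨fun y => (measurable_pi_apply y).comp measurable_subtype_coe, fun f => f.2.1,
      fun x f y => rfl⟩, fun f y => f.2.2 y, ?_⟩
    have m0 : Measurable fun f : Sp d => f.1 0 :=
      (measurable_pi_apply 0).comp measurable_subtype_coe
    refine (integrable_map_measure (m0.pow_const 2).aestronglyMeasurable mΦ.aemeasurable).2 ?_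
    refine l2.congr (ae_of_all _ fun s => ?_)
    show F s 0 ^ 2 = (Φ s).1 0 ^ 2
    rw [v1]

/-- the law of a stationary wave at a point -/
theorem law_bound [IsProbabilityMeasure P] {F : S → E d → ℝ}
    (mF : ∀ y, Measurable fun s => F s y)
    (sF : ∀ s, ContDiff ℝ ∞ (F s)) (eF : ∀ s y, Lap (F s) y + F s y = 0)
    (st : ∀ x : E d, P.map (fun s y => F s (y + x)) = P.map (fun s y => F s y))
    (l2 : Integrable (fun s => F s 0 ^ 2) P) (x : E d) {A : Set ℝ} (mA : MeasurableSet A)
    (fA : volume A ≠ ⊤) {c : ℝ} (hc : 0 < c) :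
    P.real {s | F s x ∈ A ∧ c ≤ |F s x|} ≤
      2 * √2 * d / Real.pi * √(volume.real A / c) := by
  obtain ⟨Φ, mΦ, v1, hτ, W⟩ := canon mF sF eF st l2
  have hQ : IsProbabilityMeasure (P.map Φ) := Measure.isProbabilityMeasure_map mΦ.aemeasurable
  have h1 := wave_law hτ W x mA fA hc
  have mx : Measurable fun f : Sp d => f.1 x :=
    (measurable_pi_apply x).comp measurable_subtype_coe
  have mS : MeasurableSet {f : Sp d | f.1 x ∈ A ∧ c ≤ |f.1 x|} :=
    (mx mA).inter (measurableSet_le measurable_const mx.abs)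
  rw [map_measureReal_apply mΦ mS] at h1
  have e : Φ ⁻¹' {f : Sp d | f.1 x ∈ A ∧ c ≤ |f.1 x|} = {s | F s x ∈ A ∧ c ≤ |F s x|} := by
    ext s
    simp only [mem_preimage, mem_setOf_eq, v1]
  rw [e] at h1
  exact h1

end

end Pool.Agent.U39.SZ
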