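import Pool.Agent.U39.SZ.P

/-!
Stationary systems of functions on the line: moments (project SZ, helper39).
-/

set_option autoImplicit false

namespace Pool.Agent.U39.SZ

open Pool.Agent.H159R3.NV MeasureTheory Filter Topology Set Nat

variable {S : Type*} [MeasurableSpace S] {P : Measure S} {ι : Type*} [Fintype ι]

/-- a family of random smooth functions `u j 0` with the derivatives `u j n`, stationary under the
measure preserving maps `θ a`, with uniformly bounded second moments of all derivatives -/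
structure Sys (P : Measure S) (θ : ℝ → S → S) (u : ι → ℕ → S → ℝ → ℝ) (b : ℝ) : Prop where
  mp : ∀ a, MeasurePreserving (θ a) P P
  meas : ∀ j n t, Measurable fun s => u j n s t
  der : ∀ j n s t, HasDerivAt (u j n s) (u j (n + 1) s t) t
  cov : ∀ j n a s t, u j n (θ a s) t = u j n s (t + a)
  b0 : 0 ≤ b
  bd : ∀ n t, ∫⁻ s, ∑ j, ENNReal.ofReal (u j n s t ^ 2) ∂P ≤ ENNReal.ofReal b

variable {θ : ℝ → S → S} {u : ι → ℕ → S → ℝ → ℝ} {b : ℝ}

lemma Sys.cont (h : Sys P θ u b) (j : ι) (n : ℕ) (s : S) : Continuous (u j n s) :=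
  continuous_iff_continuousAt.2 fun t => (h.der j n s t).continuousAt

lemma Sys.joint (h : Sys P θ u b) (j : ι) (n : ℕ) :
    Measurable fun p : ℝ × S => u j n p.2 p.1 :=
  measurable_uncurry_of_continuous_of_measurable (u := fun t s => u j n s t)
    (fun s => h.cont j n s) (h.meas j n)

lemma Sys.l1 [IsProbabilityMeasure P] (h : Sys P θ u b) (j : ι) (n : ℕ) (t : ℝ) :
    ∫⁻ s, ENNReal.ofReal |u j n s t| ∂P ≤ 1 + ENNReal.ofReal b := by
  have h1 : ∀ s, ENNReal.ofReal |u j n s t| ≤
      1 + ∑ j, ENNReal.ofReal (u j n s t ^ 2) := by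
    intro s
    have h2 : |u j n s t| ≤ 1 + u j n s t ^ 2 := by
      nlinarith [sq_nonneg (|u j n s t| - 1), sq_abs (u j n s t), abs_nonneg (u j n s t)]
    calc ENNReal.ofReal |u j n s t| ≤ ENNReal.ofReal (1 + u j n s t ^ 2) :=
          ENNReal.ofReal_le_ofReal h2
      _ = 1 + ENNReal.ofReal (u j n s t ^ 2) := by
          rw [ENNReal.ofReal_add zero_le_one (sq_nonneg _), ENNReal.ofReal_one]
      _ ≤ _ := by
          gcongr
          exact Finset.single_le_sum (f := fun j => ENNReal.ofReal (u j n s t ^ 2))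
            (fun _ _ => bot_le) (Finset.mem_univ j)
  calc ∫⁻ s, ENNReal.ofReal |u j n s t| ∂P
      ≤ ∫⁻ s, (1 + ∑ j, ENNReal.ofReal (u j n s t ^ 2)) ∂P := lintegral_mono h1
    _ = 1 + ∫⁻ s, ∑ j, ENNReal.ofReal (u j n s t ^ 2) ∂P := by
        rw [lintegral_add_left measurable_const]
        simp
    _ ≤ _ := by gcongr; exact h.bd n t

/-- the majorant -/
noncomputable def Mj (u : ι → ℕ → S → ℝ → ℝ) (j : ι) (r : ℕ) (n : ℕ) (s : S) : ℝ :=
  |u j n s 0| + ∫ x in Icc (-(r : ℝ)) r, |u j (n + 1) s x|

lemma Mj_bound (h : Sys P θ u b) (j : ι) (r n : ℕ) (s : S) {x : ℝ} (hx : |x| ≤ (r : ℝ)) :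
    |u j n s x| ≤ Mj u j r n s := by
  have c := h.cont j (n + 1) s
  have h1 : ∫ y in (0 : ℝ)..x, u j (n + 1) s y = u j n s x - u j n s 0 :=
    intervalIntegral.integral_eq_sub_of_hasDerivAt (fun y _ => h.der j n s y)
      (c.intervalIntegrable _ _)
  have h2 : |∫ y in (0 : ℝ)..x, u j (n + 1) s y| ≤ ∫ y in Icc (-(r : ℝ)) r, |u j (n + 1) s y| := by
    have h3 := intervalIntegral.norm_integral_le_integral_norm_uIoc (a := 0) (b := x)
      (f := u j (n + 1) s) (μ := volume)
    simp only [Real.norm_eq_abs] at h3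
    refine h3.trans ?_
    refine setIntegral_mono_set (c.abs.continuousOn.integrableOn_compact isCompact_Icc)
      (ae_of_all _ fun y => abs_nonneg _) ?_
    refine HasSubset.Subset.eventuallyLE ?_
    intro y hy
    rw [abs_le] at hx
    rcases le_total 0 x with h0 | h0
    · rw [uIoc_of_le h0] at hy
      exact ⟨by linarith [hy.1], by linarith [hy.2]⟩
    · rw [uIoc_of_ge h0] at hy
      exact ⟨by linarith [hy.1], by linarith [hy.2]⟩
  rw [h1] at h2
  unfold Mj
  have := abs_sub_abs_le_abs_sub (u j n s x) (u j n s 0)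
  linarith

lemma Mj_int [IsProbabilityMeasure P] (h : Sys P θ u b) (j : ι) (r n : ℕ) :
    Measurable (fun s => ENNReal.ofReal (Mj u j r n s)) ∧
    ∫⁻ s, ENNReal.ofReal (Mj u j r n s) ∂P ≤
      (1 + ENNReal.ofReal b) * (1 + ENNReal.ofReal (2 * r)) := by
  have e : ∀ s, ENNReal.ofReal (Mj u j r n s) = ENNReal.ofReal |u j n s 0| +
      ∫⁻ x in Icc (-(r : ℝ)) r, ENNReal.ofReal |u j (n + 1) s x| := by
    intro s
    unfold Mj
    rw [ENNReal.ofReal_add (abs_nonneg _) (integral_nonneg fun _ => abs_nonneg _),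
      ofReal_integral_eq_lintegral_ofReal
        ((h.cont j (n + 1) s).abs.continuousOn.integrableOn_compact isCompact_Icc)
        (ae_of_all _ fun _ => abs_nonneg _)]
  have mj : Measurable fun p : S × ℝ => ENNReal.ofReal |u j (n + 1) p.1 p.2| :=
    (((h.joint j (n + 1)).comp measurable_swap).abs).ennreal_ofReal
  have m2 : Measurable fun s => ∫⁻ x in Icc (-(r : ℝ)) r, ENNReal.ofReal |u j (n + 1) s x| :=
    mj.lintegral_prod_right'
  simp only [e]
  refine ⟨(h.meas j n 0).abs.ennreal_ofReal.add m2, ?_⟩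
  rw [lintegral_add_right _ m2]
  have h2 : ∫⁻ s, (∫⁻ x in Icc (-(r : ℝ)) r, ENNReal.ofReal |u j (n + 1) s x|) ∂P ≤
      (1 + ENNReal.ofReal b) * ENNReal.ofReal (2 * r) := by
    rw [lintegral_lintegral_swap mj.aemeasurable]
    calc ∫⁻ x in Icc (-(r : ℝ)) r, (∫⁻ s, ENNReal.ofReal |u j (n + 1) s x| ∂P)
        ≤ ∫⁻ _ in Icc (-(r : ℝ)) r, (1 + ENNReal.ofReal b) :=
          lintegral_mono fun x => h.l1 j (n + 1) x
      _ = _ := by
          rw [lintegral_const, Measure.restrict_apply_univ, Real.volume_Icc]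
          congr 2
          ring
  calc _ ≤ (1 + ENNReal.ofReal b) + (1 + ENNReal.ofReal b) * ENNReal.ofReal (2 * r) :=
        add_le_add (h.l1 j n 0) h2
    _ = _ := by ring

lemma Sys.good [IsProbabilityMeasure P] (h : Sys P θ u b) :
    ∀ᵐ s ∂P, ∀ j, Good (fun n => u j n s) := by
  have key : ∀ (j : ι) (r k : ℕ), ∀ᵐ s ∂P,
      Summable fun n => Mj u j r (n + k) s * (r : ℝ) ^ n / n ! := by
    intro j r k
    have hm := fun n => (Mj_int h j r (n + k)).1
    have hi := fun n => (Mj_int h j r (n + k)).2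
    have hfin : ∫⁻ s, ∑' n, ENNReal.ofReal (Mj u j r (n + k) s) *
        ENNReal.ofReal ((r : ℝ) ^ n / n !) ∂P < ⊤ := by
      rw [lintegral_tsum fun n => ((hm n).mul_const _).aemeasurable]
      calc ∑' n, ∫⁻ s, ENNReal.ofReal (Mj u j r (n + k) s) * ENNReal.ofReal ((r : ℝ) ^ n / n !) ∂P
          ≤ ∑' n, (1 + ENNReal.ofReal b) * (1 + ENNReal.ofReal (2 * r)) *
              ENNReal.ofReal ((r : ℝ) ^ n / n !) := by
            refine ENNReal.tsum_le_tsum fun n => ?_
            rw [lintegral_mul_const _ (hm n)]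
            exact mul_le_mul_left (hi n) _
        _ = (1 + ENNReal.ofReal b) * (1 + ENNReal.ofReal (2 * r)) *
              ENNReal.ofReal (Real.exp r) := by
            rw [ENNReal.tsum_mul_left, ← ENNReal.ofReal_tsum_of_nonneg (fun n => by positivity)
              (Real.summable_pow_div_factorial _), Real.exp_eq_exp_ℝ, NormedSpace.exp_eq_tsum_div]
        _ < ⊤ := by
            refine ENNReal.mul_lt_top (ENNReal.mul_lt_top ?_ ?_) ENNReal.ofReal_lt_top
            · exact ENNReal.add_lt_top.2 ⟨ENNReal.one_lt_top, ENNReal.ofReal_lt_top⟩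
            · exact ENNReal.add_lt_top.2 ⟨ENNReal.one_lt_top, ENNReal.ofReal_lt_top⟩
    have hae := ae_lt_top (Measurable.ennreal_tsum fun n => (hm n).mul_const _) hfin.ne
    filter_upwards [hae] with s hs
    have h1 := ENNReal.summable_toReal hs.ne
    refine h1.congr fun n => ?_
    have hM0 : 0 ≤ Mj u j r (n + k) s := by
      unfold Mj
      have : 0 ≤ ∫ x in Icc (-(r : ℝ)) r, |u j (n + k + 1) s x| :=
        integral_nonneg fun _ => abs_nonneg _
      positivity
    rw [ENNReal.toReal_mul, ENNReal.toReal_ofReal hM0, ENNReal.toReal_ofReal (by positivity),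
      mul_div_assoc]
  have key' : ∀ᵐ s ∂P, ∀ (j : ι) (r k : ℕ),
      Summable fun n => Mj u j r (n + k) s * (r : ℝ) ^ n / n ! := by
    rw [ae_all_iff]
    intro j
    rw [ae_all_iff]
    intro r
    rw [ae_all_iff]
    exact key j r
  filter_upwards [key'] with s hs j
  refine ⟨fun n x => h.der j n s x, fun r k => ⟨fun n => Mj u j r (n + k) s, fun n x hx => ?_,
    hs j r k⟩⟩
  exact Mj_bound h j r (n + k) s hx

/-- the mean of the weight is at most one -/
lemma Wt_int (h : Sys P θ u b) [IsProbabilityMeasure P] (R : ℝ) :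
    Measurable (fun s => ∫⁻ θ in Ioc 0 (2 * Real.pi),
      Wt (fun j n => u j n s) b (circleMap 0 R θ).re (circleMap 0 R θ).im) ∧
    ∫⁻ s, ENNReal.ofReal (2 * Real.pi)⁻¹ * (∫⁻ θ in Ioc 0 (2 * Real.pi),
      Wt (fun j n => u j n s) b (circleMap 0 R θ).re (circleMap 0 R θ).im) ∂P ≤ 1 := by
  have hb := h.b0
  have cc := continuous_circleMap 0 R
  have mre : Measurable fun p : S × ℝ => (circleMap 0 R p.2).re :=
    (Complex.continuous_re.comp cc).measurable.comp measurable_snd
  have mim : Measurable fun p : S × ℝ => (circleMap 0 R p.2).im :=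
    (Complex.continuous_im.comp cc).measurable.comp measurable_snd
  have mW : Measurable fun p : S × ℝ => Wt (fun j n => u j n p.1) b (circleMap 0 R p.2).re
      (circleMap 0 R p.2).im := by
    unfold Wt
    refine Measurable.mul ?_ ?_
    · exact ((Real.measurable_exp.comp (mim.abs.const_mul (-2))).div_const _).ennreal_ofReal
    · refine Measurable.const_add (Measurable.mul ?_ ?_) 1
      · exact (Real.measurable_exp.comp mim.abs).ennreal_ofReal
      · refine Finset.measurable_fun_sum _ fun j _ => Measurable.ennreal_tsum fun n => ?_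
        have ma : Measurable fun p : S × ℝ =>
            ENNReal.ofReal (|(circleMap 0 R p.2).im| ^ n / n !) :=
          ((mim.abs.pow_const n).div_const _).ennreal_ofReal
        have mb0 : Measurable fun p : S × ℝ => u j n p.1 (circleMap 0 R p.2).re :=
          (h.joint j n).comp (mre.prodMk measurable_fst)
        have mb : Measurable fun p : S × ℝ =>
            ENNReal.ofReal (u j n p.1 (circleMap 0 R p.2).re ^ 2) :=
          (mb0.pow_const 2).ennreal_ofReal
        exact ma.mul mb
  have hW : ∀ x y : ℝ, ∫⁻ s, Wt (fun j n => u j n s) b x y ∂P ≤ 1 := by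
    intro x y
    have e1 : ∫⁻ s, Wt (fun j n => u j n s) b x y ∂P =
        ENNReal.ofReal (Real.exp (-2 * |y|) / (1 + b)) * (1 + ENNReal.ofReal (Real.exp |y|) *
          ∑' n, ENNReal.ofReal (|y| ^ n / n !) * ∫⁻ s, ∑ j, ENNReal.ofReal (u j n s x ^ 2) ∂P) := by
      have m1 : ∀ j n, Measurable fun s => ENNReal.ofReal (|y| ^ n / n !) *
          ENNReal.ofReal (u j n s x ^ 2) := fun j n =>
        (((h.meas j n x).pow_const 2).ennreal_ofReal).const_mul _
      have m2 : Measurable fun s => ∑ j, ∑' n, ENNReal.ofReal (|y| ^ n / n !) *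
          ENNReal.ofReal (u j n s x ^ 2) :=
        Finset.measurable_fun_sum _ fun j _ => Measurable.ennreal_tsum fun n => m1 j n
      unfold Wt
      rw [lintegral_const_mul _ ((m2.const_mul _).const_add 1),
        lintegral_add_left measurable_const, lintegral_const_mul _ m2]
      congr 2
      · simp
      · congr 1
        have e2 : ∀ s, ∑ j, ∑' n, ENNReal.ofReal (|y| ^ n / n !) *
            ENNReal.ofReal (u j n s x ^ 2) = ∑' n, ENNReal.ofReal (|y| ^ n / n !) *
            ∑ j, ENNReal.ofReal (u j n s x ^ 2) := by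
          intro s
          simp only [Finset.mul_sum]
          exact (Summable.tsum_finsetSum fun j _ => ENNReal.summable).symm
        simp only [e2]
        rw [lintegral_tsum fun n => ((Finset.measurable_fun_sum _ fun j _ =>
          ((h.meas j n x).pow_const 2).ennreal_ofReal).const_mul _).aemeasurable]
        congr 1
        funext n
        rw [lintegral_const_mul _ (Finset.measurable_fun_sum _ fun j _ =>
          ((h.meas j n x).pow_const 2).ennreal_ofReal)]
    rw [e1]
    have e3 : ∑' n, ENNReal.ofReal (|y| ^ n / n !) *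
        ∫⁻ s, ∑ j, ENNReal.ofReal (u j n s x ^ 2) ∂P ≤
        ENNReal.ofReal (Real.exp |y|) * ENNReal.ofReal b := by
      calc _ ≤ ∑' n, ENNReal.ofReal (|y| ^ n / n !) * ENNReal.ofReal b :=
            ENNReal.tsum_le_tsum fun n => mul_le_mul_right (h.bd n x) _
        _ = _ := by
            rw [ENNReal.tsum_mul_right, ← ENNReal.ofReal_tsum_of_nonneg (fun n => by positivity)
              (Real.summable_pow_div_factorial _), Real.exp_eq_exp_ℝ, NormedSpace.exp_eq_tsum_div]
    calc _ ≤ ENNReal.ofReal (Real.exp (-2 * |y|) / (1 + b)) * (1 + ENNReal.ofReal (Real.exp |y|) *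
          (ENNReal.ofReal (Real.exp |y|) * ENNReal.ofReal b)) := by gcongr
      _ = ENNReal.ofReal (Real.exp (-2 * |y|) / (1 + b) *
            (1 + Real.exp |y| * (Real.exp |y| * b))) := by
          rw [ENNReal.ofReal_mul (by positivity), ENNReal.ofReal_add zero_le_one (by positivity),
            ENNReal.ofReal_mul (by positivity), ENNReal.ofReal_mul (by positivity),
            ENNReal.ofReal_one]
      _ ≤ ENNReal.ofReal 1 := by
          refine ENNReal.ofReal_le_ofReal ?_
          have h1 : Real.exp (-2 * |y|) = (Real.exp |y| * Real.exp |y|)⁻¹ := by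
            rw [← Real.exp_add, ← Real.exp_neg]
            congr 1; ring
          have h2 : 1 ≤ Real.exp |y| := Real.one_le_exp (abs_nonneg _)
          rw [h1, div_mul_eq_mul_div, div_le_one (by positivity)]
          have h3 : 0 < Real.exp |y| * Real.exp |y| := by positivity
          rw [mul_add, mul_one]
          have h4 : (Real.exp |y| * Real.exp |y|)⁻¹ * (Real.exp |y| * (Real.exp |y| * b)) = b := by
            field_simp
          rw [h4]
          have h5 : (Real.exp |y| * Real.exp |y|)⁻¹ ≤ 1 := by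
            refine inv_le_one_of_one_le₀ ?_
            nlinarith
          linarith
      _ = 1 := ENNReal.ofReal_one
  refine ⟨mW.lintegral_prod_right', ?_⟩
  rw [lintegral_const_mul _ mW.lintegral_prod_right', lintegral_lintegral_swap mW.aemeasurable]
  calc _ ≤ ENNReal.ofReal (2 * Real.pi)⁻¹ * ∫⁻ _ in Ioc 0 (2 * Real.pi), 1 := by
        gcongr with t
        exact hW (circleMap 0 R t).re (circleMap 0 R t).im
    _ = 1 := by
        rw [lintegral_const, Measure.restrict_apply_univ, Real.volume_Ioc, one_mul, sub_zero,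
          ← ENNReal.ofReal_mul (by positivity), inv_mul_cancel₀ (by positivity), ENNReal.ofReal_one]

end Pool.Agent.U39.SZ
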