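import Pool.Agent.U39.SZ.C

/-!
Jensen's inequality for one sample path (project SZ, helper39).
-/

set_option autoImplicit false

namespace Pool.Agent.U39.SZ

open Pool.Agent.H159R3.NV Finset Set

/-- the number of cells of `[a, a + 1)` which contain a zero of `f` -/
noncomputable def cnt (M : ℕ) (f : ℝ → ℝ) (a : ℝ) : ℝ :=
  ∑ i ∈ range M, ({x : ℝ | ∃ t ∈ Ico ((i : ℝ) / M) (((i : ℝ) + 1) / M), f (t + x) = 0}).indicator
    (fun _ => (1 : ℝ)) a

/-- the shifts -/
def shZ (p : Bool × ℕ × ℕ) : ℤ := if p.1 then (p.2.1 : ℤ) else -((p.2.1 : ℤ) + 1)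

lemma shZ_inj {p q : Bool × ℕ × ℕ} (h : shZ p = shZ q) : p.1 = q.1 ∧ p.2.1 = q.2.1 := by
  obtain ⟨b, k, i⟩ := p
  obtain ⟨b', k', i'⟩ := q
  unfold shZ at h
  cases b <;> cases b' <;> simp at h ⊢ <;> omega

lemma path_count {f : ℝ → ℝ} {g : ℂ → ℂ} (hg : Differentiable ℂ g)
    (hfg : ∀ t : ℝ, g t = (f t : ℂ)) (h0 : f 0 ≠ 0) {N M : ℕ} (hN : 1 ≤ N) (hM : 0 < M) :
    ∑ k ∈ range N, Real.log (N / (k + 1)) * (cnt M f k + cnt M f (-((k : ℝ) + 1))) ≤
      L g N - Real.log |f 0| := by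
  classical
  have hNp : (0 : ℝ) < N := by exact_mod_cast hN
  have hMp : (0 : ℝ) < M := by exact_mod_cast hM
  set J : Finset (Bool × ℕ × ℕ) := ((univ : Finset Bool) ×ˢ (range N ×ˢ range M)).filter
    fun p => ∃ t ∈ Ico ((p.2.2 : ℝ) / M) (((p.2.2 : ℝ) + 1) / M), f (t + shZ p) = 0 with hJ
  have hch : ∀ p : Bool × ℕ × ℕ, ∃ t : ℝ, p ∈ J →
      t ∈ Ico ((p.2.2 : ℝ) / M) (((p.2.2 : ℝ) + 1) / M) ∧ f (t + shZ p) = 0 := by
    intro p
    by_cases hp : p ∈ J
    · obtain ⟨t, ht, h1⟩ := (mem_filter.1 hp).2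
      exact ⟨t, fun _ => ⟨ht, h1⟩⟩
    · exact ⟨0, fun h => absurd h hp⟩
  choose t ht using hch
  have t0 : ∀ p ∈ J, 0 ≤ t p := fun p hp => le_trans (by positivity) (ht p hp).1.1
  have t1 : ∀ p ∈ J, t p < 1 := fun p hp => by
    refine (ht p hp).1.2.trans_le ?_
    rw [div_le_one hMp]
    have := (mem_range.1 (mem_product.1 (mem_product.1 (mem_filter.1 hp).1).2).2)
    exact_mod_cast this
  have kN : ∀ p ∈ J, (p.2.1 : ℝ) + 1 ≤ N := fun p hp => by
    have := (mem_range.1 (mem_product.1 (mem_product.1 (mem_filter.1 hp).1).2).1)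
    exact_mod_cast this
  set z : Bool × ℕ × ℕ → ℂ := fun p => ((t p + shZ p : ℝ) : ℂ) with hz
  have habs : ∀ p ∈ J, |t p + shZ p| ≤ (p.2.1 : ℝ) + 1 := by
    intro p hp
    have a0 := t0 p hp
    have a1 := t1 p hp
    have k0 : (0 : ℝ) ≤ (p.2.1 : ℝ) := by positivity
    rw [abs_le]
    unfold shZ
    split_ifs <;> push_cast <;> constructor <;> linarith
  have inj : Set.InjOn z (J : Set (Bool × ℕ × ℕ)) := by
    intro p hp q hq hpq
    have e1 : t p + shZ p = t q + shZ q := by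
      simp only [hz] at hpq
      exact_mod_cast hpq
    have fl : ∀ p ∈ J, ⌊t p + shZ p⌋ = shZ p := fun p hp => by
      rw [Int.floor_add_intCast, Int.floor_eq_zero_iff.2 ⟨t0 p hp, t1 p hp⟩, zero_add]
    have e2 : shZ p = shZ q := by rw [← fl p hp, ← fl q hq, e1]
    have e3 : t p = t q := by rw [e2] at e1; linarith
    have h1 := (cell_iff hM (t0 p hp) p.2.2).1 (ht p hp).1
    have h2 := (cell_iff hM (t0 q hq) q.2.2).1 (ht q hq).1
    obtain ⟨e4, e5⟩ := shZ_inj e2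
    have e6 : p.2.2 = q.2.2 := by rw [← h1, ← h2, e3]
    exact Prod.ext e4 (Prod.ext e5 e6)
  have hzero : ∀ p ∈ J, g (z p) = 0 := fun p hp => by
    simp only [hz]
    rw [hfg, (ht p hp).2, Complex.ofReal_zero]
  have hne : ∀ p ∈ J, z p ≠ 0 := fun p hp h => by
    have h1 := hzero p hp
    have h2 := hfg 0
    rw [h, ← Complex.ofReal_zero, h2] at h1
    exact h0 (by exact_mod_cast h1)
  have hg0 : g 0 ≠ 0 := by
    have h2 := hfg 0
    rw [Complex.ofReal_zero] at h2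
    rw [h2]
    exact_mod_cast h0
  have hnorm : ∀ p, ‖z p‖ = |t p + shZ p| := fun p => by
    simp only [hz]
    rw [Complex.norm_real, Real.norm_eq_abs]
  have key := jensen_finset (J.image z) hNp hg hg0
    (fun w hw => by
      obtain ⟨p, hp, rfl⟩ := mem_image.1 hw
      exact hzero p hp)
    (fun w hw => by
      obtain ⟨p, hp, rfl⟩ := mem_image.1 hw
      rw [hnorm]
      exact (habs p hp).trans (kN p hp))
  rw [sum_image inj] at key
  have h1 : ‖g 0‖ = |f 0| := by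
    have h2 := hfg 0
    rw [Complex.ofReal_zero] at h2
    rw [h2, Complex.norm_real, Real.norm_eq_abs]
  rw [h1] at key
  refine le_trans ?_ key
  have h2 : ∑ p ∈ J, Real.log (N / ((p.2.1 : ℝ) + 1)) ≤ ∑ p ∈ J, Real.log (N / ‖z p‖) := by
    refine sum_le_sum fun p hp => ?_
    have hpos : 0 < ‖z p‖ := norm_pos_iff.2 (hne p hp)
    refine Real.log_le_log (by positivity) ?_
    refine div_le_div_of_nonneg_left hNp.le hpos ?_
    rw [hnorm]
    exact habs p hp
  refine le_trans (le_of_eq ?_) h2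
  rw [hJ, sum_filter, sum_product, Fintype.sum_bool, sum_product, sum_product, ← sum_add_distrib]
  refine sum_congr rfl fun k _ => ?_
  rw [mul_add]
  unfold cnt
  rw [mul_sum, mul_sum]
  congr 1
  · refine sum_congr rfl fun i _ => ?_
    simp only [indicator_apply, mem_setOf_eq, shZ, if_true, Int.cast_natCast]
    split_ifs <;> simp
  · refine sum_congr rfl fun i _ => ?_
    simp only [indicator_apply, mem_setOf_eq, shZ, Bool.false_eq_true, if_false, Int.cast_neg,
      Int.cast_add, Int.cast_natCast, Int.cast_one]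
    split_ifs <;> simp

end Pool.Agent.U39.SZ
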