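import Pool.Agent.U39.SZ.J
import Pool.Agent.U39.SZ.G

/-!
Polynomials in entire functions (project SZ, helper39).
-/

set_option autoImplicit false

namespace Pool.Agent.U39.SZ

open Pool.Agent.H159R3.NV Finset Real Nat MeasureTheory

variable {ι : Type*} [Fintype ι]

/-- the value of a real polynomial at a complex point -/
noncomputable def pv (Q : MvPolynomial ι ℝ) (g : ι → ℂ) : ℂ :=
  MvPolynomial.eval₂ (algebraMap ℝ ℂ) g Q

lemma pv_eq (Q : MvPolynomial ι ℝ) (g : ι → ℂ) :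
    pv Q g = ∑ d ∈ Q.support, ((MvPolynomial.coeff d Q : ℝ) : ℂ) * ∏ i, g i ^ d i :=
  MvPolynomial.eval₂_eq' _ _ _

lemma pv_real (Q : MvPolynomial ι ℝ) (x : ι → ℝ) :
    pv Q (fun i => (x i : ℂ)) = (MvPolynomial.eval x Q : ℂ) := by
  rw [pv_eq, MvPolynomial.eval_eq']
  push_cast
  rfl

lemma pv_diff (Q : MvPolynomial ι ℝ) {g : ι → ℂ → ℂ} (hg : ∀ i, Differentiable ℂ (g i)) :
    Differentiable ℂ (fun z => pv Q (fun i => g i z)) := by
  simp only [pv_eq]
  refine Differentiable.fun_sum fun d _ => ?_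
  refine Differentiable.const_mul ?_ _
  exact Differentiable.fun_finsetProd fun i _ => (hg i).pow _

/-- a constant -/
noncomputable def CQ (Q : MvPolynomial ι ℝ) : ℝ := 1 + ∑ d ∈ Q.support, |Q.coeff d|

omit [Fintype ι] in
lemma CQ_ge (Q : MvPolynomial ι ℝ) : 1 ≤ CQ Q := by
  have : 0 ≤ ∑ d ∈ Q.support, |Q.coeff d| := sum_nonneg fun _ _ => abs_nonneg _
  unfold CQ
  linarith

lemma pv_norm (Q : MvPolynomial ι ℝ) {m : ℕ} (hQ : Q.totalDegree ≤ m) (g : ι → ℂ) :
    ‖pv Q g‖ ≤ CQ Q * Real.sqrt (1 + ∑ i, ‖g i‖ ^ 2) ^ m := by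
  set ρ := Real.sqrt (1 + ∑ i, ‖g i‖ ^ 2) with hρ
  have hs : 0 ≤ ∑ i, ‖g i‖ ^ 2 := sum_nonneg fun _ _ => sq_nonneg _
  have h1 : 1 ≤ ρ := by
    rw [hρ]
    exact Real.one_le_sqrt.2 (by linarith)
  have h2 : ∀ i, ‖g i‖ ≤ ρ := fun i => by
    rw [hρ]
    refine Real.le_sqrt_of_sq_le ?_
    have := single_le_sum (f := fun i => ‖g i‖ ^ 2) (fun _ _ => sq_nonneg _) (mem_univ i)
    linarith
  rw [pv_eq]
  calc ‖∑ d ∈ Q.support, ((MvPolynomial.coeff d Q : ℝ) : ℂ) * ∏ i, g i ^ d i‖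
      ≤ ∑ d ∈ Q.support, |Q.coeff d| * ρ ^ m := by
        refine (norm_sum_le _ _).trans (sum_le_sum fun d hd => ?_)
        rw [norm_mul, Complex.norm_real, Real.norm_eq_abs]
        refine mul_le_mul_of_nonneg_left ?_ (abs_nonneg _)
        rw [norm_prod]
        have h3 : ∏ i, ‖g i ^ d i‖ ≤ ∏ i, ρ ^ d i :=
          prod_le_prod (fun _ _ => norm_nonneg _) fun i _ => by
            rw [norm_pow]
            exact pow_le_pow_left₀ (norm_nonneg _) (h2 i) _
        refine h3.trans ?_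
        rw [prod_pow_eq_pow_sum]
        refine pow_le_pow_right₀ h1 ?_
        have h4 := MvPolynomial.le_totalDegree hd
        rw [Finsupp.sum_fintype _ _ (fun _ => rfl)] at h4
        exact h4.trans hQ
    _ = (∑ d ∈ Q.support, |Q.coeff d|) * ρ ^ m := by rw [sum_mul]
    _ ≤ CQ Q * ρ ^ m := by
        refine mul_le_mul_of_nonneg_right ?_ (by positivity)
        unfold CQ
        linarith

lemma log_pv (Q : MvPolynomial ι ℝ) {m : ℕ} (hQ : Q.totalDegree ≤ m) (g : ι → ℂ) (y : ℝ) {b : ℝ}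
    (hb : 0 ≤ b) : Real.log ‖pv Q g‖ ≤ Real.log (CQ Q) + m / 2 * (2 * |y| + Real.log (1 + b) +
      (1 + ∑ i, ‖g i‖ ^ 2) * Real.exp (-2 * |y|) / (1 + b)) := by
  have hs : 0 ≤ ∑ i, ‖g i‖ ^ 2 := sum_nonneg fun _ _ => sq_nonneg _
  have hC := CQ_ge Q
  have p1 : 0 ≤ Real.log (CQ Q) := Real.log_nonneg hC
  have p2 : 0 ≤ Real.log (1 + b) := Real.log_nonneg (by linarith)
  have p3 : 0 < (1 + ∑ i, ‖g i‖ ^ 2) * Real.exp (-2 * |y|) / (1 + b) := by positivity
  by_cases h0 : pv Q g = 0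
  · rw [h0, norm_zero, Real.log_zero]
    positivity
  · have h1 := Real.log_le_log (norm_pos_iff.2 h0) (pv_norm Q hQ g)
    have q1 : 0 < Real.sqrt (1 + ∑ i, ‖g i‖ ^ 2) := Real.sqrt_pos.2 (by linarith)
    rw [Real.log_mul (by linarith) (by positivity), Real.log_pow, Real.log_sqrt (by linarith)] at h1
    have h2 : Real.log (1 + ∑ i, ‖g i‖ ^ 2) = 2 * |y| + Real.log (1 + b) +
        Real.log ((1 + ∑ i, ‖g i‖ ^ 2) * Real.exp (-2 * |y|) / (1 + b)) := by
      rw [Real.log_div (by positivity) (by positivity), Real.log_mul (by positivity) (by positivity),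
        Real.log_exp]
      ring
    have h3 := Real.log_le_sub_one_of_pos p3
    have h4 : Real.log (1 + ∑ i, ‖g i‖ ^ 2) ≤ 2 * |y| + Real.log (1 + b) +
        (1 + ∑ i, ‖g i‖ ^ 2) * Real.exp (-2 * |y|) / (1 + b) := by rw [h2]; linarith
    refine h1.trans ?_
    have h5 : (m : ℝ) * (Real.log (1 + ∑ i, ‖g i‖ ^ 2) / 2) =
        m / 2 * Real.log (1 + ∑ i, ‖g i‖ ^ 2) := by ring
    rw [h5]
    have : (0 : ℝ) ≤ m / 2 := by positivity
    nlinarith [mul_le_mul_of_nonneg_left h4 this]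

/-- the weight -/
noncomputable def wt (g : ι → ℂ → ℂ) (b : ℝ) (z : ℂ) : ℝ :=
  (1 + ∑ i, ‖g i z‖ ^ 2) * Real.exp (-2 * |z.im|) / (1 + b)

lemma wt_cont {g : ι → ℂ → ℂ} (hg : ∀ i, Differentiable ℂ (g i)) (b : ℝ) :
    Continuous (wt g b) := by
  unfold wt
  have h1 : ∀ i, Continuous (g i) := fun i => (hg i).continuous
  have h2 : Continuous fun z : ℂ => |z.im| := Complex.continuous_im.abs
  refine Continuous.div_const ?_ _
  refine Continuous.mul ?_ ?_
  · exact continuous_const.add (continuous_finsetSum _ fun i _ => (h1 i).norm.pow 2)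
  · exact Real.continuous_exp.comp (continuous_const.mul h2)

lemma L_bound (Q : MvPolynomial ι ℝ) {m : ℕ} (hQ : Q.totalDegree ≤ m) {g : ι → ℂ → ℂ}
    (hg : ∀ i, Differentiable ℂ (g i)) {b : ℝ} (hb : 0 ≤ b) {R : ℝ} (hR : 0 ≤ R) :
    L (fun z => pv Q (fun i => g i z)) R ≤ Real.log (CQ Q) + m / 2 * (4 * R / π +
      Real.log (1 + b) + Real.circleAverage (wt g b) 0 R) := by
  have c1 : Continuous fun z : ℂ => |z.im| := Complex.continuous_im.abs
  have c2 := wt_cont hg b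
  have i1 : CircleIntegrable (fun z : ℂ => |z.im|) 0 R := c1.continuousOn.circleIntegrable hR
  have i2 : CircleIntegrable (wt g b) 0 R := c2.continuousOn.circleIntegrable hR
  have h1 : L (fun z => pv Q (fun i => g i z)) R ≤ Real.circleAverage (fun z : ℂ =>
      Real.log (CQ Q) + m / 2 * (2 * |z.im| + Real.log (1 + b) + wt g b z)) 0 R := by
    unfold L
    refine Real.circleAverage_mono (ci_log (mero_of_diff (pv_diff Q hg)) R) ?_ fun z _ => ?_
    · refine Continuous.continuousOn ?_ |>.circleIntegrable hR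
      exact continuous_const.add (continuous_const.mul (((continuous_const.mul c1).add
        continuous_const).add c2))
    · exact log_pv Q hQ (fun i => g i z) z.im hb
  refine h1.trans (le_of_eq ?_)
  have e1 : (fun z : ℂ => Real.log (CQ Q) + m / 2 * (2 * |z.im| + Real.log (1 + b) + wt g b z)) =
      fun z : ℂ => (Real.log (CQ Q) + m / 2 * Real.log (1 + b)) +
        ((m : ℝ) • |z.im| + ((m : ℝ) / 2) • wt g b z) := by
    funext z
    simp only [smul_eq_mul]
    ring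
  have k1 : Continuous fun z : ℂ => (m : ℝ) • |z.im| := c1.const_smul (m : ℝ)
  have k2 : Continuous fun z : ℂ => ((m : ℝ) / 2) • wt g b z := c2.const_smul ((m : ℝ) / 2)
  have k3 : Continuous fun z : ℂ => (m : ℝ) • |z.im| + ((m : ℝ) / 2) • wt g b z := k1.add k2
  have j1 : CircleIntegrable (fun z : ℂ => (m : ℝ) • |z.im|) 0 R :=
    k1.continuousOn.circleIntegrable hR
  have j2 : CircleIntegrable (fun z : ℂ => ((m : ℝ) / 2) • wt g b z) 0 R :=
    k2.continuousOn.circleIntegrable hR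
  have j3 : CircleIntegrable (fun z : ℂ => (m : ℝ) • |z.im| + ((m : ℝ) / 2) • wt g b z) 0 R :=
    k3.continuousOn.circleIntegrable hR
  have j0 : CircleIntegrable (fun _ : ℂ => Real.log (CQ Q) + m / 2 * Real.log (1 + b)) 0 R :=
    continuous_const.continuousOn.circleIntegrable hR
  rw [e1, Real.circleAverage_fun_add j0 j3, Real.circleAverage_const,
    Real.circleAverage_fun_add j1 j2, Real.circleAverage_fun_smul, Real.circleAverage_fun_smul,
    avg_im R hR]
  simp only [smul_eq_mul]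
  ring

/-- upper bound for the weight -/
noncomputable def Wt (a : ι → ℕ → ℝ → ℝ) (b x y : ℝ) : ENNReal :=
  ENNReal.ofReal (Real.exp (-2 * |y|) / (1 + b)) * (1 + ENNReal.ofReal (Real.exp |y|) *
    ∑ i, ∑' n, ENNReal.ofReal (|y| ^ n / n !) * ENNReal.ofReal (a i n x ^ 2))

lemma wt_le {a : ι → ℕ → ℝ → ℝ} (ha : ∀ i, Good (a i)) {b : ℝ} (hb : 0 ≤ b) {R : ℝ} (hR : 0 ≤ R) :
    ENNReal.ofReal (Real.circleAverage (wt (fun i => ext (a i) 0) b) 0 R) ≤
      ENNReal.ofReal (2 * π)⁻¹ * ∫⁻ θ in Set.Ioc 0 (2 * π),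
        Wt a b (circleMap 0 R θ).re (circleMap 0 R θ).im := by
  have c2 := wt_cont (fun i => (ha i).diff) b
  have hpi := Real.pi_pos
  have c3 : Continuous fun θ : ℝ => wt (fun i => ext (a i) 0) b (circleMap 0 R θ) :=
    c2.comp (continuous_circleMap 0 R)
  have w0 : ∀ z, 0 ≤ wt (fun i => ext (a i) 0) b z := fun z => by
    unfold wt
    have : 0 ≤ ∑ i, ‖ext (a i) 0 z‖ ^ 2 := sum_nonneg fun _ _ => sq_nonneg _
    positivity
  rw [Real.circleAverage_def, smul_eq_mul, ENNReal.ofReal_mul (by positivity),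
    intervalIntegral.integral_of_le (by positivity)]
  gcongr
  rw [ofReal_integral_eq_lintegral_ofReal (c3.integrableOn_Ioc) (ae_of_all _ fun θ => w0 _)]
  refine lintegral_mono fun θ => ?_
  set z := circleMap 0 R θ with hz
  unfold wt Wt
  have e1 : (1 + ∑ i, ‖ext (a i) 0 z‖ ^ 2) * Real.exp (-2 * |z.im|) / (1 + b) =
      Real.exp (-2 * |z.im|) / (1 + b) * (1 + ∑ i, ‖ext (a i) 0 z‖ ^ 2) := by ring
  rw [e1, ENNReal.ofReal_mul (by positivity),
    ENNReal.ofReal_add zero_le_one (sum_nonneg fun _ _ => sq_nonneg _), ENNReal.ofReal_one,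
    ENNReal.ofReal_sum_of_nonneg fun _ _ => sq_nonneg _]
  gcongr
  rw [mul_sum]
  refine sum_le_sum fun i _ => ?_
  have := (ha i).growth z
  have e2 : ∀ n, ENNReal.ofReal (|z.im| ^ n / n ! * a i n z.re ^ 2) =
      ENNReal.ofReal (|z.im| ^ n / n !) * ENNReal.ofReal (a i n z.re ^ 2) := fun n =>
    ENNReal.ofReal_mul (by positivity)
  simpa only [e2] using this

end Pool.Agent.U39.SZ
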