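import Pool.Agent.U39.SZ.M

/-!
The mean number of zeros of a stationary system on the line (project SZ, helper39).
-/

set_option autoImplicit false

namespace Pool.Agent.U39.SZ

open Pool.Agent.H159R3.NV MeasureTheory Filter Topology Set Nat

variable {S : Type*} [MeasurableSpace S] {P : Measure S} {ι : Type*} [Fintype ι]

/-- the polynomial `Q` in the functions `u j 0` -/
noncomputable def hF (u : ι → ℕ → S → ℝ → ℝ) (Q : MvPolynomial ι ℝ) (s : S) (t : ℝ) : ℝ :=
  MvPolynomial.eval (fun j => u j 0 s t) Q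

/-- the function is not identically zero -/
def AA (u : ι → ℕ → S → ℝ → ℝ) (Q : MvPolynomial ι ℝ) : Set S := {s | ∃ t, hF u Q s t ≠ 0}

variable {θ : ℝ → S → S} {u : ι → ℕ → S → ℝ → ℝ} {b : ℝ}

lemma hF_meas (h : Sys P θ u b) (Q : MvPolynomial ι ℝ) (t : ℝ) :
    Measurable fun s => hF u Q s t := by
  unfold hF
  simp only [MvPolynomial.eval_eq']
  refine Finset.measurable_fun_sum _ fun d _ => ?_
  refine Measurable.const_mul ?_ _
  exact Finset.measurable_fun_prod _ fun j _ => (h.meas j 0 t).pow_const _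

lemma hF_cont (h : Sys P θ u b) (Q : MvPolynomial ι ℝ) (s : S) : Continuous (hF u Q s) := by
  have e : hF u Q s = fun t => ∑ d ∈ Q.support, MvPolynomial.coeff d Q *
      ∏ j, u j 0 s t ^ d j := by
    funext t
    unfold hF
    rw [MvPolynomial.eval_eq']
  rw [e]
  refine continuous_finsetSum _ fun d _ => ?_
  refine Continuous.mul continuous_const ?_
  exact continuous_finsetProd _ fun j _ => (h.cont j 0 s).pow _

lemma hF_cov (h : Sys P θ u b) (Q : MvPolynomial ι ℝ) (a : ℝ) (s : S) (t : ℝ) :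
    hF u Q (θ a s) t = hF u Q s (t + a) := by
  unfold hF
  simp only [h.cov]

lemma AA_meas (h : Sys P θ u b) (Q : MvPolynomial ι ℝ) : MeasurableSet (AA u Q) := by
  have e : AA u Q = ⋃ q : ℚ, {s | hF u Q s (q : ℝ) ≠ 0} := by
    ext s
    simp only [AA, mem_setOf_eq, mem_iUnion]
    constructor
    · rintro ⟨t, ht⟩
      have ho : IsOpen {t | hF u Q s t ≠ 0} := isOpen_ne_fun (hF_cont h Q s) continuous_const
      obtain ⟨q, hq⟩ := Rat.denseRange_cast (𝕜 := ℝ) |>.exists_mem_open ho ⟨t, ht⟩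
      exact ⟨q, hq⟩
    · rintro ⟨q, hq⟩
      exact ⟨q, hq⟩
  rw [e]
  exact MeasurableSet.iUnion fun q => (measurableSet_eq_fun (hF_meas h Q _) measurable_const).compl

lemma AA_inv (h : Sys P θ u b) (Q : MvPolynomial ι ℝ) (a : ℝ) (s : S) :
    θ a s ∈ AA u Q ↔ s ∈ AA u Q := by
  simp only [AA, mem_setOf_eq, hF_cov h]
  constructor
  · rintro ⟨t, ht⟩
    exact ⟨_, ht⟩
  · rintro ⟨t, ht⟩
    exact ⟨t - a, by rwa [sub_add_cancel]⟩

lemma cn_cnt (h : Sys P θ u b) (Q : MvPolynomial ι ℝ) (M : ℕ) (a : ℝ) (s : S) :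
    cn M (hF u Q) (θ a s) = cnt M (hF u Q s) a := by
  unfold cn cnt
  refine Finset.sum_congr rfl fun i _ => ?_
  by_cases hh : ∃ t ∈ Ico ((i : ℝ) / M) (((i : ℝ) + 1) / M), hF u Q s (t + a) = 0
  · rw [indicator_of_mem (show a ∈ {x : ℝ | ∃ t ∈ Ico ((i : ℝ) / M) (((i : ℝ) + 1) / M),
      hF u Q s (t + x) = 0} from hh), indicator_of_mem]
    obtain ⟨t, ht, h0⟩ := hh
    exact ⟨t, ht, by rw [hF_cov h]; exact h0⟩
  · rw [indicator_of_notMem (show a ∉ {x : ℝ | ∃ t ∈ Ico ((i : ℝ) / M) (((i : ℝ) + 1) / M),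
      hF u Q s (t + x) = 0} from hh), indicator_of_notMem]
    rintro ⟨t, ht, h0⟩
    exact hh ⟨t, ht, by rw [hF_cov h] at h0; exact h0⟩

/-- the analytic extension of a sample path -/
noncomputable def gg (u : ι → ℕ → S → ℝ → ℝ) (Q : MvPolynomial ι ℝ) (s : S) (z : ℂ) : ℂ :=
  pv Q (fun j => ext (fun n => u j n s) 0 z)

lemma gg_diff {Q : MvPolynomial ι ℝ} {s : S} (hs : ∀ j, Good (fun n => u j n s)) :
    Differentiable ℂ (gg u Q s) := pv_diff Q fun j => (hs j).diff

lemma gg_real {Q : MvPolynomial ι ℝ} {s : S} (hs : ∀ j, Good (fun n => u j n s)) (t : ℝ) :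
    gg u Q s t = (hF u Q s t : ℂ) := by
  unfold gg hF
  simp only [(hs _).ext_real]
  exact pv_real Q _

lemma null_zeros {Q : MvPolynomial ι ℝ} {s : S} (hs : ∀ j, Good (fun n => u j n s))
    (hA : s ∈ AA u Q) : ∀ᵐ t : ℝ, hF u Q s t ≠ 0 := by
  obtain ⟨t0, ht0⟩ := hA
  have han : AnalyticOnNhd ℝ (fun t : ℝ => gg u Q s (t : ℂ)) univ := by
    intro t _
    have h1 : AnalyticAt ℝ (gg u Q s) (t : ℂ) := ((gg_diff hs).analyticAt _).restrictScalars
    exact h1.comp (Complex.ofRealCLM.analyticAt t)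
  have hx : (fun t : ℝ => gg u Q s (t : ℂ)) t0 ≠ 0 := by
    simp only [gg_real hs]
    exact_mod_cast ht0
  have h2 := han.preimage_zero_mem_codiscrete hx
  have h3 := ae_restrict_le_codiscreteWithin (μ := (volume : Measure ℝ)) (U := univ)
    MeasurableSet.univ
  rw [Measure.restrict_univ] at h3
  have h4 := h3 h2
  filter_upwards [h4] with t ht
  have h5 : gg u Q s (t : ℂ) ≠ 0 := by simpa using ht
  rw [gg_real hs] at h5
  exact_mod_cast h5

/-- the value at a point is almost surely not zero on the event `AA` -/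
lemma null_at [IsProbabilityMeasure P] (h : Sys P θ u b) (Q : MvPolynomial ι ℝ) :
    P (AA u Q ∩ {s | hF u Q s 0 = 0}) = 0 := by
  have mA := AA_meas h Q
  have mj : Measurable fun p : S × ℝ => hF u Q p.1 p.2 :=
    (measurable_uncurry_of_continuous_of_measurable (u := fun t s => hF u Q s t)
      (fun s => hF_cont h Q s) (hF_meas h Q)).comp measurable_swap
  have hst : ∀ t : ℝ, P (AA u Q ∩ {s | hF u Q s t = 0}) = P (AA u Q ∩ {s | hF u Q s 0 = 0}) := by
    intro t
    have m0 : MeasurableSet (AA u Q ∩ {s | hF u Q s 0 = 0}) :=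
      mA.inter (measurableSet_eq_fun (hF_meas h Q _) measurable_const)
    rw [← (h.mp t).measure_preimage m0.nullMeasurableSet]
    congr 1
    ext s
    simp only [mem_inter_iff, mem_setOf_eq, mem_preimage, AA_inv h, hF_cov h, zero_add]
  have mE : MeasurableSet {p : S × ℝ | p.1 ∈ AA u Q ∧ hF u Q p.1 p.2 = 0} :=
    (measurable_fst mA).inter (measurableSet_eq_fun mj measurable_const)
  have key : (P.prod (volume.restrict (Icc (0 : ℝ) 1)))
      {p : S × ℝ | p.1 ∈ AA u Q ∧ hF u Q p.1 p.2 = 0} = 0 := by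
    rw [Measure.measure_prod_null mE]
    filter_upwards [h.good] with s hs
    by_cases hA : s ∈ AA u Q
    · have h1 := null_zeros hs hA
      have h2 : (Prod.mk s ⁻¹' {p : S × ℝ | p.1 ∈ AA u Q ∧ hF u Q p.1 p.2 = 0}) ⊆
          {t | ¬ hF u Q s t ≠ 0} := by
        intro t ht
        simp only [mem_preimage, mem_setOf_eq] at ht
        simp only [mem_setOf_eq, not_not]
        exact ht.2
      refine measure_mono_null h2 ?_
      exact ae_restrict_of_ae h1
    · have : (Prod.mk s ⁻¹' {p : S × ℝ | p.1 ∈ AA u Q ∧ hF u Q p.1 p.2 = 0}) = ∅ := by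
        ext t
        simp [hA]
      rw [this]
      simp
  rw [Measure.prod_apply_symm mE] at key
  have e : ∀ t : ℝ, P ((fun x => (x, t)) ⁻¹' {p : S × ℝ | p.1 ∈ AA u Q ∧ hF u Q p.1 p.2 = 0}) =
      P (AA u Q ∩ {s | hF u Q s 0 = 0}) := fun t => by
    rw [← hst t]
    rfl
  simp only [e] at key
  rw [lintegral_const, Measure.restrict_apply_univ, Real.volume_Icc] at key
  simpa using key

/-- the basic inequality for one sample path -/
lemma path_bound {Q : MvPolynomial ι ℝ} {m : ℕ} (hQ : Q.totalDegree ≤ m) (hb : 0 ≤ b) {s : S}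
    (hs : ∀ j, Good (fun n => u j n s)) {ε : ℝ} (hε : 0 < ε) (h1 : ε ≤ |hF u Q s 0|) {N M : ℕ}
    (hN : 1 ≤ N) (hM : 0 < M) :
    ENNReal.ofReal (∑ k ∈ Finset.range N, Real.log (N / (k + 1)) *
      (cnt M (hF u Q s) k + cnt M (hF u Q s) (-((k : ℝ) + 1)))) ≤
    ENNReal.ofReal (Real.log (CQ Q) + m / 2 * (4 * N / Real.pi + Real.log (1 + b)) +
      |Real.log ε|) + ENNReal.ofReal (m / 2) * (ENNReal.ofReal (2 * Real.pi)⁻¹ *
        ∫⁻ θ in Ioc 0 (2 * Real.pi), Wt (fun j n => u j n s) b (circleMap 0 N θ).re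
          (circleMap 0 N θ).im) := by
  have h0 : hF u Q s 0 ≠ 0 := by
    intro h
    rw [h, abs_zero] at h1
    linarith
  have p1 := path_count (gg_diff (Q := Q) hs) (gg_real hs) h0 hN hM
  have hN0 : (0 : ℝ) ≤ N := by positivity
  have p2 := L_bound Q hQ (g := fun j => ext (fun n => u j n s) 0) (fun j => (hs j).diff) hb hN0
  have p3 := wt_le (a := fun j n => u j n s) hs hb hN0
  have p4 : Real.log ε ≤ Real.log |hF u Q s 0| := Real.log_le_log hε h1
  have e1 : L (gg u Q s) N = L (fun z => pv Q fun i => ext (fun n => u i n s) 0 z) N := rfl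
  rw [e1] at p1
  have p5 : ∑ k ∈ Finset.range N, Real.log (N / (k + 1)) *
      (cnt M (hF u Q s) k + cnt M (hF u Q s) (-((k : ℝ) + 1))) ≤
      (Real.log (CQ Q) + m / 2 * (4 * N / Real.pi + Real.log (1 + b)) + |Real.log ε|) +
      m / 2 * Real.circleAverage (wt (fun j => ext (fun n => u j n s) 0) b) 0 N := by
    have h5 := neg_le_abs (Real.log ε)
    have e2 : (m : ℝ) / 2 * (4 * N / Real.pi + Real.log (1 + b) +
        Real.circleAverage (wt (fun j => ext (fun n => u j n s) 0) b) 0 N) =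
        m / 2 * (4 * N / Real.pi + Real.log (1 + b)) +
        m / 2 * Real.circleAverage (wt (fun j => ext (fun n => u j n s) 0) b) 0 N := by ring
    rw [e2] at p2
    linarith
  refine (ENNReal.ofReal_le_ofReal p5).trans ?_
  refine ENNReal.ofReal_add_le.trans ?_
  gcongr
  rw [ENNReal.ofReal_mul (by positivity)]
  gcongr

end Pool.Agent.U39.SZ
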