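import Pool.Agent.U39.SZ.T

/-!
The mean number of zeros of a stationary system on the line, the bound (project SZ, helper39).
-/

set_option autoImplicit false

namespace Pool.Agent.U39.SZ

open Pool.Agent.H159R3.NV MeasureTheory Filter Topology Set Nat

variable {S : Type*} [MeasurableSpace S] {P : Measure S} {ι : Type*} [Fintype ι]
variable {θ : ℝ → S → S} {u : ι → ℕ → S → ℝ → ℝ} {b : ℝ}

lemma cn_integrable [IsFiniteMeasure P] (h : Sys P θ u b) (Q : MvPolynomial ι ℝ) (M : ℕ) :
    Integrable (cn M (hF u Q)) P := by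
  refine Integrable.mono' (integrable_const (M : ℝ))
    (cn_meas (hF_meas h Q) (hF_cont h Q) M).aestronglyMeasurable (ae_of_all _ fun s => ?_)
  rw [Real.norm_eq_abs, abs_of_nonneg (cn_nonneg _ _ _)]
  exact cn_le _ _ _

lemma cn_comp_integrable [IsFiniteMeasure P] (h : Sys P θ u b) (Q : MvPolynomial ι ℝ) (M : ℕ)
    (a : ℝ) : Integrable (fun s => cnt M (hF u Q s) a) P := by
  have e : (fun s => cnt M (hF u Q s) a) = (cn M (hF u Q)) ∘ θ a := by
    funext s
    exact (cn_cnt h Q M a s).symm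
  rw [e]
  exact (h.mp a).integrable_comp_of_integrable (cn_integrable h Q M)

lemma cnt_nonneg (M : ℕ) (f : ℝ → ℝ) (a : ℝ) : 0 ≤ cnt M f a :=
  Finset.sum_nonneg fun _ _ => indicator_nonneg (fun _ _ => zero_le_one) _

lemma cnt_le (M : ℕ) (f : ℝ → ℝ) (a : ℝ) : cnt M f a ≤ M := by
  unfold cnt
  refine (Finset.sum_le_sum (g := fun _ => (1 : ℝ)) fun i _ => ?_).trans (by simp)
  exact indicator_le_self' (fun _ _ => zero_le_one) a

lemma stat_A [IsFiniteMeasure P] (h : Sys P θ u b) (Q : MvPolynomial ι ℝ) (M : ℕ) (a : ℝ) :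
    ∫ s in AA u Q, cnt M (hF u Q s) a ∂P = ∫ s in AA u Q, cn M (hF u Q) s ∂P := by
  have mA := AA_meas h Q
  rw [← integral_indicator mA, ← integral_indicator mA]
  have e : (AA u Q).indicator (fun s => cnt M (hF u Q s) a) =
      ((AA u Q).indicator (cn M (hF u Q))) ∘ θ a := by
    funext s
    by_cases hs : s ∈ AA u Q
    · rw [Function.comp_apply, indicator_of_mem hs, indicator_of_mem ((AA_inv h Q a s).2 hs),
        cn_cnt h]
    · rw [Function.comp_apply, indicator_of_notMem hs,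
        indicator_of_notMem (fun h1 => hs ((AA_inv h Q a s).1 h1))]
  rw [e]
  have hm : Measurable ((AA u Q).indicator (cn M (hF u Q))) :=
    (cn_meas (hF_meas h Q) (hF_cont h Q) M).indicator mA
  have h1 := integral_map (μ := P) (h.mp a).measurable.aemeasurable
    (f := (AA u Q).indicator (cn M (hF u Q))) hm.aestronglyMeasurable
  rw [(h.mp a).map_eq] at h1
  exact h1.symm

lemma stat_B [IsFiniteMeasure P] (h : Sys P θ u b) (Q : MvPolynomial ι ℝ) (M : ℕ) (a : ℝ)
    {B : Set S} (mB : MeasurableSet B) (hB : B ⊆ AA u Q) :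
    (∫ s in AA u Q, cn M (hF u Q) s ∂P) - M * P.real (AA u Q \ B) ≤
      ∫ s in B, cnt M (hF u Q s) a ∂P := by
  have mA := AA_meas h Q
  have hi := cn_comp_integrable h Q M a
  have h1 : ∫ s in AA u Q, cnt M (hF u Q s) a ∂P = (∫ s in B, cnt M (hF u Q s) a ∂P) +
      ∫ s in AA u Q \ B, cnt M (hF u Q s) a ∂P := by
    rw [← setIntegral_union disjoint_sdiff_right (mA.diff mB) hi.integrableOn hi.integrableOn,
      union_diff_cancel hB]
  have h2 : ∫ s in AA u Q \ B, cnt M (hF u Q s) a ∂P ≤ M * P.real (AA u Q \ B) := by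
    calc _ ≤ ∫ s in AA u Q \ B, (M : ℝ) ∂P := by
          refine setIntegral_mono hi.integrableOn (integrable_const _).integrableOn fun s => ?_
          exact cnt_le _ _ _
      _ = _ := by
          rw [setIntegral_const, smul_eq_mul, mul_comm]
  rw [← stat_A h Q M a, h1]
  linarith

/-- the basic inequality -/
lemma basic [IsProbabilityMeasure P] (h : Sys P θ u b) {Q : MvPolynomial ι ℝ} {m : ℕ}
    (hQ : Q.totalDegree ≤ m) {ε : ℝ} (hε : 0 < ε) {N M : ℕ} (hN : 1 ≤ N) (hM : 0 < M) :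
    2 * WW N * ((∫ s in AA u Q, cn M (hF u Q) s ∂P) -
      M * P.real (AA u Q \ (AA u Q ∩ {s | ε ≤ |hF u Q s 0|}))) ≤
    (Real.log (CQ Q) + m / 2 * (4 * N / Real.pi + Real.log (1 + b)) + |Real.log ε|) *
      P.real (AA u Q) + m / 2 := by
  obtain ⟨B, hBdef⟩ : ∃ B, B = AA u Q ∩ {s | ε ≤ |hF u Q s 0|} := ⟨_, rfl⟩
  rw [← hBdef]
  have mA := AA_meas h Q
  have mB : MeasurableSet B := by
    rw [hBdef]
    exact mA.inter (measurableSet_le measurable_const (hF_meas h Q 0).abs)
  have hBA : B ⊆ AA u Q := by rw [hBdef]; exact inter_subset_left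
  obtain ⟨ν, hν⟩ : ∃ ν, ν = (∫ s in AA u Q, cn M (hF u Q) s ∂P) - M * P.real (AA u Q \ B) :=
    ⟨_, rfl⟩
  obtain ⟨K, hK⟩ : ∃ K, K = Real.log (CQ Q) + m / 2 * (4 * N / Real.pi + Real.log (1 + b)) +
    |Real.log ε| := ⟨_, rfl⟩
  rw [← hν, ← hK]
  have hst := fun a => stat_B h Q M a mB hBA
  rw [← hν] at hst
  have hlog : ∀ k ∈ Finset.range N, 0 ≤ Real.log ((N : ℝ) / (k + 1)) := by
    intro k hk
    refine Real.log_nonneg ?_
    rw [le_div_iff₀ (by positivity), one_mul]
    have := Finset.mem_range.1 hk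
    exact_mod_cast this
  obtain ⟨sg, hsg⟩ : ∃ sg : S → ℝ, sg = fun s => ∑ k ∈ Finset.range N, Real.log ((N : ℝ) / (k + 1)) *
      (cnt M (hF u Q s) k + cnt M (hF u Q s) (-((k : ℝ) + 1))) := ⟨_, rfl⟩
  have hci := fun a => cn_comp_integrable h Q M a
  have hsi : Integrable sg P := by
    rw [hsg]
    refine integrable_finsetSum _ fun k _ => ?_
    exact ((hci k).add (hci (-((k : ℝ) + 1)))).const_mul _
  have hs0 : ∀ s, 0 ≤ sg s := by
    intro s
    rw [hsg]
    exact Finset.sum_nonneg fun k hk => mul_nonneg (hlog k hk)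
      (add_nonneg (cnt_nonneg _ _ _) (cnt_nonneg _ _ _))
  -- lower bound
  have lower : 2 * WW N * ν ≤ ∫ s in B, sg s ∂P := by
    have e : ∫ s in B, sg s ∂P = ∑ k ∈ Finset.range N, Real.log ((N : ℝ) / (k + 1)) *
        ((∫ s in B, cnt M (hF u Q s) k ∂P) + ∫ s in B, cnt M (hF u Q s) (-((k : ℝ) + 1)) ∂P) := by
      rw [hsg]
      have i1 : ∀ k ∈ Finset.range N, Integrable (fun s => Real.log ((N : ℝ) / (k + 1)) *
          (cnt M (hF u Q s) k + cnt M (hF u Q s) (-((k : ℝ) + 1)))) (P.restrict B) := fun k _ =>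
        (((hci k).add (hci (-((k : ℝ) + 1)))).const_mul _).integrableOn
      rw [integral_finsetSum _ i1]
      refine Finset.sum_congr rfl fun k _ => ?_
      rw [integral_const_mul, integral_add (hci k).integrableOn (hci _).integrableOn]
    rw [e]
    unfold WW
    rw [mul_assoc, mul_comm (2 : ℝ), Finset.sum_mul, Finset.sum_mul]
    refine Finset.sum_le_sum fun k hk => ?_
    have h1 := hst k
    have h2 := hst (-((k : ℝ) + 1))
    have h3 := mul_le_mul_of_nonneg_left (add_le_add h1 h2) (hlog k hk)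
    linarith
  refine lower.trans ?_
  -- upper bound
  have hK0 : 0 ≤ K := by
    have h1 : 0 ≤ Real.log (CQ Q) := Real.log_nonneg (CQ_ge Q)
    have h2 : 0 ≤ Real.log (1 + b) := Real.log_nonneg (by linarith [h.b0])
    rw [hK]
    positivity
  obtain ⟨wW, mW⟩ : ∃ wW : S → ENNReal, wW = fun s =>
      ENNReal.ofReal (2 * Real.pi)⁻¹ * ∫⁻ θ in Ioc 0 (2 * Real.pi),
        Wt (fun j n => u j n s) b (circleMap 0 N θ).re (circleMap 0 N θ).im := ⟨_, rfl⟩
  have hW1 := Wt_int h (P := P) (N : ℝ)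
  have mwW : Measurable wW := by
    rw [mW]
    exact hW1.1.const_mul _
  have hle : ∀ᵐ s ∂(P.restrict B), ENNReal.ofReal (sg s) ≤
      ENNReal.ofReal K + ENNReal.ofReal (m / 2) * wW s := by
    rw [ae_restrict_iff' mB]
    filter_upwards [h.good] with s hs hsB
    have hsB' : ε ≤ |hF u Q s 0| := by rw [hBdef] at hsB; exact hsB.2
    have := path_bound hQ h.b0 hs hε hsB' hN hM
    rw [hsg, hK, mW]
    exact this
  have h5 : ENNReal.ofReal (∫ s in B, sg s ∂P) ≤
      ENNReal.ofReal (K * P.real (AA u Q) + m / 2) := by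
    rw [ofReal_integral_eq_lintegral_ofReal hsi.integrableOn (ae_of_all _ hs0)]
    calc _ ≤ ∫⁻ s in B, (ENNReal.ofReal K + ENNReal.ofReal (m / 2) * wW s) ∂P :=
          lintegral_mono_ae hle
      _ = ENNReal.ofReal K * P B + ENNReal.ofReal (m / 2) * ∫⁻ s in B, wW s ∂P := by
          rw [lintegral_add_left measurable_const, lintegral_const, Measure.restrict_apply_univ,
            lintegral_const_mul _ mwW]
      _ ≤ ENNReal.ofReal K * P (AA u Q) + ENNReal.ofReal (m / 2) * 1 := by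
          gcongr
          refine (setLIntegral_le_lintegral _ _).trans ?_
          rw [mW]
          exact hW1.2
      _ = _ := by
          rw [mul_one, ENNReal.ofReal_add (by positivity) (by positivity),
            ENNReal.ofReal_mul hK0, ofReal_measureReal]
  exact (ENNReal.ofReal_le_ofReal_iff (by positivity)).1 h5

/-- the limit of large radii -/
lemma lim_N {ν p c d : ℝ} {m : ℕ} (hp : 0 ≤ p)
    (h : ∀ N : ℕ, 1 ≤ N → 2 * WW N * ν ≤ (c + m / 2 * (4 * N / Real.pi)) * p + d) :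
    ν ≤ m / Real.pi * p := by
  by_cases hν : ν ≤ 0
  · refine hν.trans ?_
    have := Real.pi_pos
    positivity
  push Not at hν
  have t1 : Tendsto (fun N : ℕ => Real.log N / N) atTop (𝓝 0) :=
    (Real.isLittleO_log_id_atTop.tendsto_div_nhds_zero).comp tendsto_natCast_atTop_atTop
  have t2 : Tendsto (fun N : ℕ => (1 : ℝ) / N) atTop (𝓝 0) := tendsto_one_div_atTop_nhds_zero_nat
  have t3 : Tendsto (fun N : ℕ => (1 - 1 / (N : ℝ) - Real.log N / N) * ν) atTop
      (𝓝 ((1 - 0 - 0) * ν)) := ((t2.const_sub 1).sub t1).mul_const ν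
  have t4 : Tendsto (fun N : ℕ => m / Real.pi * p + (c * p + d) / 2 * (1 / (N : ℝ))) atTop
      (𝓝 (m / Real.pi * p + (c * p + d) / 2 * 0)) := (t2.const_mul _).const_add _
  have key := le_of_tendsto_of_tendsto t3 t4 (by
    filter_upwards [eventually_ge_atTop 1] with N hN
    have hp' : (0 : ℝ) < N := by exact_mod_cast hN
    have h1 := h N hN
    have h2 := mul_le_mul_of_nonneg_right (WW_ge N hN) hν.le
    have h3 : (1 - 1 / (N : ℝ) - Real.log N / N) * ν * (2 * N) =
        2 * (((N : ℝ) - 1 - Real.log N) * ν) := by field_simp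
    have h4 : (m / Real.pi * p + (c * p + d) / 2 * (1 / (N : ℝ))) * (2 * N) =
        (c + m / 2 * (4 * N / Real.pi)) * p + d := by
      have := Real.pi_ne_zero
      field_simp
      ring
    have h5 : (1 - 1 / (N : ℝ) - Real.log N / N) * ν * (2 * N) ≤
        (m / Real.pi * p + (c * p + d) / 2 * (1 / (N : ℝ))) * (2 * N) := by
      rw [h3, h4]
      linarith
    exact le_of_mul_le_mul_right h5 (by positivity))
  simpa using key

/-- the bound for the number of cells -/
lemma cell_bound [IsProbabilityMeasure P] (h : Sys P θ u b) {Q : MvPolynomial ι ℝ} {m : ℕ}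
    (hQ : Q.totalDegree ≤ m) {M : ℕ} (hM : 0 < M) :
    ∫ s in AA u Q, cn M (hF u Q) s ∂P ≤ m / Real.pi * P.real (AA u Q) := by
  have mA := AA_meas h Q
  obtain ⟨δ, hδ⟩ : ∃ δ : ℕ → Set S, δ = fun k : ℕ =>
    AA u Q \ (AA u Q ∩ {s | (1 : ℝ) / (k + 1) ≤ |hF u Q s 0|}) := ⟨_, rfl⟩
  have h1 : ∀ k : ℕ, (∫ s in AA u Q, cn M (hF u Q) s ∂P) - M * P.real (δ k) ≤
      m / Real.pi * P.real (AA u Q) := by
    intro k
    have hε : (0 : ℝ) < 1 / (k + 1) := by positivity
    refine lim_N (c := Real.log (CQ Q) + m / 2 * Real.log (1 + b) + |Real.log (1 / (k + 1))|)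
      (d := m / 2) measureReal_nonneg fun N hN => ?_
    have := basic h hQ hε hN hM
    rw [hδ]
    refine this.trans (le_of_eq ?_)
    ring
  have mδ : ∀ k, MeasurableSet (δ k) := fun k => by
    rw [hδ]
    exact mA.diff (mA.inter (measurableSet_le measurable_const (hF_meas h Q 0).abs))
  have anti : Antitone δ := by
    intro k l hkl s hs
    rw [hδ] at hs ⊢
    refine ⟨hs.1, fun h2 => hs.2 ⟨h2.1, ?_⟩⟩
    have h3 : (1 : ℝ) / (l + 1) ≤ 1 / (k + 1) := by
      have : (k : ℝ) ≤ l := by exact_mod_cast hkl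
      gcongr
    exact h3.trans h2.2
  have hint : ⋂ k, δ k ⊆ AA u Q ∩ {s | hF u Q s 0 = 0} := by
    intro s hs
    rw [mem_iInter] at hs
    have hA : s ∈ AA u Q := by
      have := hs 0
      rw [hδ] at this
      exact this.1
    refine ⟨hA, ?_⟩
    by_contra hne
    obtain ⟨k, hk⟩ := exists_nat_one_div_lt (abs_pos.2 hne)
    have := hs k
    rw [hδ] at this
    exact this.2 ⟨hA, hk.le⟩
  have hnull : P (⋂ k, δ k) = 0 := measure_mono_null hint (null_at h Q)
  have t1 : Tendsto (fun k => P (δ k)) atTop (𝓝 0) := by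
    have := tendsto_measure_iInter_atTop (μ := P) (fun k => (mδ k).nullMeasurableSet) anti
      ⟨0, measure_ne_top _ _⟩
    rwa [hnull] at this
  have t2 : Tendsto (fun k => P.real (δ k)) atTop (𝓝 0) := by
    have := (ENNReal.tendsto_toReal ENNReal.zero_ne_top).comp t1
    rw [ENNReal.toReal_zero] at this
    exact this
  have t3 : Tendsto (fun k => (∫ s in AA u Q, cn M (hF u Q) s ∂P) - M * P.real (δ k)) atTop
      (𝓝 ((∫ s in AA u Q, cn M (hF u Q) s ∂P) - M * 0)) := (t2.const_mul _).const_sub _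
  have := le_of_tendsto' t3 h1
  simpa using this

/-- the mean number of zeros on a unit interval -/
theorem zero_bound [IsProbabilityMeasure P] (h : Sys P θ u b) {Q : MvPolynomial ι ℝ} {m : ℕ}
    (hQ : Q.totalDegree ≤ m) :
    ∫⁻ s in AA u Q, ((zs (hF u Q s)).encard : ENNReal) ∂P ≤
      ENNReal.ofReal (m / Real.pi) * P (AA u Q) := by
  have hm := hF_meas h Q
  have hc := hF_cont h Q
  calc _ ≤ ∫⁻ s in AA u Q, liminf (fun M : ℕ => ENNReal.ofReal (cn (M + 1) (hF u Q) s)) atTop ∂P :=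
        lintegral_mono fun s => encard_le _ _
    _ ≤ liminf (fun M : ℕ => ∫⁻ s in AA u Q, ENNReal.ofReal (cn (M + 1) (hF u Q) s) ∂P) atTop :=
        lintegral_liminf_le fun M => (cn_meas hm hc _).ennreal_ofReal
    _ ≤ ENNReal.ofReal (m / Real.pi) * P (AA u Q) := by
        refine liminf_le_of_le (by isBoundedDefault) fun c hc' => ?_
        obtain ⟨M, hM⟩ := hc'.exists
        refine hM.trans ?_
        rw [← ofReal_integral_eq_lintegral_ofReal (cn_integrable h Q _).integrableOn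
          (ae_of_all _ fun s => cn_nonneg _ _ _)]
        refine (ENNReal.ofReal_le_ofReal (cell_bound h hQ (Nat.succ_pos M))).trans (le_of_eq ?_)
        have := Real.pi_pos
        rw [ENNReal.ofReal_mul (by positivity), ofReal_measureReal]

end Pool.Agent.U39.SZ
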