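import Pool.Agent.U39.SZ.U

/-!
Invariant events and intervals of arbitrary length (project SZ, helper39).
-/

set_option autoImplicit false

namespace Pool.Agent.U39.SZ

open Pool.Agent.H159R3.NV MeasureTheory Filter Topology Set

variable {S : Type*} [MeasurableSpace S] {P : Measure S} {ι : Type*} [Fintype ι]
variable {θ : ℝ → S → S} {u : ι → ℕ → S → ℝ → ℝ} {b : ℝ}

/-- the conditioned system -/
lemma Sys.cond [IsProbabilityMeasure P] (h : Sys P θ u b) {I : Set S} (mI : MeasurableSet I)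
    (hI : ∀ a s, θ a s ∈ I ↔ s ∈ I) (h0 : P I ≠ 0) :
    Sys ((P I)⁻¹ • P.restrict I) θ u ((P I)⁻¹.toReal * b) := by
  refine ⟨fun a => ?_, h.meas, h.der, h.cov, mul_nonneg ENNReal.toReal_nonneg h.b0, fun n t => ?_⟩
  · have h1 := (h.mp a).restrict_preimage mI
    have h2 : θ a ⁻¹' I = I := by
      ext s
      exact hI a s
    rw [h2] at h1
    exact h1.smul_measure _
  · rw [lintegral_smul_measure, ENNReal.ofReal_mul ENNReal.toReal_nonneg,
      ENNReal.ofReal_toReal (ENNReal.inv_ne_top.2 h0), smul_eq_mul]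
    gcongr
    exact (setLIntegral_le_lintegral _ _).trans (h.bd n t)

/-- the mean number of zeros on a unit interval, on invariant events -/
theorem zero_bound_inv [IsProbabilityMeasure P] (h : Sys P θ u b) {Q : MvPolynomial ι ℝ} {m : ℕ}
    (hQ : Q.totalDegree ≤ m) {I : Set S} (mI : MeasurableSet I) (hI : ∀ a s, θ a s ∈ I ↔ s ∈ I) :
    ∫⁻ s in I ∩ AA u Q, ((zs (hF u Q s)).encard : ENNReal) ∂P ≤
      ENNReal.ofReal (m / Real.pi) * P (I ∩ AA u Q) := by
  have mA := AA_meas h Q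
  by_cases h0 : P I = 0
  · have h1 : P (I ∩ AA u Q) = 0 := measure_mono_null inter_subset_left h0
    rw [Measure.restrict_eq_zero.2 h1, lintegral_zero_measure]
    exact bot_le
  have hp : IsProbabilityMeasure ((P I)⁻¹ • P.restrict I) := by
    refine ⟨?_⟩
    rw [Measure.smul_apply, Measure.restrict_apply_univ, smul_eq_mul,
      ENNReal.inv_mul_cancel h0 (measure_ne_top _ _)]
  have h1 := zero_bound (h.cond mI hI h0) hQ
  rw [Measure.restrict_smul, lintegral_smul_measure, Measure.smul_apply,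
    Measure.restrict_restrict mA, Measure.restrict_apply mA, smul_eq_mul, smul_eq_mul,
    mul_left_comm, inter_comm (AA u Q) I] at h1
  have h2 : (P I)⁻¹ ≠ 0 := ENNReal.inv_ne_zero.2 (measure_ne_top _ _)
  have h3 : (P I)⁻¹ ≠ ⊤ := ENNReal.inv_ne_top.2 h0
  exact (ENNReal.mul_le_mul_iff_right h2 h3).1 h1

/-- the number of zeros on an interval -/
noncomputable def nz (f : ℝ → ℝ) (a c : ℝ) : ENNReal := ({t | t ∈ Ico a c ∧ f t = 0} : Set ℝ).encard

lemma nz_add (f : ℝ → ℝ) {a c e : ℝ} (h1 : a ≤ c) (h2 : c ≤ e) : nz f a c + nz f c e = nz f a e := by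
  unfold nz
  rw [← ENat.toENNReal_add, ← encard_union_eq]
  · congr 2
    ext t
    simp only [mem_union, mem_setOf_eq, mem_Ico]
    constructor
    · rintro (⟨⟨x1, x2⟩, x3⟩ | ⟨⟨x1, x2⟩, x3⟩)
      · exact ⟨⟨x1, by linarith⟩, x3⟩
      · exact ⟨⟨by linarith, x2⟩, x3⟩
    · rintro ⟨⟨x1, x2⟩, x3⟩
      rcases lt_or_ge t c with h | h
      · exact Or.inl ⟨⟨x1, h⟩, x3⟩
      · exact Or.inr ⟨⟨h, x2⟩, x3⟩
  · rw [Set.disjoint_left]
    rintro t ⟨⟨_, x2⟩, _⟩ ⟨⟨x1, _⟩, _⟩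
    linarith

lemma nz_mono (f : ℝ → ℝ) {a c e : ℝ} (h2 : c ≤ e) : nz f a c ≤ nz f a e := by
  unfold nz
  have : ({t | t ∈ Ico a c ∧ f t = 0} : Set ℝ).encard ≤
      ({t | t ∈ Ico a e ∧ f t = 0} : Set ℝ).encard :=
    encard_le_encard fun t ht => ⟨⟨ht.1.1, ht.1.2.trans_le h2⟩, ht.2⟩
  exact_mod_cast this

lemma nz_sum (f : ℝ → ℝ) {r : ℝ} (hr : 0 ≤ r) (q : ℕ) :
    nz f 0 (q * r) = ∑ k ∈ Finset.range q, nz f (k * r) (k * r + r) := by
  induction q with
  | zero => simp [nz]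
  | succ q ih =>
    rw [Finset.sum_range_succ, ← ih, nz_add f (by positivity) (by linarith)]
    congr 1
    push_cast
    ring

lemma nz_shift (f : ℝ → ℝ) (a c e : ℝ) : nz (fun t => f (t + e)) a c = nz f (a + e) (c + e) := by
  unfold nz
  congr 1
  have : ({t | t ∈ Ico (a + e) (c + e) ∧ f t = 0} : Set ℝ) =
      (fun t => t + e) '' {t | t ∈ Ico a c ∧ f (t + e) = 0} := by
    ext t
    simp only [mem_image, mem_setOf_eq, mem_Ico]
    constructor
    · rintro ⟨⟨x1, x2⟩, x3⟩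
      exact ⟨t - e, ⟨⟨by linarith, by linarith⟩, by rwa [sub_add_cancel]⟩, by ring⟩
    · rintro ⟨t', ⟨⟨x1, x2⟩, x3⟩, rfl⟩
      exact ⟨⟨by linarith, by linarith⟩, x3⟩
  rw [this, (add_left_injective e).encard_image]

/-- measurability for intervals of arbitrary length -/
lemma nz_meas {F : S → ℝ → ℝ} (hm : ∀ t, Measurable fun s => F s t)
    (hc : ∀ s, Continuous (F s)) {a r : ℝ} (hr : 0 < r) :
    Measurable fun s => nz (F s) a (a + r) := by
  have h1 : Measurable fun s => ((zs (fun t => F s (t * r + a))).encard : ENNReal) :=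
    zs_meas (F := fun s t => F s (t * r + a)) (fun t => hm _)
      fun s => (hc s).comp ((continuous_id.mul continuous_const).add continuous_const)
  have h2 : (fun s => nz (F s) a (a + r)) =
      fun s => ((zs (fun t => F s (t * r + a))).encard : ENNReal) := ?_
  · rw [h2]; exact h1
  funext s
  unfold zs nz
  congr 1
  have : ({t | t ∈ Ico a (a + r) ∧ F s t = 0} : Set ℝ) =
      (fun t => t * r + a) '' {t | t ∈ Ico (0 : ℝ) 1 ∧ F s (t * r + a) = 0} := by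
    ext t
    simp only [mem_image, mem_setOf_eq, mem_Ico]
    constructor
    · rintro ⟨⟨x1, x2⟩, x3⟩
      have e : (t - a) / r * r + a = t := by field_simp; ring
      refine ⟨(t - a) / r, ⟨⟨div_nonneg (by linarith) hr.le, ?_⟩, by rwa [e]⟩, e⟩
      rw [div_lt_one hr]
      linarith
    · rintro ⟨t', ⟨⟨x1, x2⟩, x3⟩, rfl⟩
      exact ⟨⟨by nlinarith, by nlinarith⟩, x3⟩
  rw [this, Function.Injective.encard_image]
  intro x y hxy
  have : x * r = y * r := by simpa using hxy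
  exact mul_right_cancel₀ hr.ne' this

lemma st_nz (h : Sys P θ u b) (Q : MvPolynomial ι ℝ) {I : Set S} (mI : MeasurableSet I)
    (hI : ∀ a s, θ a s ∈ I ↔ s ∈ I) (a : ℝ) {r : ℝ} (hr : 0 < r) :
    ∫⁻ s in I ∩ AA u Q, nz (hF u Q s) a (a + r) ∂P = ∫⁻ s in I ∩ AA u Q, nz (hF u Q s) 0 r ∂P := by
  have mA := AA_meas h Q
  have m1 : Measurable fun s => nz (hF u Q s) 0 r := by
    have := nz_meas (a := 0) (hF_meas h Q) (hF_cont h Q) hr
    simpa using this
  rw [← lintegral_indicator (mI.inter mA), ← lintegral_indicator (mI.inter mA)]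
  rw [← (h.mp a).lintegral_comp (f := (I ∩ AA u Q).indicator fun s => nz (hF u Q s) 0 r)
    (m1.indicator (mI.inter mA))]
  refine lintegral_congr fun s => ?_
  by_cases hs : s ∈ I ∩ AA u Q
  · have hs' : θ a s ∈ I ∩ AA u Q := ⟨(hI a s).2 hs.1, (AA_inv h Q a s).2 hs.2⟩
    rw [indicator_of_mem hs, indicator_of_mem hs']
    have e : hF u Q (θ a s) = fun t => hF u Q s (t + a) := funext fun t => hF_cov h Q a s t
    rw [e, nz_shift, zero_add, add_comm r a]
  · have hs' : θ a s ∉ I ∩ AA u Q := fun h1 => hs ⟨(hI a s).1 h1.1, (AA_inv h Q a s).1 h1.2⟩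
    rw [indicator_of_notMem hs, indicator_of_notMem hs']

/-- the bound for intervals of arbitrary length -/
theorem seg_bound [IsProbabilityMeasure P] (h : Sys P θ u b) {Q : MvPolynomial ι ℝ} {m : ℕ}
    (hQ : Q.totalDegree ≤ m) {I : Set S} (mI : MeasurableSet I) (hI : ∀ a s, θ a s ∈ I ↔ s ∈ I)
    {r : ℝ} (hr : 0 < r) :
    ∫⁻ s in I ∩ AA u Q, nz (hF u Q s) 0 r ∂P ≤
      ENNReal.ofReal (m * r / Real.pi) * P (I ∩ AA u Q) := by
  have hm := hF_meas h Q
  have hc := hF_cont h Q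
  obtain ⟨μ, hμ⟩ : ∃ μ, μ = P.restrict (I ∩ AA u Q) := ⟨_, rfl⟩
  have h1 : ∫⁻ s, nz (hF u Q s) 0 1 ∂μ ≤ ENNReal.ofReal (m / Real.pi) * P (I ∩ AA u Q) := by
    rw [hμ]
    exact zero_bound_inv h hQ mI hI
  have hst : ∀ (a : ℝ) {r : ℝ}, 0 < r → ∫⁻ s, nz (hF u Q s) a (a + r) ∂μ =
      ∫⁻ s, nz (hF u Q s) 0 r ∂μ := fun a r hr => by
    rw [hμ]; exact st_nz h Q mI hI a hr
  have hsum : ∀ (q : ℕ) {r : ℝ}, 0 < r → ∫⁻ s, nz (hF u Q s) 0 (q * r) ∂μ =
      q * ∫⁻ s, nz (hF u Q s) 0 r ∂μ := by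
    intro q r hr
    simp only [nz_sum _ hr.le]
    rw [lintegral_finsetSum _ fun k _ => nz_meas hm hc hr]
    simp only [hst _ hr]
    simp
  rw [← hμ]
  have key : ∀ q : ℕ, ∫⁻ s, nz (hF u Q s) 0 r ∂μ ≤
      ENNReal.ofReal (r + 1 / (q + 1)) * ∫⁻ s, nz (hF u Q s) 0 1 ∂μ := by
    intro q
    obtain ⟨n, hn⟩ : ∃ n : ℕ, n = ⌈((q + 1 : ℕ) : ℝ) * r⌉₊ := ⟨_, rfl⟩
    have hn1 : ((q + 1 : ℕ) : ℝ) * r ≤ n := by rw [hn]; exact Nat.le_ceil _
    have hn2 : (n : ℝ) ≤ ((q + 1 : ℕ) : ℝ) * r + 1 := by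
      rw [hn]; exact (Nat.ceil_lt_add_one (by positivity)).le
    have h2 : ((q + 1 : ℕ) : ENNReal) * ∫⁻ s, nz (hF u Q s) 0 r ∂μ ≤
        n * ∫⁻ s, nz (hF u Q s) 0 1 ∂μ := by
      rw [← hsum _ hr, ← hsum _ one_pos]
      refine lintegral_mono fun s => nz_mono _ ?_
      rw [mul_one]
      exact hn1
    have hq : ((q + 1 : ℕ) : ENNReal) ≠ 0 := by exact_mod_cast Nat.succ_ne_zero q
    have hq' : ((q + 1 : ℕ) : ENNReal) ≠ ⊤ := ENNReal.natCast_ne_top _
    refine (ENNReal.mul_le_mul_iff_right hq hq').1 (h2.trans ?_)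
    rw [← mul_assoc]
    gcongr
    have e : ((q + 1 : ℕ) : ENNReal) = ENNReal.ofReal ((q + 1 : ℕ) : ℝ) := by
      rw [ENNReal.ofReal_natCast]
    have e' : (n : ENNReal) = ENNReal.ofReal (n : ℝ) := by
      rw [ENNReal.ofReal_natCast]
    rw [e, e', ← ENNReal.ofReal_mul (by positivity)]
    refine ENNReal.ofReal_le_ofReal (hn2.trans (le_of_eq ?_))
    push_cast
    field_simp
  have t1 : Tendsto (fun q : ℕ => ENNReal.ofReal (r + 1 / (q + 1)) *
      ∫⁻ s, nz (hF u Q s) 0 1 ∂μ) atTop (𝓝 (ENNReal.ofReal (r + 0) *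
        ∫⁻ s, nz (hF u Q s) 0 1 ∂μ)) := by
    refine ENNReal.Tendsto.mul_const ?_ (Or.inl ?_)
    · exact ENNReal.tendsto_ofReal (tendsto_one_div_add_atTop_nhds_zero_nat.const_add r)
    · rw [add_zero]
      exact (ENNReal.ofReal_pos.2 hr).ne'
  rw [add_zero] at t1
  have h3 := ge_of_tendsto' t1 key
  refine h3.trans ?_
  calc _ ≤ ENNReal.ofReal r * (ENNReal.ofReal (m / Real.pi) * P (I ∩ AA u Q)) := by gcongr
    _ = _ := by
      rw [← mul_assoc, ← ENNReal.ofReal_mul hr.le]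
      congr 2
      ring

end Pool.Agent.U39.SZ
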