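import Pool.Agent.U39.SZ.DP
import Pool.Agent.U39.SZ.KW

/-!
Sublevel estimates with derivatives of arbitrary order (project SZ, helper39).
-/

set_option autoImplicit false

namespace Pool.Agent.U39.SZ

open Pool.Agent.H159R3.NV MeasureTheory Filter Topology Set

section chain

variable {S : Type*} [MeasurableSpace S] {P : Measure S}
variable {κ : Type*} [Fintype κ] {D : ℕ → κ → S → ℝ} {C : ℝ}

/-- the inequality for consecutive derivatives -/
def JI (P : Measure S) (D : ℕ → κ → S → ℝ) (C : ℝ) : Prop :=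
  ∀ l k (A : Set ℝ), MeasurableSet A → ∫⁻ s in {s | D l k s ∈ A}, ENNReal.ofReal |D (l + 1) k s| ∂P ≤
    ENNReal.ofReal (C / Real.pi) * volume A

lemma step1 [IsProbabilityMeasure P] (mD : ∀ l k, Measurable (D l k)) (hC : 0 ≤ C)
    (hJ : JI P D C) (l : ℕ) (k : κ) {A : Set ℝ} (mA : MeasurableSet A) (fA : volume A ≠ ⊤) {η : ℝ}
    (hη : 0 < η) :
    P.real {s | D l k s ∈ A ∧ η ≤ |D (l + 1) k s|} ≤ C * volume.real A / (Real.pi * η) := by
  have hp := Real.pi_pos
  have mE : MeasurableSet {s | η ≤ |D (l + 1) k s|} :=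
    measurableSet_le measurable_const (mD (l + 1) k).abs
  have h3 : ENNReal.ofReal η * P {s | D l k s ∈ A ∧ η ≤ |D (l + 1) k s|} ≤
      ENNReal.ofReal (C / Real.pi) * volume A := by
    calc _ = ∫⁻ s in {s | D l k s ∈ A} ∩ {s | η ≤ |D (l + 1) k s|}, ENNReal.ofReal η ∂P := by
          rw [lintegral_const, Measure.restrict_apply_univ]
          rfl
      _ ≤ ∫⁻ s in {s | D l k s ∈ A} ∩ {s | η ≤ |D (l + 1) k s|},
            ENNReal.ofReal |D (l + 1) k s| ∂P := by
          refine setLIntegral_mono' (((mD l k) mA).inter mE) fun s hs => ?_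
          exact ENNReal.ofReal_le_ofReal hs.2
      _ ≤ ∫⁻ s in {s | D l k s ∈ A}, ENNReal.ofReal |D (l + 1) k s| ∂P :=
          lintegral_mono_set inter_subset_left
      _ ≤ _ := hJ l k A mA
  have h4 := ENNReal.toReal_mono (ENNReal.mul_ne_top ENNReal.ofReal_ne_top fA) h3
  rw [ENNReal.toReal_mul, ENNReal.toReal_mul, ENNReal.toReal_ofReal hη.le,
    ENNReal.toReal_ofReal (by positivity)] at h4
  rw [le_div_iff₀ (by positivity)]
  have h5 : P.real {s | D l k s ∈ A ∧ η ≤ |D (l + 1) k s|} * (Real.pi * η) =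
      Real.pi * (η * (P {s | D l k s ∈ A ∧ η ≤ |D (l + 1) k s|}).toReal) := by
    show (P {s | D l k s ∈ A ∧ η ≤ |D (l + 1) k s|}).toReal * (Real.pi * η) = _
    ring
  rw [h5]
  calc _ ≤ Real.pi * (C / Real.pi * (volume A).toReal) := by gcongr
    _ = _ := by
      show _ = C * (volume A).toReal
      field_simp

lemma step2 [IsProbabilityMeasure P] (mD : ∀ l k, Measurable (D l k)) (hC : 0 ≤ C)
    (hJ : JI P D C) (l : ℕ) {A : Set ℝ} (mA : MeasurableSet A) (fA : volume A ≠ ⊤) {c : ℝ}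
    (hc : 0 < c) :
    P.real {s | (∀ k, D l k s ∈ A) ∧ c ≤ ∑ k, |D (l + 1) k s|} ≤
      C * Fintype.card κ / Real.pi * (volume.real A / c) := by
  have hp := Real.pi_pos
  obtain ⟨B, hB⟩ : ∃ B, B = {s | (∀ k, D l k s ∈ A) ∧ c ≤ ∑ k, |D (l + 1) k s|} := ⟨_, rfl⟩
  have mB : MeasurableSet B := by
    have e1 : B = (⋂ k, {s | D l k s ∈ A}) ∩ {s | c ≤ ∑ k, |D (l + 1) k s|} := by
      rw [hB]
      ext s
      simp
    rw [e1]
    refine MeasurableSet.inter ?_ ?_
    · exact MeasurableSet.iInter fun k => (mD l k) mA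
    · exact measurableSet_le measurable_const
        (Finset.measurable_fun_sum _ fun k _ => (mD (l + 1) k).abs)
  have h3 : ∀ k, ∫⁻ s in B, ENNReal.ofReal |D (l + 1) k s| ∂P ≤
      ENNReal.ofReal (C / Real.pi * volume.real A) := by
    intro k
    have h4 := hJ l k A mA
    refine (lintegral_mono_set (fun s hs => ?_)).trans (h4.trans (le_of_eq ?_))
    · rw [hB] at hs
      exact hs.1 k
    · rw [ENNReal.ofReal_mul (by positivity)]
      congr 1
      exact (ENNReal.ofReal_toReal fA).symm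
  have hv : 0 ≤ volume.real A := measureReal_nonneg
  have h4 : ENNReal.ofReal c * P B ≤
      ENNReal.ofReal (Fintype.card κ * (C / Real.pi * volume.real A)) := by
    calc _ = ∫⁻ s in B, ENNReal.ofReal c ∂P := by
          rw [lintegral_const, Measure.restrict_apply_univ]
      _ ≤ ∫⁻ s in B, ∑ k, ENNReal.ofReal |D (l + 1) k s| ∂P := by
          refine setLIntegral_mono' mB fun s hs => ?_
          rw [← ENNReal.ofReal_sum_of_nonneg fun i _ => abs_nonneg _]
          rw [hB] at hs
          exact ENNReal.ofReal_le_ofReal hs.2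
      _ = ∑ k, ∫⁻ s in B, ENNReal.ofReal |D (l + 1) k s| ∂P :=
          lintegral_finsetSum _ fun k _ => (mD (l + 1) k).abs.ennreal_ofReal
      _ ≤ ∑ _k : κ, ENNReal.ofReal (C / Real.pi * volume.real A) :=
          Finset.sum_le_sum fun k _ => h3 k
      _ = _ := by
          rw [Finset.sum_const, Finset.card_univ, nsmul_eq_mul,
            ENNReal.ofReal_mul (Nat.cast_nonneg _), ENNReal.ofReal_natCast]
  have h5 := ENNReal.toReal_mono ENNReal.ofReal_ne_top h4
  rw [ENNReal.toReal_mul, ENNReal.toReal_ofReal hc.le,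
    ENNReal.toReal_ofReal (by positivity)] at h5
  rw [← hB]
  have h6 : P.real B = c * (P B).toReal / c := by
    show (P B).toReal = _
    field_simp
  rw [h6, div_le_iff₀ hc]
  refine h5.trans (le_of_eq ?_)
  field_simp

lemma chain [IsProbabilityMeasure P] (mD : ∀ l k, Measurable (D l k)) (hC : 0 ≤ C)
    (hJ : JI P D C) {c q : ℝ} (hc : 0 < c) (hq : 0 < q) (n : ℕ) :
    ∀ l : ℕ, P.real {s | (∀ k, |D l k s| < (q / 2) ^ (n + 1) * c) ∧ c ≤ ∑ k, |D (l + n + 1) k s|} ≤
      (n + 1) * (C * Fintype.card κ / Real.pi * q) := by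
  have hp := Real.pi_pos
  have hvol : ∀ η : ℝ, 0 < η → volume.real (Ioo (-η) η) = 2 * η := by
    intro η hη
    rw [Real.volume_real_Ioo_of_le (by linarith)]
    ring
  induction n with
  | zero =>
    intro l
    have h1 := step2 mD hC hJ l (A := Ioo (-(q / 2 * c)) (q / 2 * c)) measurableSet_Ioo
      (by rw [Real.volume_Ioo]; exact ENNReal.ofReal_ne_top) hc
    rw [hvol _ (by positivity)] at h1
    have e : {s | (∀ k, |D l k s| < (q / 2) ^ (0 + 1) * c) ∧ c ≤ ∑ k, |D (l + 0 + 1) k s|} =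
        {s | (∀ k, D l k s ∈ Ioo (-(q / 2 * c)) (q / 2 * c)) ∧ c ≤ ∑ k, |D (l + 1) k s|} := by
      ext s
      simp only [zero_add, pow_one, add_zero, mem_setOf_eq, abs_lt, mem_Ioo]
    rw [e]
    refine h1.trans (le_of_eq ?_)
    push_cast
    field_simp
    ring
  | succ n ih =>
    intro l
    obtain ⟨η, hη⟩ : ∃ η, η = (q / 2) ^ (n + 1) * c := ⟨_, rfl⟩
    have hη0 : 0 < η := by rw [hη]; positivity
    have hη' : (q / 2) ^ (n + 1 + 1) * c = q / 2 * η := by rw [hη]; ring
    have s1 : ∀ k, P.real {s | D l k s ∈ Ioo (-(q / 2 * η)) (q / 2 * η) ∧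
        η ≤ |D (l + 1) k s|} ≤ C / Real.pi * q := by
      intro k
      have h1 := step1 mD hC hJ l k (A := Ioo (-(q / 2 * η)) (q / 2 * η)) measurableSet_Ioo
        (by rw [Real.volume_Ioo]; exact ENNReal.ofReal_ne_top) hη0
      rw [hvol _ (by positivity)] at h1
      refine h1.trans (le_of_eq ?_)
      field_simp
    have s2 := ih (l + 1)
    rw [← hη] at s2
    have sub : {s | (∀ k, |D l k s| < (q / 2) ^ (n + 1 + 1) * c) ∧
        c ≤ ∑ k, |D (l + (n + 1) + 1) k s|} ⊆
        (⋃ k ∈ (Finset.univ : Finset κ), {s | D l k s ∈ Ioo (-(q / 2 * η)) (q / 2 * η) ∧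
          η ≤ |D (l + 1) k s|}) ∪
        {s | (∀ k, |D (l + 1) k s| < η) ∧ c ≤ ∑ k, |D (l + 1 + n + 1) k s|} := by
      rintro s ⟨h3, h4⟩
      by_cases h : ∃ k, η ≤ |D (l + 1) k s|
      · obtain ⟨k, hk⟩ := h
        left
        simp only [mem_iUnion]
        refine ⟨k, Finset.mem_univ k, ?_, hk⟩
        have := h3 k
        rw [hη'] at this
        exact abs_lt.1 this
      · right
        push Not at h
        have e : l + 1 + n + 1 = l + (n + 1) + 1 := by omega
        rw [mem_setOf_eq, e]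
        exact ⟨h, h4⟩
    calc _ ≤ _ := measureReal_mono sub
      _ ≤ _ := measureReal_union_le _ _
      _ ≤ ∑ k, P.real {s | D l k s ∈ Ioo (-(q / 2 * η)) (q / 2 * η) ∧ η ≤ |D (l + 1) k s|} +
            (n + 1) * (C * Fintype.card κ / Real.pi * q) :=
          add_le_add (measureReal_biUnion_finset_le _ _) s2
      _ ≤ ∑ _k : κ, C / Real.pi * q + (n + 1) * (C * Fintype.card κ / Real.pi * q) := by
          gcongr with k _
          exact s1 k
      _ = _ := by
          rw [Finset.sum_const, Finset.card_univ, nsmul_eq_mul]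
          push_cast
          ring

/-- the sublevel estimate -/
theorem sublevel [IsProbabilityMeasure P] (mD : ∀ l k, Measurable (D l k)) (hC : 0 ≤ C)
    (hJ : JI P D C) {A : Set ℝ} (mA : MeasurableSet A) (fA : volume A ≠ ⊤) {c : ℝ} (hc : 0 < c)
    {n : ℕ} (hn : 1 ≤ n) :
    P.real {s | (∀ k, D 0 k s ∈ A) ∧ c ≤ ∑ k, |D n k s|} ≤
      n * (C * Fintype.card κ / Real.pi) * (2 ^ (n - 1) * volume.real A / c) ^ (1 / (n : ℝ)) := by
  have hp := Real.pi_pos
  have hv : 0 ≤ volume.real A := measureReal_nonneg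
  obtain ⟨j, rfl⟩ : ∃ j, n = j + 1 := ⟨n - 1, by omega⟩
  rcases j with _ | j
  · have := step2 mD hC hJ 0 mA fA hc
    simpa using this
  · -- at least two
    have main : ∀ q : ℝ, 0 < q → P.real {s | (∀ k, D 0 k s ∈ A) ∧ c ≤ ∑ k, |D (j + 1 + 1) k s|} ≤
        C * Fintype.card κ / Real.pi * (volume.real A / ((q / 2) ^ (j + 1) * c)) +
          (j + 1) * (C * Fintype.card κ / Real.pi * q) := by
      intro q hq
      obtain ⟨η, hη⟩ : ∃ η, η = (q / 2) ^ (j + 1) * c := ⟨_, rfl⟩
      have hη0 : 0 < η := by rw [hη]; positivity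
      have s2 := chain mD hC hJ hc hq j 1
      rw [← hη] at s2
      rw [← hη]
      have sub : {s | (∀ k, D 0 k s ∈ A) ∧ c ≤ ∑ k, |D (j + 1 + 1) k s|} ⊆
          (⋃ k ∈ (Finset.univ : Finset κ), {s | D 0 k s ∈ A ∧ η ≤ |D (0 + 1) k s|}) ∪
          {s | (∀ k, |D 1 k s| < η) ∧ c ≤ ∑ k, |D (1 + j + 1) k s|} := by
        rintro s ⟨h3, h4⟩
        by_cases h : ∃ k, η ≤ |D (0 + 1) k s|
        · obtain ⟨k, hk⟩ := h
          left
          simp only [mem_iUnion]
          exact ⟨k, Finset.mem_univ k, h3 k, hk⟩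
        · right
          push Not at h
          have e : 1 + j + 1 = j + 1 + 1 := by omega
          rw [mem_setOf_eq, e]
          exact ⟨h, h4⟩
      calc _ ≤ _ := measureReal_mono sub
        _ ≤ _ := measureReal_union_le _ _
        _ ≤ ∑ k, P.real {s | D 0 k s ∈ A ∧ η ≤ |D (0 + 1) k s|} +
              (j + 1) * (C * Fintype.card κ / Real.pi * q) :=
            add_le_add (measureReal_biUnion_finset_le _ _) s2
        _ ≤ ∑ _k : κ, C * volume.real A / (Real.pi * η) +
              (j + 1) * (C * Fintype.card κ / Real.pi * q) := by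
            gcongr with k _
            exact step1 mD hC hJ 0 k mA fA hη0
        _ = _ := by
            rw [Finset.sum_const, Finset.card_univ, nsmul_eq_mul]
            field_simp
    rcases hv.eq_or_lt with h0 | h0
    · have e0 : (2 ^ (j + 1 + 1 - 1) * volume.real A / c : ℝ) ^ (1 / ((j + 1 + 1 : ℕ) : ℝ)) = 0 := by
        rw [← h0, mul_zero, zero_div, Real.zero_rpow]
        positivity
      rw [e0, mul_zero]
      have h1 : ∀ i : ℕ, P.real {s | (∀ k, D 0 k s ∈ A) ∧ c ≤ ∑ k, |D (j + 1 + 1) k s|} ≤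
          (j + 1) * (C * Fintype.card κ / Real.pi) * (1 / ((i : ℝ) + 1)) := by
        intro i
        have := main (1 / ((i : ℝ) + 1)) (by positivity)
        rw [← h0, zero_div, mul_zero, zero_add] at this
        refine this.trans (le_of_eq ?_)
        ring
      have t : Tendsto (fun i : ℕ => ((j : ℝ) + 1) * (C * Fintype.card κ / Real.pi) *
          (1 / ((i : ℝ) + 1))) atTop (𝓝 (((j : ℝ) + 1) * (C * Fintype.card κ / Real.pi) * 0)) :=
        tendsto_one_div_add_atTop_nhds_zero_nat.const_mul _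
      rw [mul_zero] at t
      exact ge_of_tendsto' t h1
    · obtain ⟨q, hq⟩ : ∃ q, q = (2 ^ (j + 1 + 1 - 1) * volume.real A / c : ℝ) ^
        (1 / ((j + 1 + 1 : ℕ) : ℝ)) := ⟨_, rfl⟩
      have hb : (0 : ℝ) < 2 ^ (j + 1 + 1 - 1) * volume.real A / c := by positivity
      have q0 : 0 < q := by rw [hq]; exact Real.rpow_pos_of_pos hb _
      have qn : q ^ (j + 1 + 1) = 2 ^ (j + 1) * volume.real A / c := by
        rw [hq, ← Real.rpow_natCast, ← Real.rpow_mul hb.le, one_div,
          inv_mul_cancel₀ (by positivity), Real.rpow_one]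
        rfl
      rw [← hq]
      refine (main q q0).trans (le_of_eq ?_)
      have e1 : volume.real A / ((q / 2) ^ (j + 1) * c) = q := by
        have h2 : volume.real A = q ^ (j + 1 + 1) * c / 2 ^ (j + 1) := by
          rw [qn]
          field_simp
        rw [h2, div_pow]
        have h3 : q ^ (j + 1 + 1) = q ^ (j + 1) * q := pow_succ _ _
        rw [h3]
        field_simp
      rw [e1]
      push_cast
      ring

end chain

end Pool.Agent.U39.SZ
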