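import Pool.Agent.U39.SZ.VC

/-!
Sublevel estimates for stationary waves (project SZ, helper39).
-/

set_option autoImplicit false

namespace Pool.Agent.U39.SZ

open Pool.Agent.Y139.SW MeasureTheory Filter Topology Set
open scoped ContDiff

lemma itd {S : Type*} [MeasurableSpace S] {P : Measure S} [IsProbabilityMeasure P]
    {θ : ℝ → S → S} {m : ℕ} (hm : 1 ≤ m) (k : ℕ) :
    ∀ {ι : Type} [Fintype ι] {u : ι → ℕ → S → ℝ → ℝ} {b : ℝ} (_ : Sys P θ u b)
      {Q : MvPolynomial ι ℝ} (_ : Q.totalDegree ≤ m),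
      Measurable (fun s => iteratedDeriv k (hF u Q s) 0) ∧
      ∀ A : Set ℝ, MeasurableSet A → ∫⁻ s in {s | iteratedDeriv k (hF u Q s) 0 ∈ A},
        ENNReal.ofReal |iteratedDeriv (k + 1) (hF u Q s) 0| ∂P ≤
          ENNReal.ofReal (m / Real.pi) * volume A := by
  induction k with
  | zero =>
    intro ι _ u b h Q hQ
    simp only [iteratedDeriv_zero, zero_add, iteratedDeriv_one]
    exact ⟨hF_meas h Q 0, fun A mA => poly1 h hm hQ mA⟩
  | succ k ih =>
    intro ι _ u b h Q hQ
    have e : ∀ n s, iteratedDeriv (n + 1) (hF u Q s) = iteratedDeriv n (hF (up u) (dQ Q) s) := by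
      intro n s
      rw [iteratedDeriv_succ', deriv_hF h]
    simp only [e]
    exact ih h.up (dQ_deg hm hQ)

section

variable {d : ℕ} {S : Type*} [MeasurableSpace S] {P : Measure S} {τ : E d → S → S}

lemma po_const {Q : MvPolynomial (List (Fin d)) ℝ} (hQ : Q.totalDegree = 0) :
    ∃ a : ℝ, ∀ f y, po Q f y = a := by
  rw [MvPolynomial.totalDegree_eq_zero_iff_eq_C] at hQ
  refine ⟨MvPolynomial.coeff 0 Q, fun f y => ?_⟩
  unfold po
  conv_lhs => rw [hQ]
  simp

/-- along a line -/
lemma line_itd [IsProbabilityMeasure P] (hτ : ∀ x, MeasurePreserving (τ x) P P)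
    {G : S → E d → ℝ} (W : Wave P τ G) (Q : MvPolynomial (List (Fin d)) ℝ)
    (hm : 1 ≤ Q.totalDegree) (x : E d) {v : E d} (hv : ‖v‖ ≤ 1) (k : ℕ) :
    Measurable (fun s => iteratedDeriv k (fun t : ℝ => po Q (G s) (x + t • v)) 0) ∧
      ∀ A : Set ℝ, MeasurableSet A →
        ∫⁻ s in {s | iteratedDeriv k (fun t : ℝ => po Q (G s) (x + t • v)) 0 ∈ A},
          ENNReal.ofReal |iteratedDeriv (k + 1) (fun t : ℝ => po Q (G s) (x + t • v)) 0| ∂P ≤
        ENNReal.ofReal ((Q.totalDegree : ℝ) / Real.pi) * volume A := by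
  obtain ⟨T, q, hq⟩ := MvPolynomial.exists_finset_rename Q
  have hdeg : q.totalDegree ≤ Q.totalDegree := by
    rw [hq]
    exact deg_rename Subtype.val_injective q
  have hs := sys hτ (U := fun (L : {L // L ∈ T}) s => jt L.1 (G s))
    (fun L => Wave.jt hτ W L.1) x hv
  have e : ∀ s, hF (ln (fun (L : {L // L ∈ T}) s => jt L.1 (G s)) x v) q s =
      fun t => po Q (G s) (x + t • v) := by
    intro s
    funext t
    unfold hF po
    rw [hq, MvPolynomial.eval_rename]
    rfl
  have h1 := itd hm k hs hdeg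
  simp only [e] at h1
  exact h1

/-- the sublevel estimate for measure preserving maps -/
theorem sub1 [IsProbabilityMeasure P] (hτ : ∀ x, MeasurePreserving (τ x) P P)
    {G : S → E d → ℝ} (W : Wave P τ G) (Q : MvPolynomial (List (Fin d)) ℝ) (x : E d)
    {κ : Type*} [Fintype κ] {v : κ → E d} (hv : ∀ j, ‖v j‖ ≤ 1) {n : ℕ} (hn : 1 ≤ n) {A : Set ℝ}
    (mA : MeasurableSet A) (fA : volume A ≠ ⊤) {c : ℝ} (hc : 0 < c) :
    (∀ j l, Measurable fun s => iteratedDeriv l (fun t : ℝ => po Q (G s) (x + t • v j)) 0) ∧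
    (Measurable fun s => po Q (G s) x) ∧
    P.real {s | po Q (G s) x ∈ A ∧
      c ≤ ∑ j, |iteratedDeriv n (fun t : ℝ => po Q (G s) (x + t • v j)) 0|} ≤
      n * (Q.totalDegree * Fintype.card κ / Real.pi) *
        (2 ^ (n - 1) * volume.real A / c) ^ (1 / (n : ℝ)) := by
  rcases Nat.eq_zero_or_pos Q.totalDegree with h0 | h0
  · obtain ⟨a, ha⟩ := po_const h0
    refine ⟨fun j l => ?_, ?_, ?_⟩
    · simp only [ha]
      exact measurable_const
    · simp only [ha]
      exact measurable_const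
    · have e : {s | po Q (G s) x ∈ A ∧
          c ≤ ∑ j, |iteratedDeriv n (fun t : ℝ => po Q (G s) (x + t • v j)) 0|} = ∅ := by
        ext s
        simp only [ha, mem_setOf_eq, mem_empty_iff_false, iff_false, not_and, not_le]
        intro _
        have : iteratedDeriv n (fun _ : ℝ => a) 0 = 0 := by
          rw [iteratedDeriv_const]
          simp [show n ≠ 0 by omega]
        simp [this, hc]
      rw [e, h0]
      simp
  · have hm : 1 ≤ Q.totalDegree := h0
    have key := fun j l => line_itd hτ W Q hm x (hv j) l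
    refine ⟨fun j l => (key j l).1, ?_, ?_⟩
    · have h1 := (line_itd hτ W Q hm x (v := 0) (by simp) 0).1
      simpa using h1
    · have hJ : JI P (fun l j s => iteratedDeriv l (fun t : ℝ => po Q (G s) (x + t • v j)) 0)
          (Q.totalDegree : ℝ) := fun l j A mA => (key j l).2 A mA
      have h1 := sublevel (D := fun l j s =>
        iteratedDeriv l (fun t : ℝ => po Q (G s) (x + t • v j)) 0) (fun l j => (key j l).1)
        (Nat.cast_nonneg _) hJ mA fA hc hn
      rcases isEmpty_or_nonempty κ with hκ | hκ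
      · have e : {s | po Q (G s) x ∈ A ∧
            c ≤ ∑ j, |iteratedDeriv n (fun t : ℝ => po Q (G s) (x + t • v j)) 0|} = ∅ := by
          ext s
          simp only [Finset.univ_eq_empty, Finset.sum_empty, mem_setOf_eq, mem_empty_iff_false,
            iff_false, not_and, not_le]
          exact fun _ => hc
        rw [e]
        simp
      · have e : {s | po Q (G s) x ∈ A ∧
            c ≤ ∑ j, |iteratedDeriv n (fun t : ℝ => po Q (G s) (x + t • v j)) 0|} =
            {s | (∀ j, iteratedDeriv 0 (fun t : ℝ => po Q (G s) (x + t • v j)) 0 ∈ A) ∧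
            c ≤ ∑ j, |iteratedDeriv n (fun t : ℝ => po Q (G s) (x + t • v j)) 0|} := by
          ext s
          simp only [iteratedDeriv_zero, zero_smul, add_zero, mem_setOf_eq, forall_const]
        rw [e]
        exact h1

end

section

variable {d : ℕ} {S : Type*} [MeasurableSpace S] {P : Measure S}

/-- the sublevel estimate for stationary waves -/
theorem sub2 [IsProbabilityMeasure P] {F : S → E d → ℝ}
    (mF : ∀ y, Measurable fun s => F s y)
    (sF : ∀ s, ContDiff ℝ ∞ (F s)) (eF : ∀ s y, Lap (F s) y + F s y = 0)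
    (st : ∀ x : E d, P.map (fun s y => F s (y + x)) = P.map (fun s y => F s y))
    (l2 : Integrable (fun s => F s 0 ^ 2) P) (Q : MvPolynomial (List (Fin d)) ℝ) (x : E d)
    {κ : Type*} [Fintype κ] {v : κ → E d} (hv : ∀ j, ‖v j‖ ≤ 1) {n : ℕ} (hn : 1 ≤ n)
    {A : Set ℝ} (mA : MeasurableSet A) (fA : volume A ≠ ⊤) {c : ℝ} (hc : 0 < c) :
    P.real {s | po Q (F s) x ∈ A ∧
      c ≤ ∑ j, |iteratedDeriv n (fun t : ℝ => po Q (F s) (x + t • v j)) 0|} ≤
      n * (Q.totalDegree * Fintype.card κ / Real.pi) *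
        (2 ^ (n - 1) * volume.real A / c) ^ (1 / (n : ℝ)) := by
  obtain ⟨Φ, mΦ, v1, hτ, W⟩ := canon mF sF eF st l2
  have hQ : IsProbabilityMeasure (P.map Φ) := Measure.isProbabilityMeasure_map mΦ.aemeasurable
  obtain ⟨h1, h2, h3⟩ := sub1 hτ W Q x hv hn mA fA hc
  have mS : MeasurableSet {f : Sp d | po Q f.1 x ∈ A ∧
      c ≤ ∑ j, |iteratedDeriv n (fun t : ℝ => po Q f.1 (x + t • v j)) 0|} :=
    (h2 mA).inter (measurableSet_le measurable_const
      (Finset.measurable_fun_sum _ fun j _ => (h1 j n).abs))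
  rw [map_measureReal_apply mΦ mS] at h3
  have e : Φ ⁻¹' {f : Sp d | po Q f.1 x ∈ A ∧
      c ≤ ∑ j, |iteratedDeriv n (fun t : ℝ => po Q f.1 (x + t • v j)) 0|} =
      {s | po Q (F s) x ∈ A ∧
        c ≤ ∑ j, |iteratedDeriv n (fun t : ℝ => po Q (F s) (x + t • v j)) 0|} := by
    ext s
    simp only [mem_preimage, mem_setOf_eq, v1]
  rw [e] at h3
  exact h3

end

end Pool.Agent.U39.SZ
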