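import Pool.Agent.U39.SZ.V
import Pool.Agent.Y139.SW.B

/-!
Stationary waves along lines (project SZ, helper39).
-/

set_option autoImplicit false

namespace Pool.Agent.U39.SZ

open Pool.Agent.Y139.SW MeasureTheory Filter Topology Set
open scoped ContDiff

variable {d : ℕ} {S : Type*} [MeasurableSpace S] {P : Measure S} {τ : E d → S → S}

/-- the directional derivative -/
noncomputable def Dv (v : E d) (f : E d → ℝ) (y : E d) : ℝ := fderiv ℝ f y v

lemma Dv_eq (v : E d) (f : E d → ℝ) (y : E d) : Dv v f y = ∑ i, v i * D i f y := by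
  have h : v = ∑ i, v i • (EuclideanSpace.single i (1 : ℝ) : E d) := by
    have := (EuclideanSpace.basisFun (Fin d) ℝ).sum_repr v
    simpa using this.symm
  unfold Dv D
  conv_lhs => rw [h]
  rw [map_sum]
  simp

lemma D_csum (c : Fin d → ℝ) {f : Fin d → E d → ℝ} (hf : ∀ j, ContDiff ℝ ∞ (f j)) (i : Fin d)
    (y : E d) : D i (fun w => ∑ j, c j * f j w) y = ∑ j, c j * D i (f j) y := by
  rw [D_sum Finset.univ (fun j => contDiff_const.mul (hf j))]
  refine Finset.sum_congr rfl fun j _ => ?_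
  rw [D_mul contDiff_const (hf j)]
  have : D i (fun _ : E d => c j) y = 0 := by
    unfold D
    simp
  rw [this]
  ring

lemma Lap_csum (c : Fin d → ℝ) {f : Fin d → E d → ℝ} (hf : ∀ j, ContDiff ℝ ∞ (f j))
    (y : E d) : Lap (fun w => ∑ j, c j * f j w) y = ∑ j, c j * Lap (f j) y := by
  unfold Lap
  have e : ∀ i, D i (fun w => ∑ j, c j * f j w) = fun w => ∑ j, c j * D i (f j) w :=
    fun i => funext fun w => D_csum c hf i w
  simp only [e, D_csum c (fun j => D_sm (hf j) _)]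
  rw [Finset.sum_comm]
  simp only [Finset.mul_sum]

lemma Wave.dv [IsProbabilityMeasure P] (hτ : ∀ x, MeasurePreserving (τ x) P P)
    {G : S → E d → ℝ} (W : Wave P τ G) (v : E d) :
    Wave P τ (fun s => Dv v (G s)) ∧
      ∫ s, Dv v (G s) 0 ^ 2 ∂P ≤ ‖v‖ ^ 2 * ∫ s, G s 0 ^ 2 ∂P := by
  have W1 := fun i => W.der hτ i
  have e : (fun s => Dv v (G s)) = fun s y => ∑ i, v i * D i (G s) y := by
    funext s y
    exact Dv_eq v (G s) y
  have sf : SF τ (fun s y => ∑ i, v i * D i (G s) y) :=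
    ⟨fun y => Finset.measurable_fun_sum _ fun i _ => ((W1 i).sf.meas y).const_mul _,
      fun s => ContDiff.sum fun i _ => contDiff_const.mul ((W1 i).sf.smooth s),
      fun x s y => Finset.sum_congr rfl fun i _ => by rw [(W1 i).sf.cov]⟩
  have cs : ∀ s, (∑ i, v i * D i (G s) 0) ^ 2 ≤ ‖v‖ ^ 2 * ∑ i, D i (G s) 0 ^ 2 := by
    intro s
    have h1 := Finset.sum_mul_sq_le_sq_mul_sq Finset.univ (fun i => v i) (fun i => D i (G s) 0)
    rw [EuclideanSpace.norm_sq_eq]
    simpa [Real.norm_eq_abs, sq_abs] using h1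
  have isum : Integrable (fun s => ‖v‖ ^ 2 * ∑ i, D i (G s) 0 ^ 2) P :=
    (integrable_finsetSum _ fun i _ => (W1 i).l2).const_mul _
  have il2 : Integrable (fun s => (∑ i, v i * D i (G s) 0) ^ 2) P := by
    refine isum.mono' ((sf.meas 0).pow_const 2).aestronglyMeasurable (ae_of_all _ fun s => ?_)
    rw [Real.norm_eq_abs, abs_of_nonneg (sq_nonneg _)]
    exact cs s
  refine ⟨?_, ?_⟩
  · rw [e]
    refine ⟨sf, fun s y => ?_, il2⟩
    rw [Lap_csum _ (fun j => (W1 j).sf.smooth s)]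
    rw [← Finset.sum_neg_distrib]
    refine Finset.sum_congr rfl fun i _ => ?_
    rw [(W1 i).eq]
    ring
  · have e2 : ∀ s, Dv v (G s) 0 = ∑ i, v i * D i (G s) 0 := fun s => Dv_eq _ _ _
    simp only [e2]
    calc _ ≤ ∫ s, ‖v‖ ^ 2 * ∑ i, D i (G s) 0 ^ 2 ∂P := integral_mono il2 isum cs
      _ = _ := by
          rw [integral_const_mul, integral_finsetSum _ fun i _ => (W1 i).l2, W.energy hτ]

/-- iterated directional derivatives -/
noncomputable def itD (v : E d) : ℕ → (E d → ℝ) → E d → ℝ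
  | 0, f => f
  | n + 1, f => Dv v (itD v n f)

lemma Wave.it [IsProbabilityMeasure P] (hτ : ∀ x, MeasurePreserving (τ x) P P)
    {G : S → E d → ℝ} (W : Wave P τ G) {v : E d} (hv : ‖v‖ ≤ 1) (n : ℕ) :
    Wave P τ (fun s => itD v n (G s)) ∧
      ∫ s, itD v n (G s) 0 ^ 2 ∂P ≤ ∫ s, G s 0 ^ 2 ∂P := by
  induction n with
  | zero => exact ⟨W, le_rfl⟩
  | succ n ih =>
    obtain ⟨h1, h2⟩ := Wave.dv hτ ih.1 v
    refine ⟨h1, h2.trans ?_⟩
    have h3 : ‖v‖ ^ 2 ≤ 1 := pow_le_one₀ (norm_nonneg _) hv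
    have h4 : 0 ≤ ∫ s, itD v n (G s) 0 ^ 2 ∂P := integral_nonneg fun s => sq_nonneg _
    calc _ ≤ 1 * ∫ s, itD v n (G s) 0 ^ 2 ∂P := mul_le_mul_of_nonneg_right h3 h4
      _ ≤ _ := by rw [one_mul]; exact ih.2

/-- the values along the line `x + ℝ v` -/
noncomputable def ln {ι : Type*} (U : ι → S → E d → ℝ) (x v : E d) (j : ι) (n : ℕ) (s : S)
    (t : ℝ) : ℝ := itD v n (U j s) (x + t • v)

lemma sys {ι : Type*} [Fintype ι] [IsProbabilityMeasure P] (hτ : ∀ x, MeasurePreserving (τ x) P P)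
    {U : ι → S → E d → ℝ} (W : ∀ j, Wave P τ (U j)) (x : E d) {v : E d} (hv : ‖v‖ ≤ 1) :
    Sys P (fun a => τ (a • v)) (ln U x v) (∑ j, ∫ s, U j s 0 ^ 2 ∂P) := by
  have Wn := fun j n => Wave.it hτ (W j) hv n
  refine ⟨fun a => hτ _, fun j n t => (Wn j n).1.sf.meas _, fun j n s t => ?_,
    fun j n a s t => ?_, Finset.sum_nonneg fun j _ => integral_nonneg fun s => sq_nonneg _,
    fun n t => ?_⟩
  · have h1 : HasDerivAt (fun t : ℝ => x + t • v) ((1 : ℝ) • v) t :=
      ((hasDerivAt_id t).smul_const v).const_add x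
    have h2 := (sdiff ((Wn j n).1.sf.smooth s) (x + t • v)).hasFDerivAt.comp_hasDerivAt t h1
    rw [one_smul] at h2
    exact h2
  · show itD v n (U j (τ (a • v) s)) (x + t • v) = itD v n (U j s) (x + (t + a) • v)
    have h1 := (Wn j n).1.sf.cov (a • v) s (x + t • v)
    rw [h1]
    congr 1
    rw [add_smul, add_assoc]
  · have m1 : ∀ j, Measurable fun s => ENNReal.ofReal (ln U x v j n s t ^ 2) := fun j =>
      (((Wn j n).1.sf.meas _).pow_const 2).ennreal_ofReal
    rw [lintegral_finsetSum _ fun j _ => m1 j,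
      ENNReal.ofReal_sum_of_nonneg fun j _ => integral_nonneg fun s => sq_nonneg _]
    refine Finset.sum_le_sum fun j _ => ?_
    have h1 : ∫⁻ s, ENNReal.ofReal (ln U x v j n s t ^ 2) ∂P =
        ∫⁻ s, ENNReal.ofReal (itD v n (U j s) 0 ^ 2) ∂P :=
      st_lint hτ (Wn j n).1.sf (x + t • v) (k := fun x => ENNReal.ofReal (x ^ 2))
        (measurable_id.pow_const 2).ennreal_ofReal
    rw [h1, ← ofReal_integral_eq_lintegral_ofReal (Wn j n).1.l2
      (ae_of_all _ fun s => sq_nonneg _)]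
    exact ENNReal.ofReal_le_ofReal (Wn j n).2

/-- partial derivatives of all orders -/
noncomputable def jt : List (Fin d) → (E d → ℝ) → E d → ℝ
  | [], f => f
  | i :: L, f => D i (jt L f)

lemma Wave.jt [IsProbabilityMeasure P] (hτ : ∀ x, MeasurePreserving (τ x) P P)
    {G : S → E d → ℝ} (W : Wave P τ G) (L : List (Fin d)) : Wave P τ (fun s => jt L (G s)) := by
  induction L with
  | nil => exact W
  | cons i L ih => exact ih.der hτ i

/-- polynomials in the partial derivatives -/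
noncomputable def po (Q : MvPolynomial (List (Fin d)) ℝ) (f : E d → ℝ) (y : E d) : ℝ :=
  MvPolynomial.eval (fun L => jt L f y) Q

lemma deg_rename {σ σ' : Type*} {f : σ → σ'} (hf : Function.Injective f) (q : MvPolynomial σ ℝ) :
    q.totalDegree ≤ (MvPolynomial.rename f q).totalDegree := by
  classical
  unfold MvPolynomial.totalDegree
  refine Finset.sup_le fun c hc => ?_
  have h1 : Finsupp.mapDomain f c ∈ (MvPolynomial.rename f q).support := by
    rw [MvPolynomial.mem_support_iff, MvPolynomial.coeff_rename_mapDomain f hf]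
    exact MvPolynomial.mem_support_iff.1 hc
  refine le_trans (le_of_eq ?_) (Finset.le_sup (f := fun s : σ' →₀ ℕ => s.sum fun _ e => e) h1)
  rw [Finsupp.sum_mapDomain_index (fun _ => rfl) (fun _ _ _ => rfl)]

/-- the theorem for measure preserving maps -/
theorem main1 [IsProbabilityMeasure P] (hτ : ∀ x, MeasurePreserving (τ x) P P)
    {G : S → E d → ℝ} (W : Wave P τ G) (Q : MvPolynomial (List (Fin d)) ℝ) (x : E d) {v : E d}
    (hv : ‖v‖ ≤ 1) {r : ℝ} (hr : 0 < r) {I : Set S} (mI : MeasurableSet I)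
    (hI : ∀ (a : ℝ) s, τ (a • v) s ∈ I ↔ s ∈ I) :
    Measurable (fun s => nz (fun t => po Q (G s) (x + t • v)) 0 r) ∧
    MeasurableSet {s | ∃ t : ℝ, po Q (G s) (x + t • v) ≠ 0} ∧
    ∫⁻ s in I ∩ {s | ∃ t : ℝ, po Q (G s) (x + t • v) ≠ 0},
      nz (fun t => po Q (G s) (x + t • v)) 0 r ∂P ≤
      ENNReal.ofReal (Q.totalDegree * r / Real.pi) *
        P (I ∩ {s | ∃ t : ℝ, po Q (G s) (x + t • v) ≠ 0}) := by
  obtain ⟨T, q, hq⟩ := MvPolynomial.exists_finset_rename Q
  have hdeg : q.totalDegree ≤ Q.totalDegree := by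
    rw [hq]
    exact deg_rename Subtype.val_injective q
  have hs := sys hτ (U := fun (L : {L // L ∈ T}) s => jt L.1 (G s))
    (fun L => Wave.jt hτ W L.1) x hv
  have e : ∀ s, hF (ln (fun (L : {L // L ∈ T}) s => jt L.1 (G s)) x v) q s =
      fun t => po Q (G s) (x + t • v) := by
    intro s
    funext t
    unfold hF po
    rw [hq, MvPolynomial.eval_rename]
    rfl
  have eA : AA (ln (fun (L : {L // L ∈ T}) s => jt L.1 (G s)) x v) q =
      {s | ∃ t : ℝ, po Q (G s) (x + t • v) ≠ 0} := by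
    unfold AA
    simp only [e]
  have h1 := seg_bound hs hdeg mI hI hr
  have h2 := AA_meas hs q
  have h3 := nz_meas (a := 0) (hF_meas hs q) (hF_cont hs q) hr
  rw [eA] at h1 h2
  simp only [e] at h1 h3
  rw [zero_add] at h3
  exact ⟨h3, h2, h1⟩

end Pool.Agent.U39.SZ
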