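import Pool.Agent.U39.SZ.W

/-!
The plane wave with a random phase and the Chebyshev polynomials (project SZ, helper39).
-/

set_option autoImplicit false

namespace Pool.Agent.U39.SZ

open Pool.Agent.Y139.SW MeasureTheory Filter Topology Set
open scoped ContDiff

/-- the zeros of `cos (m (t + a))` on `[0, π)` -/
lemma cos_count {m : ℕ} (hm : 1 ≤ m) (a : ℝ) :
    nz (fun t => Real.cos (m * (t + a))) 0 Real.pi = m := by
  have hp := Real.pi_pos
  have hm0 : (0 : ℝ) < m := by exact_mod_cast hm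
  obtain ⟨c, hc⟩ : ∃ c : ℝ, c = m * a / Real.pi - 1 / 2 := ⟨_, rfl⟩
  unfold nz
  have e : ({t | t ∈ Ico 0 Real.pi ∧ Real.cos (m * (t + a)) = 0} : Set ℝ) =
      (fun k : ℤ => (2 * (k : ℝ) + 1) * Real.pi / 2 / m - a) '' (Ico ⌈c⌉ (⌈c⌉ + m) : Set ℤ) := by
    ext t
    simp only [mem_setOf_eq, mem_image, mem_Ico]
    constructor
    · rintro ⟨⟨h0, h1⟩, h2⟩
      obtain ⟨k, hk⟩ := Real.cos_eq_zero_iff.1 h2
      refine ⟨k, ⟨?_, ?_⟩, ?_⟩
      · rw [Int.ceil_le, hc, sub_le_iff_le_add, div_le_iff₀ hp]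
        nlinarith
      · have h3 : (k : ℝ) < c + m := by
          have h4 : (m : ℝ) * t < m * Real.pi := mul_lt_mul_of_pos_left h1 hm0
          have h5 : ((k : ℝ) + 1 / 2 - m) * Real.pi < m * a := by
            have : (m : ℝ) * (t + a) = m * t + m * a := by ring
            rw [this] at hk
            nlinarith
          have h6 : (k : ℝ) + 1 / 2 - m < m * a / Real.pi := by
            rwa [lt_div_iff₀ hp]
          rw [hc]
          linarith
        have h7 : (k : ℝ) < ((⌈c⌉ + m : ℤ) : ℝ) := by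
          have := Int.le_ceil c
          push_cast
          linarith
        exact_mod_cast h7
      · rw [← hk]
        field_simp
        ring
    · rintro ⟨k, ⟨h1, h2⟩, rfl⟩
      rw [Int.ceil_le] at h1
      have h3 : (k : ℝ) < c + m := by
        have h4 : k - m < ⌈c⌉ := by linarith
        rw [Int.lt_ceil] at h4
        push_cast at h4
        linarith
      have e1 : (m : ℝ) * ((2 * (k : ℝ) + 1) * Real.pi / 2 / m - a + a) =
          (2 * (k : ℝ) + 1) * Real.pi / 2 := by
        field_simp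
        ring
      have h5 : m * a / Real.pi ≤ k + 1 / 2 := by rw [hc] at h1; linarith
      have h6 : (k : ℝ) + 1 / 2 - m < m * a / Real.pi := by rw [hc] at h3; linarith
      rw [div_le_iff₀ hp] at h5
      rw [lt_div_iff₀ hp] at h6
      refine ⟨⟨?_, ?_⟩, ?_⟩
      · rw [sub_nonneg, le_div_iff₀ hm0]
        linarith
      · rw [sub_lt_iff_lt_add, div_lt_iff₀ hm0]
        nlinarith
      · rw [e1, Real.cos_eq_zero_iff]
        exact ⟨k, rfl⟩
  rw [e, Function.Injective.encard_image]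
  · have h1 : (Ico ⌈c⌉ (⌈c⌉ + m) : Set ℤ) = ((Finset.Ico ⌈c⌉ (⌈c⌉ + m) : Finset ℤ) : Set ℤ) := by
      simp
    rw [h1, Set.encard_coe_eq_coe_finsetCard, Int.card_Ico]
    simp
  · intro k l hkl
    simp only [sub_left_inj] at hkl
    have h1 : (2 * (k : ℝ) + 1) = 2 * (l : ℝ) + 1 := by
      have h2 : (2 * (k : ℝ) + 1) * (Real.pi / 2 / m) = (2 * (l : ℝ) + 1) * (Real.pi / 2 / m) := by
        have e1 : ∀ x : ℝ, x * (Real.pi / 2 / m) = x * Real.pi / 2 / m := fun x => by ring
        rw [e1, e1]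
        exact hkl
      exact mul_right_cancel₀ (by positivity) h2
    have h2 : (k : ℝ) = l := by linarith
    exact_mod_cast h2

instance : Fact ((0 : ℝ) < 2 * Real.pi) := ⟨by positivity⟩

/-- the plane wave -/
noncomputable def pw {d : ℕ} (i0 : Fin d) (s : AddCircle (2 * Real.pi)) (y : E d) : ℝ :=
  ((AddCircle.toCircle (s + ((y i0 : ℝ) : AddCircle (2 * Real.pi))) : Circle) : ℂ).re

lemma pw_mk {d : ℕ} (i0 : Fin d) (a : ℝ) (y : E d) :
    pw i0 (a : AddCircle (2 * Real.pi)) y = Real.cos (y i0 + a) := by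
  unfold pw
  rw [← AddCircle.coe_add, AddCircle.toCircle_apply_mk, Circle.coe_exp]
  have h : 2 * Real.pi / (2 * Real.pi) = 1 := div_self (by positivity)
  rw [h, one_mul, Complex.exp_ofReal_mul_I_re, add_comm]

lemma pw_ex {d : ℕ} (i0 : Fin d) (s : AddCircle (2 * Real.pi)) :
    ∃ a : ℝ, pw i0 s = fun y => Real.cos (y i0 + a) := by
  obtain ⟨a, rfl⟩ := QuotientAddGroup.mk_surjective s
  exact ⟨a, funext fun y => pw_mk i0 a y⟩

lemma D_cos {d : ℕ} (i0 i : Fin d) (a : ℝ) (k : ℝ → ℝ) (k' : ℝ → ℝ)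
    (hk : ∀ x, HasDerivAt k (k' x) x) (y : E d) :
    D i (fun y => k (y i0 + a)) y = if i = i0 then k' (y i0 + a) else 0 := by
  unfold D
  have h1 : HasFDerivAt (fun y : E d => y i0 + a) (EuclideanSpace.proj i0 : E d →L[ℝ] ℝ) y := by
    have := (EuclideanSpace.proj i0 : E d →L[ℝ] ℝ).hasFDerivAt (x := y)
    exact this.add_const a
  have h2 := (hk (y i0 + a)).comp_hasFDerivAt y h1
  have h3 : HasFDerivAt (fun y : E d => k (y i0 + a))
      (k' (y i0 + a) • (EuclideanSpace.proj i0 : E d →L[ℝ] ℝ)) y := h2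
  rw [h3.fderiv]
  by_cases h : i = i0
  · subst h
    simp
  · have h' : i0 ≠ i := fun h4 => h h4.symm
    simp [h, h']

lemma pw_eq {d : ℕ} (i0 : Fin d) (s : AddCircle (2 * Real.pi)) (y : E d) :
    Lap (pw i0 s) y + pw i0 s y = 0 := by
  obtain ⟨a, ha⟩ := pw_ex i0 s
  rw [ha]
  unfold Lap
  have e1 : ∀ i, D i (fun y : E d => Real.cos (y i0 + a)) = fun y =>
      (if i = i0 then (1 : ℝ) else 0) * (-Real.sin (y i0 + a)) := by
    intro i
    funext y
    rw [D_cos i0 i a Real.cos (fun x => -Real.sin x) Real.hasDerivAt_cos]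
    split_ifs <;> simp
  have e2 : ∀ i, D i (D i (fun y : E d => Real.cos (y i0 + a))) y =
      if i = i0 then -Real.cos (y i0 + a) else 0 := by
    intro i
    rw [e1]
    by_cases h : i = i0
    · have := D_cos i0 i a (fun x => -Real.sin x) (fun x => -Real.cos x)
        (fun x => (Real.hasDerivAt_sin x).neg) y
      simp only [h, if_true, one_mul] at this ⊢
      exact this
    · simp only [h, if_false, zero_mul]
      unfold D
      simp
  simp only [e2]
  simp

end Pool.Agent.U39.SZ
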